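import Mathlib

/-!
Weighted matchings of the complete graph on `0, ..., N-1`, given as involutions.
-/

set_option autoImplicit false

namespace Pool.Agent.Shared.Matching

/-- Entry of a weight matrix (0 outside the matrix; weight 0 plays the role of a non-edge). -/
def wt (W : List (List ℕ)) (i j : ℕ) : ℕ := (W.getD i []).getD j 0

/-- A matching of the complete graph on `0, ..., N-1`, as an involution (fixed = unmatched). -/
def IsMate (N : ℕ) (m : ℕ → ℕ) : Prop := ∀ i < N, m i < N ∧ m (m i) = i

/-- Twice the weight of the matching `m`. -/
def mateWt (N : ℕ) (W : List (List ℕ)) (m : ℕ → ℕ) : ℕ :=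
  ∑ i ∈ Finset.range N, if m i = i then 0 else wt W i (m i)

end Pool.Agent.Shared.Matching
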