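import Mathlib
import Pool.Agent.Shared.Matching.Defs

/-!
Dual certificates for weighted matchings. The laminar family of odd sets with its dual values is
stored as a function `Z u v` (the total dual value of the sets containing both `u` and `v`),
which satisfies an ultrametric inequality.
-/

set_option autoImplicit false

namespace Pool.Agent.Shared.Matching.Alg

open Finset Function

/-- The edge `u v` is tight (weights are doubled). -/
def Tight (w : ℕ → ℕ → ℕ) (y : ℕ → ℕ) (Z : ℕ → ℕ → ℕ) (u v : ℕ) : Prop :=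
  y u + y v + 2 * Z u v = 2 * w u v

/-- On `A`, the matching `m` uses tight edges and leaves each blossom at most once. -/
def GoodOn (w : ℕ → ℕ → ℕ) (y : ℕ → ℕ) (Z : ℕ → ℕ → ℕ) (A : ℕ → Prop) (m : ℕ → ℕ) : Prop :=
  (∀ x, A x → m x ≠ x → Tight w y Z x (m x)) ∧
  ∀ x x', A x → A x' → x ≠ x' → Z x x' ≤ max (Z x (m x)) (Z x' (m x'))

/-- A feasible dual solution. -/
structure Dual (w : ℕ → ℕ → ℕ) (y : ℕ → ℕ) (Z : ℕ → ℕ → ℕ) : Prop where
  symm : ∀ u v, Z u v = Z v u
  diag : ∀ u, Z u u = 0
  ultra : ∀ u v x, u ≠ x → min (Z u v) (Z v x) ≤ Z u x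
  feas : ∀ u v, u ≠ v → 2 * w u v ≤ y u + y v + 2 * Z u v
  par : ∀ u v, 1 ≤ Z u v → y u % 2 = y v % 2

theorem even_card_of_invol (s : Finset ℕ) (m : ℕ → ℕ) (h1 : ∀ x ∈ s, m x ∈ s)
    (h2 : ∀ x ∈ s, m (m x) = x) (h3 : ∀ x ∈ s, m x ≠ x) : Even s.card := by
  have h : ∑ _x ∈ s, (1 : ZMod 2) = 0 :=
    Finset.sum_involution (fun x _ => m x) (fun _ _ => by decide) (fun x hx _ => h3 x hx)
      (fun x hx => h1 x hx) (fun x hx => h2 x hx)
  rw [Finset.sum_const, nsmul_eq_mul, mul_one] at h
  exact (ZMod.natCast_eq_zero_iff_even).1 h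

theorem level_card {w : ℕ → ℕ → ℕ} {y : ℕ → ℕ} {Z : ℕ → ℕ → ℕ} (hd : Dual w y Z) {N : ℕ}
    {M m : ℕ → ℕ} (hM : IsMate N M) (hm : IsMate N m) (hg : GoodOn w y Z (fun _ => True) M)
    (k : ℕ) : ((range N).filter fun u => Z u (M u) ≤ k).card ≤
      ((range N).filter fun u => Z u (m u) ≤ k).card := by
  have key : ∀ u ∈ (range N).filter fun u => Z u (M u) ≤ k,
      ∃ x ∈ (range N).filter fun u => Z u (m u) ≤ k, x = u ∨ k < Z u x := by
    intro u hu
    obtain ⟨hu1, hu2⟩ := mem_filter.1 hu
    by_contra hne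
    push Not at hne
    have e1 : Even ((range N).filter fun x => k < Z u x).card := by
      refine even_card_of_invol _ M ?_ (fun x hx => (hM x (mem_range.1 (mem_filter.1 hx).1)).2) ?_
      · intro x hx
        obtain ⟨hx1, hx2⟩ := mem_filter.1 hx
        have hxu : u ≠ x := by rintro rfl; rw [hd.diag] at hx2; omega
        have h1 := hg.2 u x trivial trivial hxu
        refine mem_filter.2 ⟨mem_range.2 (hM x (mem_range.1 hx1)).1, ?_⟩
        have h2 : u ≠ M x := by
          intro h
          have h3 : M u = x := by rw [h]; exact (hM x (mem_range.1 hx1)).2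
          rw [h3] at hu2
          omega
        have := hd.ultra u x (M x) h2
        omega
      · intro x hx hfix
        obtain ⟨hx1, hx2⟩ := mem_filter.1 hx
        have hxu : u ≠ x := by rintro rfl; rw [hd.diag] at hx2; omega
        have h1 := hg.2 u x trivial trivial hxu
        rw [hfix, hd.diag] at h1
        omega
    have hbig : ∀ x, x < N → (x = u ∨ k < Z u x) → k < Z x (m x) := by
      intro x hx h
      by_contra hc
      have := hne x (mem_filter.2 ⟨mem_range.2 hx, by omega⟩)
      omega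
    have e2 : Even (insert u ((range N).filter fun x => k < Z u x)).card := by
      have hmem : ∀ x ∈ insert u ((range N).filter fun x => k < Z u x),
          x < N ∧ (x = u ∨ k < Z u x) := by
        intro x hx
        rcases mem_insert.1 hx with rfl | hx
        · exact ⟨mem_range.1 hu1, Or.inl rfl⟩
        · exact ⟨mem_range.1 (mem_filter.1 hx).1, Or.inr (mem_filter.1 hx).2⟩
      refine even_card_of_invol _ m ?_ (fun x hx => (hm x (hmem x hx).1).2) ?_
      · intro x hx
        obtain ⟨hx1, hx2⟩ := hmem x hx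
        have h1 := hbig x hx1 hx2
        by_cases h2 : u = m x
        · rw [← h2]; exact mem_insert_self _ _
        refine mem_insert_of_mem (mem_filter.2 ⟨mem_range.2 (hm x hx1).1, ?_⟩)
        rcases hx2 with rfl | hx2
        · exact h1
        · have := hd.ultra u x (m x) h2
          omega
      · intro x hx hfix
        obtain ⟨hx1, hx2⟩ := hmem x hx
        have h1 := hbig x hx1 hx2
        rw [hfix, hd.diag] at h1
        omega
    rw [card_insert_of_notMem (by simp [hd.diag]), Nat.even_add_one] at e2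
    exact e2 e1
  choose! f hf1 hf2 using key
  refine card_le_card_of_injOn f (fun u hu => hf1 u hu) ?_
  intro u hu u' hu' he
  by_contra hne
  have hu0 := (mem_filter.1 (mem_coe.1 hu)).2
  have hu0' := (mem_filter.1 (mem_coe.1 hu')).2
  have h1 := hg.2 u u' trivial trivial hne
  have h2 := hd.ultra u (f u) u' hne
  have h3 := hd.symm (f u) u'
  have h4 := hd.symm u u'
  rcases hf2 u hu with h5 | h5 <;> rcases hf2 u' hu' with h6 | h6
  · exact hne (by rw [← h5, he, h6])
  · rw [← he, h5] at h6; omega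
  · rw [he, h6] at h5; omega
  · rw [← he] at h6; omega

theorem sum_Z_le {w : ℕ → ℕ → ℕ} {y : ℕ → ℕ} {Z : ℕ → ℕ → ℕ} (hd : Dual w y Z) {N : ℕ}
    {M m : ℕ → ℕ} (hM : IsMate N M) (hm : IsMate N m) (hg : GoodOn w y Z (fun _ => True) M) :
    ∑ u ∈ range N, Z u (m u) ≤ ∑ u ∈ range N, Z u (M u) := by
  set K := ∑ u ∈ range N, Z u (m u) + ∑ u ∈ range N, Z u (M u) with hK
  have layer : ∀ g : ℕ → ℕ, (∀ u ∈ range N, g u ≤ K) → ∑ u ∈ range N, g u +
      ∑ k ∈ range K, ((range N).filter fun u => g u ≤ k).card = N * K := by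
    intro g hg
    simp only [card_filter]
    rw [sum_comm, ← sum_add_distrib]
    have : ∀ u ∈ range N, g u + ∑ k ∈ range K, (if g u ≤ k then 1 else 0) = K := by
      intro u hu
      have h1 := hg u hu
      rw [← card_filter]
      have : (range K).filter (fun k => g u ≤ k) = Ico (g u) K := by
        ext k; simp; omega
      rw [this, Nat.card_Ico]
      omega
    rw [sum_congr rfl this]
    simp
  have h1 := layer (fun u => Z u (m u)) fun u hu =>
    (single_le_sum (f := fun u => Z u (m u)) (fun _ _ => Nat.zero_le _) hu).trans (by omega)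
  have h2 := layer (fun u => Z u (M u)) fun u hu =>
    (single_le_sum (f := fun u => Z u (M u)) (fun _ _ => Nat.zero_le _) hu).trans (by omega)
  have h3 := sum_le_sum (s := range K) fun k _ => level_card hd hM hm hg k
  omega

theorem sum_mate {N : ℕ} {m : ℕ → ℕ} (hm : IsMate N m) (y : ℕ → ℕ) :
    ∑ u ∈ range N, y (m u) = ∑ u ∈ range N, y u :=
  sum_nbij' m m (fun u hu => mem_range.2 (hm u (mem_range.1 hu)).1)
    (fun u hu => mem_range.2 (hm u (mem_range.1 hu)).1) (fun u hu => (hm u (mem_range.1 hu)).2)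
    (fun u hu => (hm u (mem_range.1 hu)).2) (fun _ _ => rfl)

/-- Complementary slackness gives optimality. -/
theorem optimal {W : List (List ℕ)} {y : ℕ → ℕ} {Z : ℕ → ℕ → ℕ} (hd : Dual (wt W) y Z) {N : ℕ}
    {M m : ℕ → ℕ} (hM : IsMate N M) (hm : IsMate N m) (hg : GoodOn (wt W) y Z (fun _ => True) M)
    (h0 : ∀ u < N, M u = u → y u = 0) : mateWt N W m ≤ mateWt N W M := by
  have h1 : 2 * mateWt N W m ≤ ∑ u ∈ range N, (y u + y (m u) + 2 * Z u (m u)) := by
    unfold mateWt
    rw [mul_sum]
    refine sum_le_sum fun u _ => ?_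
    split_ifs with h
    · omega
    · exact hd.feas u (m u) (Ne.symm h)
  have h2 : 2 * mateWt N W M = ∑ u ∈ range N, (y u + y (M u) + 2 * Z u (M u)) := by
    unfold mateWt
    rw [mul_sum]
    refine sum_congr rfl fun u hu => ?_
    split_ifs with h
    · rw [h, hd.diag, h0 u (mem_range.1 hu) h]; rfl
    · exact (hg.1 u trivial h).symm
  rw [sum_add_distrib, sum_add_distrib, ← mul_sum, sum_mate hm] at h1
  rw [sum_add_distrib, sum_add_distrib, ← mul_sum, sum_mate hM] at h2
  have h3 := sum_Z_le hd hM hm hg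
  omega

end Pool.Agent.Shared.Matching.Alg
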