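import Mathlib
import Pool.Agent.Shared.Matching.Dual

/-!
State and invariants of the primal-dual matching algorithm (one alternating tree at a time,
with an explicit table of matchings instead of paths).
-/

set_option autoImplicit false

namespace Pool.Agent.Shared.Matching.Alg

open Finset Function

/-- `u` and `v` lie in the same maximal blossom. -/
def sm (Z : ℕ → ℕ → ℕ) (u v : ℕ) : Bool := (u == v) || Nat.ble 1 (Z u v)

theorem sm_iff {Z : ℕ → ℕ → ℕ} {u v : ℕ} : sm Z u v = true ↔ u = v ∨ 1 ≤ Z u v := by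
  simp [sm]

theorem sm_refl (Z : ℕ → ℕ → ℕ) (u : ℕ) : sm Z u u = true := sm_iff.2 (Or.inl rfl)

section
variable {w : ℕ → ℕ → ℕ} {y : ℕ → ℕ} {Z : ℕ → ℕ → ℕ}

theorem Dual.sm_symm (hd : Dual w y Z) {u v : ℕ} (h : sm Z u v = true) : sm Z v u = true := by
  rw [sm_iff] at h ⊢
  rw [hd.symm v u]
  omega

theorem Dual.sm_trans (hd : Dual w y Z) {u v x : ℕ} (h : sm Z u v = true) (h' : sm Z v x = true) :
    sm Z u x = true := by
  rw [sm_iff] at h h' ⊢
  by_cases hux : u = x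
  · exact Or.inl hux
  have := hd.ultra u v x hux
  rcases h with rfl | h
  · exact h'
  rcases h' with rfl | h'
  · exact Or.inr h
  omega

theorem Dual.sm_par (hd : Dual w y Z) {u v : ℕ} (h : sm Z u v = true) : y u % 2 = y v % 2 := by
  rcases sm_iff.1 h with rfl | h
  · rfl
  · exact hd.par u v h

theorem Tight.par {u v : ℕ} (h : Tight w y Z u v) : y u % 2 = y v % 2 := by
  unfold Tight at h
  omega

theorem GoodOn.mono {A A' : ℕ → Prop} {m : ℕ → ℕ} (h : GoodOn w y Z A m) (hA : ∀ x, A' x → A x) :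
    GoodOn w y Z A' m :=
  ⟨fun x hx => h.1 x (hA x hx), fun x x' hx hx' => h.2 x x' (hA x hx) (hA x' hx')⟩

/-- If `b` is not matched inside its blossom, then all other vertices of the blossom are. -/
theorem GoodOn.inside (hd : Dual w y Z) {A : ℕ → Prop} {m : ℕ → ℕ} (h : GoodOn w y Z A m)
    {b x : ℕ} (hb : A b) (hx : A x) (h0 : Z b (m b) = 0) (hs : sm Z b x = true) (hne : x ≠ b) :
    1 ≤ Z x (m x) := by
  have h1 := h.2 x b hx hb hne
  have h2 := hd.symm x b
  rcases sm_iff.1 hs with h3 | h3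
  · exact absurd h3.symm hne
  · omega

end

/-- Three matchings glued along the sets `A`, `B` and the rest. -/
def p3 (A B : ℕ → Bool) (m1 m2 m3 : ℕ → ℕ) (x : ℕ) : ℕ :=
  cond (A x) (m1 x) (cond (B x) (m2 x) (m3 x))

/-- Add the edge `p q`. -/
def link (m : ℕ → ℕ) (p q x : ℕ) : ℕ := cond (x == p) q (cond (x == q) p (m x))

theorem p3_A {A B : ℕ → Bool} {m1 m2 m3 : ℕ → ℕ} {x : ℕ} (h : A x = true) :
    p3 A B m1 m2 m3 x = m1 x := by simp [p3, h]

theorem p3_B {A B : ℕ → Bool} {m1 m2 m3 : ℕ → ℕ} {x : ℕ} (h : ¬ A x = true) (h' : B x = true) :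
    p3 A B m1 m2 m3 x = m2 x := by simp [p3, h, h']

theorem p3_C {A B : ℕ → Bool} {m1 m2 m3 : ℕ → ℕ} {x : ℕ} (h : ¬ A x = true)
    (h' : ¬ B x = true) : p3 A B m1 m2 m3 x = m3 x := by simp [p3, h, h']

theorem link_p (m : ℕ → ℕ) (p q : ℕ) : link m p q p = q := by simp [link]

theorem link_q (m : ℕ → ℕ) (p q : ℕ) : link m p q q = p := by
  by_cases h : q = p
  · simp [link, h]
  · simp [link, beq_false_of_ne h]

theorem link_other (m : ℕ → ℕ) {p q x : ℕ} (h : x ≠ p) (h' : x ≠ q) : link m p q x = m x := by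
  simp [link, beq_false_of_ne h, beq_false_of_ne h']

theorem link_comm (m : ℕ → ℕ) (p q : ℕ) : link m p q = link m q p := by
  funext x
  by_cases h : x = p
  · rw [h, link_p, link_q]
  by_cases h' : x = q
  · rw [h', link_p, link_q]
  rw [link_other m h h', link_other m h' h]

theorem p3_inv {A B : ℕ → Bool} {m1 m2 m3 : ℕ → ℕ} (h1 : Involutive m1) (h2 : Involutive m2)
    (h3 : Involutive m3) (c1 : ∀ x, A x = true → A (m1 x) = true)
    (c2 : ∀ x, B x = true → B (m2 x) = true) (dis : ∀ x, B x = true → ¬ A x = true)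
    (c3 : ∀ x, A x = true ∨ B x = true → A (m3 x) = true ∨ B (m3 x) = true) :
    Involutive (p3 A B m1 m2 m3) := by
  intro x
  by_cases hA : A x = true
  · rw [p3_A hA, p3_A (c1 x hA), h1]
  by_cases hB : B x = true
  · rw [p3_B hA hB, p3_B (dis _ (c2 x hB)) (c2 x hB), h2]
  have h : ¬ (A (m3 x) = true ∨ B (m3 x) = true) := fun h => by
    have := c3 _ h
    rw [h3] at this
    tauto
  rw [p3_C hA hB, p3_C (fun h' => h (Or.inl h')) (fun h' => h (Or.inr h')), h3]

theorem p3_good {w : ℕ → ℕ → ℕ} {y : ℕ → ℕ} {Z : ℕ → ℕ → ℕ} (hd : Dual w y Z)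
    {A B : ℕ → Bool} {m1 m2 m3 : ℕ → ℕ}
    (cA : ∀ x x', A x = true → sm Z x x' = true → A x' = true)
    (cB : ∀ x x', B x = true → sm Z x x' = true → B x' = true)
    (g1 : GoodOn w y Z (fun x => A x = true) m1) (g2 : GoodOn w y Z (fun x => B x = true) m2)
    (g3 : GoodOn w y Z (fun _ => True) m3) : GoodOn w y Z (fun _ => True) (p3 A B m1 m2 m3) := by
  constructor
  · intro x _
    by_cases hA : A x = true
    · rw [p3_A hA]; exact g1.1 x hA
    by_cases hB : B x = true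
    · rw [p3_B hA hB]; exact g2.1 x hB
    rw [p3_C hA hB]; exact g3.1 x trivial
  · intro x x' _ _ hne
    rcases Nat.eq_zero_or_pos (Z x x') with h0 | h0
    · omega
    have hs : sm Z x x' = true := sm_iff.2 (Or.inr h0)
    have hs' := hd.sm_symm hs
    by_cases hA : A x = true
    · rw [p3_A hA, p3_A (cA _ _ hA hs)]; exact g1.2 x x' hA (cA _ _ hA hs) hne
    have hA' : ¬ A x' = true := fun h => hA (cA _ _ h hs')
    by_cases hB : B x = true
    · rw [p3_B hA hB, p3_B hA' (cB _ _ hB hs)]; exact g2.2 x x' hB (cB _ _ hB hs) hne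
    have hB' : ¬ B x' = true := fun h => hB (cB _ _ h hs')
    rw [p3_C hA hB, p3_C hA' hB']; exact g3.2 x x' trivial trivial hne

theorem link_inv {m : ℕ → ℕ} (h : Involutive m) {p q : ℕ} (hp : m p = p) (hq : m q = q) :
    Involutive (link m p q) := by
  intro x
  by_cases h1 : x = p
  · rw [h1, link_p, link_q]
  by_cases h2 : x = q
  · rw [h2, link_q, link_p]
  have h3 : m x ≠ p := fun e => h1 (by rw [← h x, e, hp])
  have h4 : m x ≠ q := fun e => h2 (by rw [← h x, e, hq])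
  rw [link_other m h1 h2, link_other m h3 h4, h]

theorem link_good {w : ℕ → ℕ → ℕ} {y : ℕ → ℕ} {Z : ℕ → ℕ → ℕ} (hd : Dual w y Z)
    (hw : ∀ u v, w u v = w v u) {m : ℕ → ℕ} (g : GoodOn w y Z (fun _ => True) m) {p q : ℕ}
    (hp : m p = p) (hq : m q = q) (ht : Tight w y Z p q) :
    GoodOn w y Z (fun _ => True) (link m p q) := by
  have hle : ∀ x, Z x (m x) ≤ Z x (link m p q x) := by
    intro x
    by_cases h1 : x = p
    · rw [h1, hp, hd.diag]; omega
    by_cases h2 : x = q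
    · rw [h2, hq, hd.diag]; omega
    rw [link_other m h1 h2]
  constructor
  · intro x _
    by_cases h1 : x = p
    · rw [h1, link_p]; exact fun _ => ht
    by_cases h2 : x = q
    · rw [h2, link_q]
      intro _
      unfold Tight at ht ⊢
      rw [hd.symm q p, hw q p]
      omega
    rw [link_other m h1 h2]
    exact g.1 x trivial
  · intro x x' _ _ hne
    have h1 := g.2 x x' trivial trivial hne
    have h2 := hle x
    have h3 := hle x'
    omega

/-- State: duals `y`, `Z`; matching `M`; table `T` of matchings (`T v` misses `v`); labels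
(0 unlabelled, 1 outer, 2 inner); `S a` is the subtree below the inner vertex `a`; root `r`. -/
structure St where
  y : ℕ → ℕ
  Z : ℕ → ℕ → ℕ
  M : ℕ → ℕ
  T : ℕ → ℕ → ℕ
  lab : ℕ → ℕ
  S : ℕ → ℕ → Bool
  r : ℕ

/-- Sum of the duals of the unmatched vertices. -/
def Phi (N : ℕ) (y M : ℕ → ℕ) : ℕ := ∑ x ∈ range N, if M x = x then y x else 0

/-- Invariants that hold at all times. -/
structure Base (N B : ℕ) (w : ℕ → ℕ → ℕ) (s : St) : Prop where
  dual : Dual w s.y s.Z
  Minv : Involutive s.M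
  Mgood : GoodOn w s.y s.Z (fun _ => True) s.M
  Tinv : ∀ v, Involutive (s.T v)
  Tfix : ∀ v, s.T v v = v
  Tgood : ∀ v, GoodOn w s.y s.Z (fun x => sm s.Z v x = true) (s.T v)
  suppy : ∀ x, N ≤ x → s.y x = 0
  suppZ : ∀ u v, N ≤ u → s.Z u v = 0
  suppM : ∀ x, N ≤ x → s.M x = x
  suppT1 : ∀ v x, N ≤ v → s.T v x = x
  suppT2 : ∀ v x, N ≤ x → s.T v x = x
  supplab : ∀ x, N ≤ x → s.lab x = 0
  suppS1 : ∀ a x, N ≤ a → s.S a x = false
  suppS2 : ∀ a x, N ≤ x → s.S a x = false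
  lab2 : ∀ x, s.lab x ≤ 2
  rle : s.r ≤ N
  bdy : ∀ x, s.y x + Phi N s.y s.M ≤ B
  bdZ : ∀ u v, s.Z u v + Phi N s.y s.M ≤ B

/-- The subtree below `a` together with the blossom of `a`. -/
def St.P (s : St) (a x : ℕ) : Prop := s.S a x = true ∨ sm s.Z a x = true

/-- Invariants of the alternating tree. -/
structure Srch (w : ℕ → ℕ → ℕ) (s : St) : Prop where
  labr : s.lab s.r = 1
  Tr : s.T s.r = s.M
  yr : 1 ≤ s.y s.r
  labcl : ∀ u v, sm s.Z u v = true → s.lab u = s.lab v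
  Scl : ∀ a x x', s.lab a = 2 → s.S a x = true → sm s.Z x x' = true → s.S a x' = true
  Slab : ∀ a x, s.lab a = 2 → s.S a x = true → s.lab x ≠ 0
  Sirr : ∀ a, s.lab a = 2 → ¬ s.S a a = true
  Sr : ∀ a, s.lab a = 2 → ¬ s.S a s.r = true
  Sat : ∀ a a', s.lab a = 2 → sm s.Z a a' = true → s.S a = s.S a'
  Ogood : ∀ v, s.lab v = 1 → GoodOn w s.y s.Z (fun _ => True) (s.T v)
  Ofix : ∀ v x, s.lab v = 1 → s.lab x ≠ 0 → s.T v x = x → x = v
  Ooff : ∀ v x, s.lab v = 1 → s.lab x = 0 → s.T v x = s.M x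
  Mtree : ∀ x, s.lab x = 0 → s.lab (s.M x) = 0
  Oin : ∀ v a x, s.lab v = 1 → s.lab a = 2 → s.S a v = true → s.S a x = true →
    s.S a (s.T v x) = true
  Oout : ∀ v a x, s.lab v = 1 → s.lab a = 2 → ¬ s.S a v = true → s.P a x → s.P a (s.T v x)
  lam : ∀ a a', s.lab a = 2 → s.lab a' = 2 → ¬ sm s.Z a a' = true →
    (∀ x, s.P a x → s.S a' x = true) ∨ (∀ x, s.P a' x → s.S a x = true) ∨
      (∀ x, s.P a x → ¬ s.P a' x)
  par : ∀ x, s.lab x ≠ 0 → s.y x % 2 = s.y s.r % 2

section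
variable {N B : ℕ} {w : ℕ → ℕ → ℕ} {s : St}

theorem Base.Tins (h : Base N B w s) {v x : ℕ} (hs : sm s.Z v x = true) (hne : x ≠ v) :
    1 ≤ s.Z x (s.T v x) :=
  (h.Tgood v).inside h.dual (sm_refl _ _) hs (by rw [h.Tfix, h.dual.diag]) hs hne

theorem Base.Tcl (h : Base N B w s) {v x : ℕ} (hs : sm s.Z v x = true) :
    sm s.Z v (s.T v x) = true := by
  by_cases hne : x = v
  · rw [hne, h.Tfix]; exact sm_refl _ _
  exact h.dual.sm_trans hs (sm_iff.2 (Or.inr (h.Tins hs hne)))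

theorem Base.Tne (h : Base N B w s) {v x : ℕ} (hs : sm s.Z v x = true) (hne : x ≠ v) :
    s.T v x ≠ x := by
  intro e
  have := h.Tins hs hne
  rw [e, h.dual.diag] at this
  omega

theorem Base.sm_lt (h : Base N B w s) {v x : ℕ} (hv : v < N) (hs : sm s.Z v x = true) : x < N := by
  by_contra hx
  rcases sm_iff.1 hs with h1 | h1
  · omega
  · rw [h.dual.symm, h.suppZ x v (by omega)] at h1
    omega

theorem Base.lab_lt (h : Base N B w s) {x : ℕ} (hx : s.lab x ≠ 0) : x < N := by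
  by_contra hc
  exact hx (h.supplab x (by omega))

theorem Base.M_lt (h : Base N B w s) {x : ℕ} (hx : x < N) : s.M x < N := by
  by_contra hc
  have h1 := h.suppM (s.M x) (by omega)
  rw [h.Minv] at h1
  omega

theorem Base.T_lt (h : Base N B w s) (v : ℕ) {x : ℕ} (hx : x < N) : s.T v x < N := by
  by_contra hc
  have h1 := h.suppT2 v (s.T v x) (by omega)
  rw [h.Tinv] at h1
  omega

theorem Srch.Mr (h : Base N B w s) (hs : Srch w s) : s.M s.r = s.r := by
  rw [← hs.Tr, h.Tfix]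

theorem Srch.Otree (h : Base N B w s) (hs : Srch w s) {v x : ℕ} (hv : s.lab v = 1)
    (hx : s.lab x ≠ 0) : s.lab (s.T v x) ≠ 0 := by
  intro h0
  have h1 := hs.Ooff v _ hv h0
  have h2 := hs.Mtree _ h0
  rw [← h1, h.Tinv] at h2
  exact hx h2

theorem Srch.Plab (hs : Srch w s) {a x : ℕ} (ha : s.lab a = 2) (hx : s.P a x) : s.lab x ≠ 0 := by
  rcases hx with hx | hx
  · exact hs.Slab a x ha hx
  · rw [← hs.labcl _ _ hx, ha]; omega

theorem Srch.Sdis (h : Base N B w s) (hs : Srch w s) {a x : ℕ} (ha : s.lab a = 2)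
    (hx : s.S a x = true) : ¬ sm s.Z a x = true :=
  fun hc => hs.Sirr a ha (hs.Scl a x a ha hx (h.dual.sm_symm hc))

theorem Srch.P_outer (hs : Srch w s) {a x : ℕ} (ha : s.lab a = 2) (hx : s.lab x = 1)
    (hp : s.P a x) : s.S a x = true := by
  rcases hp with hp | hp
  · exact hp
  · have := hs.labcl _ _ hp
    omega

end

end Pool.Agent.Shared.Matching.Alg
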