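import Mathlib
import Pool.Agent.Shared.Matching.State

/-!
The primal operations of the matching algorithm preserve the invariants.
-/

set_option autoImplicit false

namespace Pool.Agent.Shared.Matching.Alg

open Finset Function

variable {N B : ℕ} {w : ℕ → ℕ → ℕ} {s : St}

/-- Replace the matching and forget the tree. -/
def St.fin (s : St) (M' : ℕ → ℕ) : St := { s with M := M', lab := fun _ => 0 }

theorem fin_base (h : Base N B w s) {M' : ℕ → ℕ} (h1 : Involutive M')
    (h2 : GoodOn w s.y s.Z (fun _ => True) M') (h3 : ∀ x, N ≤ x → M' x = x)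
    (h4 : Phi N s.y M' ≤ Phi N s.y s.M) : Base N B w (s.fin M') :=
  { h with
    Minv := h1
    Mgood := h2
    suppM := h3
    supplab := fun _ _ => rfl
    lab2 := fun _ => Nat.zero_le _
    bdy := fun x => le_trans (Nat.add_le_add_left h4 _) (h.bdy x)
    bdZ := fun u v => le_trans (Nat.add_le_add_left h4 _) (h.bdZ u v) }

theorem phi_lt {y y' M M' : ℕ → ℕ} {r : ℕ}
    (h1 : ∀ x, M' x = x → (M x = x ∧ y' x ≤ y x) ∨ y' x = 0) (h2 : M' r = r → y' r < y r)
    (h3 : M r = r) (h4 : 1 ≤ y r) (h5 : r < N) : Phi N y' M' < Phi N y M := by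
  refine sum_lt_sum (fun x _ => ?_) ⟨r, mem_range.2 h5, ?_⟩
  · by_cases e : M' x = x
    · rcases h1 x e with h | h
      · rw [if_pos e, if_pos h.1]; exact h.2
      · rw [if_pos e, h]; omega
    · rw [if_neg e]; omega
  · rw [if_pos h3]
    by_cases e : M' r = r
    · rw [if_pos e]; exact h2 e
    · rw [if_neg e]; omega

theorem improve (h : Base N B w s) (hs : Srch w s) {u : ℕ} (hu : s.lab u = 1) (h0 : s.y u = 0) :
    Base N B w (s.fin (s.T u)) ∧ Phi N s.y (s.T u) < Phi N s.y s.M := by
  have hlt : Phi N s.y (s.T u) < Phi N s.y s.M := by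
    have hr := hs.labr
    have hy := hs.yr
    refine phi_lt (r := s.r) (fun x e => ?_) (fun e => ?_) (hs.Mr h) hs.yr (h.lab_lt (by omega))
    · by_cases hx : s.lab x = 0
      · rw [hs.Ooff u x hu hx] at e; exact Or.inl ⟨e, le_rfl⟩
      · rw [hs.Ofix u x hu hx e]; exact Or.inr h0
    · have := hs.Ofix u _ hu (by omega) e
      rw [this] at hy
      omega
  exact ⟨fin_base h (h.Tinv u) (hs.Ogood u hu) (h.suppT2 u) hlt.le, hlt⟩

/-- The matching after an augmentation along the edge `u v`. -/
def St.augM (s : St) (u v : ℕ) : ℕ → ℕ :=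
  link (p3 (sm s.Z v) (fun _ => false) (s.T v) (s.T u) (s.T u)) u v

theorem augment (hw : ∀ u v, w u v = w v u) (h : Base N B w s) (hs : Srch w s) {u v : ℕ}
    (hu : s.lab u = 1) (hv : s.lab v = 0) (hvN : v < N) (ht : Tight w s.y s.Z u v)
    (hcl : ∀ x, sm s.Z v x = true → sm s.Z v (s.M x) = true) :
    Base N B w (s.fin (s.augM u v)) ∧ Phi N s.y (s.augM u v) < Phi N s.y s.M := by
  have hlab : ∀ x, sm s.Z v x = true → s.lab x = 0 := fun x hx => by
    rw [← hs.labcl _ _ hx, hv]
  have hnu : ¬ sm s.Z v u = true := fun hc => by have := hlab u hc; omega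
  have huv : u ≠ v := by rintro rfl; omega
  have hmu : p3 (sm s.Z v) (fun _ => false) (s.T v) (s.T u) (s.T u) u = u := by
    rw [p3_C hnu (by simp), h.Tfix]
  have hmv : p3 (sm s.Z v) (fun _ => false) (s.T v) (s.T u) (s.T u) v = v := by
    rw [p3_A (sm_refl _ _), h.Tfix]
  have hfix : ∀ x, s.augM u v x = x → s.lab x = 0 ∧ s.M x = x := by
    intro x e
    unfold St.augM at e
    by_cases h1 : x = u
    · rw [h1, link_p] at e; exact absurd e.symm huv
    by_cases h2 : x = v
    · rw [h2, link_q] at e; exact absurd e huv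
    rw [link_other _ h1 h2] at e
    by_cases h3 : sm s.Z v x = true
    · rw [p3_A h3] at e; exact absurd e (h.Tne h3 h2)
    rw [p3_C h3 (by simp)] at e
    by_cases hx : s.lab x = 0
    · rw [hs.Ooff u x hu hx] at e; exact ⟨hx, e⟩
    · exact absurd (hs.Ofix u x hu hx e) h1
  have hr := hs.labr
  have hlt : Phi N s.y (s.augM u v) < Phi N s.y s.M :=
    phi_lt (r := s.r) (fun x e => Or.inl ⟨(hfix x e).2, le_rfl⟩)
      (fun e => by have := (hfix _ e).1; omega) (hs.Mr h) hs.yr (h.lab_lt (by omega))
  refine ⟨fin_base h (link_inv ?_ hmu hmv) (link_good h.dual hw ?_ hmu hmv ht) ?_ hlt.le, hlt⟩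
  · refine p3_inv (h.Tinv v) (h.Tinv u) (h.Tinv u) (fun x hx => h.Tcl hx) (by simp) (by simp) ?_
    intro x hx
    have hx' : sm s.Z v x = true := by simpa using hx
    rw [hs.Ooff u x hu (hlab x hx')]
    exact Or.inl (hcl x hx')
  · exact p3_good h.dual (fun x x' => h.dual.sm_trans) (by simp) (h.Tgood v)
      ((hs.Ogood u hu).mono (by simp)) (hs.Ogood u hu)
  · intro x hx
    have huN := h.lab_lt (x := u) (by omega)
    unfold St.augM
    rw [link_other _ (by omega) (by omega),
      p3_C (fun hc => by have := h.sm_lt hvN hc; omega) (by simp), h.suppT2 u x hx]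

theorem upd_base (h : Base N B w s) {T' : ℕ → ℕ → ℕ} {lab' : ℕ → ℕ} {S' : ℕ → ℕ → Bool} {r' : ℕ}
    (hT : ∀ v, T' v = s.T v ∨ (v < N ∧ Involutive (T' v) ∧ T' v v = v ∧
      GoodOn w s.y s.Z (fun _ => True) (T' v) ∧ ∀ x, N ≤ x → T' v x = x))
    (h1 : ∀ x, N ≤ x → lab' x = 0) (h2 : ∀ a x, N ≤ a → S' a x = false)
    (h3 : ∀ a x, N ≤ x → S' a x = false) (h4 : ∀ x, lab' x ≤ 2) (h5 : r' ≤ N) :
    Base N B w { s with T := T', lab := lab', S := S', r := r' } :=
  { h with
    Tinv := fun v => by
      rcases hT v with e | e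
      · change Involutive (T' v); rw [e]; exact h.Tinv v
      · exact e.2.1
    Tfix := fun v => by
      rcases hT v with e | e
      · change T' v v = v; rw [e]; exact h.Tfix v
      · exact e.2.2.1
    Tgood := fun v => by
      rcases hT v with e | e
      · change GoodOn _ _ _ _ (T' v); rw [e]; exact h.Tgood v
      · exact e.2.2.2.1.mono fun _ _ => trivial
    suppT1 := fun v x hv => by
      rcases hT v with e | e
      · change T' v x = x; rw [e]; exact h.suppT1 v x hv
      · omega
    suppT2 := fun v x hx => by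
      rcases hT v with e | e
      · change T' v x = x; rw [e]; exact h.suppT2 v x hx
      · exact e.2.2.2.2 x hx
    supplab := h1
    suppS1 := h2
    suppS2 := h3
    lab2 := h4
    rle := h5 }

/-- Start a new tree at the unmatched vertex `r`. -/
def St.init (s : St) (r : ℕ) : St :=
  { s with
    T := fun x t => cond (sm s.Z r x)
      (cond (x == r) (s.M t) (p3 (sm s.Z r) (fun _ => false) (s.T x) s.M s.M t)) (s.T x t)
    lab := fun x => cond (sm s.Z r x) 1 0
    S := fun _ _ => false
    r := r }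

theorem init_ok (h : Base N B w s) {r : ℕ} (hr : r < N) (hM : s.M r = r) (hy : 1 ≤ s.y r) :
    Base N B w (s.init r) ∧ Srch w (s.init r) := by
  have hd := h.dual
  have hins : ∀ x, sm s.Z r x = true → x ≠ r → 1 ≤ s.Z x (s.M x) := fun x hx hne =>
    h.Mgood.inside hd trivial trivial (by rw [hM, hd.diag]) hx hne
  have hcl : ∀ x, sm s.Z r x = true → sm s.Z r (s.M x) = true := by
    intro x hx
    by_cases hne : x = r
    · rw [hne, hM]; exact sm_refl _ _
    exact hd.sm_trans hx (sm_iff.2 (Or.inr (hins x hx hne)))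
  have hlab : ∀ x, (s.init r).lab x = if sm s.Z r x = true then 1 else 0 := by
    intro x; simp [St.init]
  have hTr : (s.init r).T r = s.M := by funext t; simp [St.init, sm_refl]
  have hT1 : ∀ x, sm s.Z r x = true → x ≠ r →
      (s.init r).T x = p3 (sm s.Z r) (fun _ => false) (s.T x) s.M s.M := by
    intro x hx hne; funext t; simp [St.init, hx, beq_false_of_ne hne]
  have hT0 : ∀ x, ¬ sm s.Z r x = true → (s.init r).T x = s.T x := by
    intro x hx; funext t; simp [St.init, hx]
  have key : ∀ v, sm s.Z r v = true → Involutive ((s.init r).T v) ∧ (s.init r).T v v = v ∧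
      GoodOn w s.y s.Z (fun _ => True) ((s.init r).T v) ∧
      (∀ x, ¬ sm s.Z r x = true → (s.init r).T v x = s.M x) ∧
      ∀ x, sm s.Z r x = true → (s.init r).T v x = x → x = v := by
    intro v hv
    by_cases hne : v = r
    · rw [hne, hTr]
      refine ⟨h.Minv, hM, h.Mgood, fun _ _ => rfl, fun x hx e => ?_⟩
      by_contra hc
      have := hins x hx hc
      rw [e, hd.diag] at this
      omega
    rw [hT1 v hv hne]
    refine ⟨p3_inv (h.Tinv v) h.Minv h.Minv (fun x hx => ?_) (by simp) (by simp) ?_, ?_, ?_, ?_, ?_⟩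
    · exact hd.sm_trans hv (h.Tcl (hd.sm_trans (hd.sm_symm hv) hx))
    · intro x hx
      exact Or.inl (hcl x (by simpa using hx))
    · rw [p3_A hv, h.Tfix]
    · exact p3_good hd (fun x x' => hd.sm_trans) (by simp)
        ((h.Tgood v).mono fun x hx => hd.sm_trans (hd.sm_symm hv) hx)
        (h.Mgood.mono (by simp)) h.Mgood
    · intro x hx; rw [p3_C hx (by simp)]
    · intro x hx e
      rw [p3_A hx] at e
      by_contra hc
      exact h.Tne (hd.sm_trans (hd.sm_symm hv) hx) hc e
  have l1 : ∀ x, (s.init r).lab x = 1 → sm s.Z r x = true := by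
    intro x hx; rw [hlab] at hx; split_ifs at hx with h1; exact h1
  have l0 : ∀ x, (s.init r).lab x = 0 → ¬ sm s.Z r x = true := by
    intro x hx; rw [hlab] at hx; split_ifs at hx with h1; exact h1
  have ln0 : ∀ x, (s.init r).lab x ≠ 0 → sm s.Z r x = true := by
    intro x hx; rw [hlab] at hx; split_ifs at hx with h1
    · exact h1
    · exact absurd rfl hx
  have l2 : ∀ x, (s.init r).lab x ≠ 2 := by
    intro x; rw [hlab]; split_ifs <;> omega
  constructor
  · refine upd_base h (T' := (s.init r).T) (lab' := (s.init r).lab) (fun v => ?_) (fun x hx => ?_)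
      (fun _ _ _ => rfl) (fun _ _ _ => rfl) (fun x => ?_) hr.le
    · by_cases hv : sm s.Z r v = true
      · obtain ⟨k1, k2, k3, k4, -⟩ := key v hv
        refine Or.inr ⟨h.sm_lt hr hv, k1, k2, k3, fun x hx => ?_⟩
        rw [k4 x (fun hc => by have := h.sm_lt hr hc; omega), h.suppM x hx]
      · exact Or.inl (hT0 v hv)
    · rw [hlab, if_neg (fun hc => by have := h.sm_lt hr hc; omega)]
    · rw [hlab]; split_ifs <;> omega
  · refine
      { labr := by rw [hlab]; exact if_pos (sm_refl _ _)
        Tr := hTr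
        yr := hy
        labcl := fun u v huv => ?_
        Scl := fun a _ _ ha => absurd ha (l2 a)
        Slab := fun a _ ha => absurd ha (l2 a)
        Sirr := fun a ha => absurd ha (l2 a)
        Sr := fun a ha => absurd ha (l2 a)
        Sat := fun a _ ha => absurd ha (l2 a)
        Ogood := fun v hv => (key v (l1 v hv)).2.2.1
        Ofix := fun v x hv hx => (key v (l1 v hv)).2.2.2.2 x (ln0 x hx)
        Ooff := fun v x hv hx => (key v (l1 v hv)).2.2.2.1 x (l0 x hx)
        Mtree := fun x hx => ?_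
        Oin := fun _ a _ _ ha => absurd ha (l2 a)
        Oout := fun _ a _ _ ha => absurd ha (l2 a)
        lam := fun a _ ha => absurd ha (l2 a)
        par := fun x hx => (hd.sm_par (ln0 x hx)).symm }
    · rw [hlab, hlab]
      by_cases hu : sm s.Z r u = true
      · rw [if_pos hu, if_pos (hd.sm_trans hu huv)]
      · rw [if_neg hu, if_neg (fun hc => hu (hd.sm_trans hc (hd.sm_symm huv)))]
    · rw [hlab, if_neg]
      intro hc
      have := hcl _ hc
      change sm s.Z r (s.M (s.M x)) = true at this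
      rw [h.Minv] at this
      exact l0 x hx this

end Pool.Agent.Shared.Matching.Alg
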