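import Mathlib
import Pool.Agent.Shared.Matching.Ops

/-!
Growing the alternating tree preserves the invariants.
-/

set_option autoImplicit false

namespace Pool.Agent.Shared.Matching.Alg

open Finset Function

variable {N B : ℕ} {w : ℕ → ℕ → ℕ} {s : St}

/-- Number of outer vertices. -/
def cnt (N : ℕ) (lab : ℕ → ℕ) : ℕ := ((range N).filter fun x => lab x = 1).card

theorem cnt_le (N : ℕ) (lab : ℕ → ℕ) : cnt N lab ≤ N :=
  (card_filter_le _ _).trans (by simp)

theorem cnt_lt {lab lab' : ℕ → ℕ} (h : ∀ x, lab x = 1 → lab' x = 1) {a : ℕ} (ha : a < N)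
    (h0 : lab a ≠ 1) (h1 : lab' a = 1) : cnt N lab < cnt N lab' := by
  refine card_lt_card ⟨fun x hx => ?_, fun hc => ?_⟩
  · exact mem_filter.2 ⟨(mem_filter.1 hx).1, h x (mem_filter.1 hx).2⟩
  · exact h0 (mem_filter.1 (hc (mem_filter.2 ⟨mem_range.2 ha, h1⟩))).2

/-- Add the blossom of `v` (inner) and the blossom of the mate of its base `b` (outer). -/
def St.grow (s : St) (u v b : ℕ) : St :=
  { s with
    T := fun x t => cond (sm s.Z (s.M b) x)
      (link (p3 (sm s.Z (s.M b)) (sm s.Z v) (s.T x) (s.T v) (s.T u)) u v t) (s.T x t)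
    lab := fun x => cond (sm s.Z v x) 2 (cond (sm s.Z (s.M b) x) 1 (s.lab x))
    S := fun a x => cond (sm s.Z v a) (sm s.Z (s.M b) x)
      (s.S a x || (s.S a u && (sm s.Z v x || sm s.Z (s.M b) x))) }

theorem grow_ok (hw : ∀ u v, w u v = w v u) (h : Base N B w s) (hs : Srch w s) {u v b : ℕ}
    (hu : s.lab u = 1) (hv : s.lab v = 0) (hvN : v < N) (ht : Tight w s.y s.Z u v)
    (hb : sm s.Z v b = true) (hb' : ¬ sm s.Z v (s.M b) = true) :
    Base N B w (s.grow u v b) ∧ Srch w (s.grow u v b) ∧ cnt N s.lab < cnt N (s.grow u v b).lab := by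
  have hd := h.dual
  obtain ⟨c, hc⟩ : ∃ c, c = s.M b := ⟨_, rfl⟩
  have hcb : s.M c = b := by rw [hc, h.Minv]
  have hlab : ∀ x, (s.grow u v b).lab x =
      if sm s.Z v x = true then 2 else if sm s.Z c x = true then 1 else s.lab x := by
    intro x; simp only [St.grow, hc, Bool.cond_eq_ite]
  have hT1 : ∀ x, sm s.Z c x = true → (s.grow u v b).T x =
      link (p3 (sm s.Z c) (sm s.Z v) (s.T x) (s.T v) (s.T u)) u v := by
    intro x hx; funext t; rw [hc] at hx; simp [St.grow, hx, hc]
  have hT0 : ∀ x, ¬ sm s.Z c x = true → (s.grow u v b).T x = s.T x := by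
    intro x hx; funext t; rw [hc] at hx; simp [St.grow, hx]
  have hS1 : ∀ a, sm s.Z v a = true → (s.grow u v b).S a = sm s.Z c := by
    intro a ha; funext x; simp [St.grow, ha, hc]
  have hS0 : ∀ a x, ¬ sm s.Z v a = true → ((s.grow u v b).S a x = true ↔ s.S a x = true ∨
      (s.S a u = true ∧ (sm s.Z v x = true ∨ sm s.Z c x = true))) := by
    intro a x ha; simp [St.grow, ha, hc]
  rw [← hc] at hb'
  have labA : ∀ x, sm s.Z v x = true → s.lab x = 0 := fun x hx => by
    rw [← hs.labcl _ _ hx, hv]
  have labc : s.lab c = 0 := by rw [hc]; exact hs.Mtree b (labA b hb)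
  have labC : ∀ x, sm s.Z c x = true → s.lab x = 0 := fun x hx => by
    rw [← hs.labcl _ _ hx, labc]
  have labAC : ∀ x, sm s.Z v x = true ∨ sm s.Z c x = true → s.lab x = 0 :=
    fun x hx => hx.elim (labA x) (labC x)
  have dis : ∀ x, sm s.Z v x = true → ¬ sm s.Z c x = true :=
    fun x h1 h2 => hb' (hd.sm_trans h1 (hd.sm_symm h2))
  have hZ : s.Z b c = 0 := by
    by_contra h0
    exact hb' (hd.sm_trans hb (sm_iff.2 (Or.inr (by omega))))
  have hbc : b ≠ c := by rintro rfl; exact hb' hb
  have hcN : c < N := by rw [hc]; exact h.M_lt (h.sm_lt hvN hb)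
  have Mcl : ∀ x, sm s.Z v x = true ∨ sm s.Z c x = true →
      (sm s.Z v (s.M x) = true ∨ sm s.Z c (s.M x) = true) ∧ s.M x ≠ x := by
    intro x hx
    by_cases h1 : x = b
    · rw [h1, ← hc]; exact ⟨Or.inr (sm_refl _ _), hbc.symm⟩
    by_cases h2 : x = c
    · rw [h2, hcb]; exact ⟨Or.inl hb, hbc⟩
    have h3 : 1 ≤ s.Z x (s.M x) := by
      rcases hx with hx | hx
      · exact h.Mgood.inside hd trivial trivial (by rw [← hc, hZ])
          (hd.sm_trans (hd.sm_symm hb) hx) h1
      · exact h.Mgood.inside hd trivial trivial (by rw [hcb, hd.symm, hZ]) hx h2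
    refine ⟨hx.imp (fun k => hd.sm_trans k (sm_iff.2 (Or.inr h3)))
      (fun k => hd.sm_trans k (sm_iff.2 (Or.inr h3))), fun e => ?_⟩
    rw [e, hd.diag] at h3
    omega
  have nAu : ¬ sm s.Z v u = true := fun k => by have := labA u k; omega
  have nCu : ¬ sm s.Z c u = true := fun k => by have := labC u k; omega
  have nCv : ¬ sm s.Z c v = true := dis v (sm_refl _ _)
  have huv : u ≠ v := by rintro rfl; omega
  have l2 : ∀ x, (s.grow u v b).lab x = 2 → sm s.Z v x = true ∨
      (¬ sm s.Z v x = true ∧ s.lab x = 2) := by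
    intro x hx; rw [hlab] at hx; split_ifs at hx with h1 h2
    · exact Or.inl h1
    · omega
    · exact Or.inr ⟨h1, hx⟩
  have l1 : ∀ x, (s.grow u v b).lab x = 1 → sm s.Z c x = true ∨
      (¬ sm s.Z c x = true ∧ s.lab x = 1) := by
    intro x hx; rw [hlab] at hx; split_ifs at hx with h1 h2
    · omega
    · exact Or.inl h2
    · exact Or.inr ⟨h2, hx⟩
  have l0 : ∀ x, (s.grow u v b).lab x = 0 ↔
      ¬ (sm s.Z v x = true ∨ sm s.Z c x = true) ∧ s.lab x = 0 := by
    intro x; rw [hlab]; split_ifs with h1 h2 <;> simp [h1]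
    · simp [h2]
    · simp [h2]
  have lold : ∀ x, s.lab x ≠ 0 → (s.grow u v b).lab x = s.lab x := by
    intro x hx
    rw [hlab, if_neg (fun k => hx (labA x k)), if_neg (fun k => hx (labC x k))]
  have hP1 : ∀ a x, sm s.Z v a = true →
      ((s.grow u v b).P a x ↔ sm s.Z v x = true ∨ sm s.Z c x = true) := by
    intro a x ha
    unfold St.P
    rw [hS1 a ha]
    constructor
    · rintro (k | k)
      · exact Or.inr k
      · exact Or.inl (hd.sm_trans ha k)
    · rintro (k | k)
      · exact Or.inr (hd.sm_trans (hd.sm_symm ha) k)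
      · exact Or.inl k
  have hP0 : ∀ a x, ¬ sm s.Z v a = true → ((s.grow u v b).P a x ↔ s.P a x ∨
      (s.S a u = true ∧ (sm s.Z v x = true ∨ sm s.Z c x = true))) := by
    intro a x ha
    unfold St.P
    rw [hS0 a x ha]
    change (_ ∨ sm s.Z a x = true) ↔ _
    tauto
  -- values of the new tables
  have vu : ∀ x, sm s.Z c x = true → (s.grow u v b).T x u = v := by
    intro x hx; rw [hT1 x hx, link_p]
  have vv : ∀ x, sm s.Z c x = true → (s.grow u v b).T x v = u := by
    intro x hx; rw [hT1 x hx, link_q]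
  have vC : ∀ x t, sm s.Z c x = true → sm s.Z c t = true → (s.grow u v b).T x t = s.T x t := by
    intro x t hx ht'
    rw [hT1 x hx, link_other _ (show t ≠ u from fun e => nCu (e ▸ ht'))
      (show t ≠ v from fun e => nCv (e ▸ ht')), p3_A ht']
  have vA : ∀ x t, sm s.Z c x = true → sm s.Z v t = true → t ≠ v →
      (s.grow u v b).T x t = s.T v t := by
    intro x t hx ht' hne
    rw [hT1 x hx, link_other _ (show t ≠ u from fun e => nAu (e ▸ ht')) hne, p3_B (dis t ht') ht']
  have vO : ∀ x t, sm s.Z c x = true → ¬ (sm s.Z v t = true ∨ sm s.Z c t = true) → t ≠ u →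
      (s.grow u v b).T x t = s.T u t := by
    intro x t hx ht' hne
    rw [hT1 x hx, link_other _ hne (fun e => ht' (Or.inl (e ▸ sm_refl _ _))),
      p3_C (fun k => ht' (Or.inr k)) (fun k => ht' (Or.inl k))]
  have clC : ∀ x t, sm s.Z c x = true → sm s.Z c t = true → sm s.Z c (s.T x t) = true :=
    fun x t hx ht' => hd.sm_trans hx (h.Tcl (hd.sm_trans (hd.sm_symm hx) ht'))
  have key : ∀ x, sm s.Z c x = true → Involutive ((s.grow u v b).T x) ∧
      GoodOn w s.y s.Z (fun _ => True) ((s.grow u v b).T x) := by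
    intro x hx
    rw [hT1 x hx]
    have e1 : p3 (sm s.Z c) (sm s.Z v) (s.T x) (s.T v) (s.T u) u = u := by
      rw [p3_C nCu nAu, h.Tfix]
    have e2 : p3 (sm s.Z c) (sm s.Z v) (s.T x) (s.T v) (s.T u) v = v := by
      rw [p3_B nCv (sm_refl _ _), h.Tfix]
    refine ⟨link_inv (p3_inv (h.Tinv x) (h.Tinv v) (h.Tinv u) (fun t => clC x t hx)
      (fun t k => h.Tcl k) dis fun t k => ?_) e1 e2, link_good hd hw ?_ e1 e2 ht⟩
    · rw [hs.Ooff u t hu (labAC t k.symm)]
      exact (Mcl t k.symm).1.symm
    · exact p3_good hd (fun _ _ => hd.sm_trans) (fun _ _ => hd.sm_trans)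
        ((h.Tgood x).mono fun t k => hd.sm_trans (hd.sm_symm hx) k) (h.Tgood v) (hs.Ogood u hu)
  have hr := hs.labr
  have ACN : ∀ x, N ≤ x → ¬ (sm s.Z v x = true ∨ sm s.Z c x = true) := by
    rintro x hx (k | k)
    · have := h.sm_lt hvN k; omega
    · have := h.sm_lt hcN k; omega
  have huN := h.lab_lt (x := u) (by omega)
  refine ⟨?_, ?_, ?_⟩
  · refine upd_base h (T' := (s.grow u v b).T) (lab' := (s.grow u v b).lab)
      (S' := (s.grow u v b).S) (fun x => ?_) (fun x hx => ?_) (fun a x ha => ?_) (fun a x hx => ?_)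
      (fun x => ?_) h.rle
    · by_cases hx : sm s.Z c x = true
      · refine Or.inr ⟨h.sm_lt hcN hx, (key x hx).1, by rw [vC x x hx hx, h.Tfix], (key x hx).2,
          fun t k => ?_⟩
        rw [vO x t hx (ACN t k) (by omega), h.suppT2 u t k]
      · exact Or.inl (hT0 x hx)
    · exact (l0 x).2 ⟨ACN x hx, h.supplab x hx⟩
    · rw [Bool.eq_false_iff, Ne, hS0 a x (fun k => ACN a ha (Or.inl k)), h.suppS1 a x ha,
        h.suppS1 a u ha]
      simp
    · rw [Bool.eq_false_iff]
      by_cases ha : sm s.Z v a = true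
      · rw [hS1 a ha]; exact fun k => ACN x hx (Or.inr k)
      · rw [Ne, hS0 a x ha, h.suppS2 a x hx]
        have := ACN x hx
        tauto
    · rw [hlab]; have := h.lab2 x; split_ifs <;> omega
  · refine
      { labr := by change (s.grow u v b).lab s.r = 1; rw [lold _ (by omega), hr]
        Tr := by
          change (s.grow u v b).T s.r = s.M
          rw [hT0 _ (fun k => by have := labC _ k; omega), hs.Tr]
        yr := hs.yr
        labcl := fun x x' k => ?_
        Scl := fun a x x' ha k k' => ?_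
        Slab := fun a x ha k => ?_
        Sirr := fun a ha => ?_
        Sr := fun a ha => ?_
        Sat := fun a a' ha k => ?_
        Ogood := fun x hx => ?_
        Ofix := fun x t hx k e => ?_
        Ooff := fun x t hx k => ?_
        Mtree := fun x hx => ?_
        Oin := fun x a t hx ha k k' => ?_
        Oout := fun x a t hx ha k k' => ?_
        lam := fun a a' ha ha' k => ?_
        par := fun x hx => ?_ }
    · change sm s.Z x x' = true at k
      have e1 : sm s.Z v x = true ↔ sm s.Z v x' = true :=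
        ⟨fun j => hd.sm_trans j k, fun j => hd.sm_trans j (hd.sm_symm k)⟩
      have e2 : sm s.Z c x = true ↔ sm s.Z c x' = true :=
        ⟨fun j => hd.sm_trans j k, fun j => hd.sm_trans j (hd.sm_symm k)⟩
      rw [hlab, hlab, hs.labcl _ _ k]
      simp only [e1, e2]
    · change sm s.Z x x' = true at k'
      rcases l2 a ha with h1 | ⟨h1, h2⟩
      · rw [hS1 a h1] at k ⊢; exact hd.sm_trans k k'
      · rw [hS0 a _ h1] at k ⊢
        rcases k with k | ⟨k1, k2⟩
        · exact Or.inl (hs.Scl a x x' h2 k k')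
        · exact Or.inr ⟨k1, k2.imp (fun j => hd.sm_trans j k') (fun j => hd.sm_trans j k')⟩
    · rw [Ne, l0]
      rcases l2 a ha with h1 | ⟨h1, h2⟩
      · rw [hS1 a h1] at k; tauto
      · rw [hS0 a _ h1] at k
        rcases k with k | ⟨-, k2⟩
        · have := hs.Slab a x h2 k; tauto
        · tauto
    · rcases l2 a ha with h1 | ⟨h1, h2⟩
      · rw [hS1 a h1]; exact dis a h1
      · rw [hS0 a _ h1]
        rintro (k | ⟨-, k⟩)
        · exact hs.Sirr a h2 k
        · have := labAC a k; omega
    · change ¬ (s.grow u v b).S a s.r = true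
      rcases l2 a ha with h1 | ⟨h1, h2⟩
      · rw [hS1 a h1]; intro k; have := labC _ k; omega
      · rw [hS0 a _ h1]
        rintro (k | ⟨-, k⟩)
        · exact hs.Sr a h2 k
        · have := labAC _ k; omega
    · change sm s.Z a a' = true at k
      rcases l2 a ha with h1 | ⟨h1, h2⟩
      · rw [hS1 a h1, hS1 a' (hd.sm_trans h1 k)]
      · funext x
        rw [Bool.eq_iff_iff, hS0 a x h1, hS0 a' x (fun j => h1 (hd.sm_trans j (hd.sm_symm k))),
          hs.Sat a a' h2 k]
    · rcases l1 x hx with h1 | ⟨h1, h2⟩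
      · exact (key x h1).2
      · rw [hT0 x h1]; exact hs.Ogood x h2
    · rw [Ne, l0] at k
      rcases l1 x hx with h1 | ⟨h1, h2⟩
      · by_cases e1 : t = u
        · rw [e1, vu x h1] at e; exact absurd e.symm huv
        by_cases e2 : t = v
        · rw [e2, vv x h1] at e; exact absurd e huv
        by_cases e3 : sm s.Z c t = true
        · rw [vC x t h1 e3] at e
          by_contra e4
          exact h.Tne (hd.sm_trans (hd.sm_symm h1) e3) e4 e
        by_cases e4 : sm s.Z v t = true
        · rw [vA x t h1 e4 e2] at e; exact absurd e (h.Tne e4 e2)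
        rw [vO x t h1 (by tauto) e1] at e
        exact absurd (hs.Ofix u t hu (by tauto) e) e1
      · rw [hT0 x h1] at e
        by_cases e1 : s.lab t = 0
        · rw [hs.Ooff x t h2 e1] at e
          exact absurd e (Mcl t (by tauto)).2
        · exact hs.Ofix x t h2 e1 e
    · change _ = s.M t
      rw [l0] at k
      rcases l1 x hx with h1 | ⟨h1, h2⟩
      · rw [vO x t h1 k.1 (by rintro rfl; omega), hs.Ooff u t hu k.2]
      · rw [hT0 x h1, hs.Ooff x t h2 k.2]
    · change (s.grow u v b).lab (s.M x) = 0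
      rw [l0] at hx ⊢
      refine ⟨fun k => hx.1 ?_, hs.Mtree x hx.2⟩
      have := (Mcl _ k).1
      rwa [h.Minv] at this
    · rcases l2 a ha with h1 | ⟨h1, h2⟩
      · rw [hS1 a h1] at k k' ⊢
        rw [vC x t k k']
        exact clC x t k k'
      · rw [hS0 a _ h1] at k k' ⊢
        rcases l1 x hx with h3 | ⟨h3, h4⟩
        · have hau : s.S a u = true := by
            rcases k with k | k
            · exact absurd (labC x h3) (hs.Slab a x h2 k)
            · exact k.1
          by_cases e1 : t = u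
          · rw [e1, vu x h3]; exact Or.inr ⟨hau, Or.inl (sm_refl _ _)⟩
          by_cases e2 : t = v
          · rw [e2, vv x h3]; exact Or.inl hau
          by_cases e3 : sm s.Z c t = true
          · rw [vC x t h3 e3]; exact Or.inr ⟨hau, Or.inr (clC x t h3 e3)⟩
          by_cases e4 : sm s.Z v t = true
          · rw [vA x t h3 e4 e2]; exact Or.inr ⟨hau, Or.inl (h.Tcl e4)⟩
          rw [vO x t h3 (by tauto) e1]
          exact Or.inl (hs.Oin u a t hu h2 hau (by tauto))
        · rw [hT0 x h3]
          have hax : s.S a x = true := by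
            rcases k with k | k
            · exact k
            · have := labAC x k.2; omega
          rcases k' with k' | k'
          · exact Or.inl (hs.Oin x a t h4 h2 hax k')
          · rw [hs.Ooff x t h4 (labAC t k'.2)]
            exact Or.inr ⟨k'.1, (Mcl t k'.2).1⟩
    · rcases l2 a ha with h1 | ⟨h1, h2⟩
      · rw [hS1 a h1] at k
        rw [hP1 a _ h1] at k' ⊢
        rcases l1 x hx with h3 | ⟨h3, h4⟩
        · exact absurd h3 k
        · rw [hT0 x h3, hs.Ooff x t h4 (labAC t k')]
          exact (Mcl t k').1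
      · rw [hS0 a _ h1] at k
        rw [hP0 a _ h1] at k' ⊢
        rcases l1 x hx with h3 | ⟨h3, h4⟩
        · have hau : ¬ s.S a u = true := by tauto
          have hp : s.P a t := k'.resolve_right fun j => hau j.1
          have hl := hs.Plab h2 hp
          rw [vO x t h3 (fun j => hl (labAC t j))
            (by rintro rfl; exact hau (hs.P_outer h2 hu hp))]
          exact Or.inl (hs.Oout u a t hu h2 hau hp)
        · rw [hT0 x h3]
          rcases k' with k' | k'
          · exact Or.inl (hs.Oout x a t h4 h2 (by tauto) k')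
          · rw [hs.Ooff x t h4 (labAC t k'.2)]
            exact Or.inr ⟨k'.1, (Mcl t k'.2).1⟩
    · change ¬ sm s.Z a a' = true at k
      have mix : ∀ a a', sm s.Z v a = true → ¬ sm s.Z v a' = true → s.lab a' = 2 →
          (∀ x, (s.grow u v b).P a x → (s.grow u v b).S a' x = true) ∨
          (∀ x, (s.grow u v b).P a x → ¬ (s.grow u v b).P a' x) := by
        intro a a' h1 h3 h4
        by_cases hau : s.S a' u = true
        · refine Or.inl fun x j => ?_
          rw [hP1 a _ h1] at j
          exact (hS0 a' x h3).2 (Or.inr ⟨hau, j⟩)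
        · refine Or.inr fun x j j' => ?_
          rw [hP1 a _ h1] at j
          rw [hP0 a' _ h3] at j'
          rcases j' with j' | j'
          · exact hs.Plab h4 j' (labAC x j)
          · exact hau j'.1
      have nest : ∀ a a', ¬ sm s.Z v a = true → ¬ sm s.Z v a' = true →
          (∀ x, s.P a x → s.S a' x = true) →
          ∀ x, (s.grow u v b).P a x → (s.grow u v b).S a' x = true := by
        intro a a' h1 h3 j x jx
        rw [hP0 a _ h1] at jx
        rw [hS0 a' _ h3]
        rcases jx with jx | jx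
        · exact Or.inl (j x jx)
        · exact Or.inr ⟨j u (Or.inl jx.1), jx.2⟩
      rcases l2 a ha with h1 | ⟨h1, h2⟩ <;> rcases l2 a' ha' with h3 | ⟨h3, h4⟩
      · exact absurd (hd.sm_trans (hd.sm_symm h1) h3) k
      · rcases mix a a' h1 h3 h4 with j | j
        · exact Or.inl j
        · exact Or.inr (Or.inr j)
      · rcases mix a' a h3 h1 h2 with j | j
        · exact Or.inr (Or.inl j)
        · exact Or.inr (Or.inr fun x j1 j2 => j x j2 j1)
      · rcases hs.lam a a' h2 h4 k with j | j | j
        · exact Or.inl (nest a a' h1 h3 j)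
        · exact Or.inr (Or.inl (nest a' a h3 h1 j))
        · refine Or.inr (Or.inr fun x j1 j2 => ?_)
          rw [hP0 a _ h1] at j1
          rw [hP0 a' _ h3] at j2
          rcases j1 with j1 | j1 <;> rcases j2 with j2 | j2
          · exact j x j1 j2
          · exact hs.Plab h2 j1 (labAC x j2.2)
          · exact hs.Plab h4 j2 (labAC x j1.2)
          · exact j u (Or.inl j1.1) (Or.inl j2.1)
    · change s.y x % 2 = s.y s.r % 2
      rw [Ne, l0] at hx
      have p1 := hs.par u (by omega)
      have p2 := ht.par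
      have p3 := hd.sm_par hb
      have p4 := (h.Mgood.1 b trivial (by rw [← hc]; exact hbc.symm)).par
      rw [← hc] at p4
      by_cases e1 : sm s.Z v x = true
      · have := hd.sm_par e1; omega
      by_cases e2 : sm s.Z c x = true
      · have := hd.sm_par e2; omega
      exact hs.par x (by tauto)
  · refine cnt_lt (fun x hx => by rw [lold x (by omega), hx]) hcN (by omega) ?_
    rw [hlab, if_neg hb', if_pos (sm_refl _ _)]

end Pool.Agent.Shared.Matching.Alg
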