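import Mathlib
import Pool.Agent.Shared.Matching.Grow

/-!
Forming a blossom preserves the invariants.
-/

set_option autoImplicit false

namespace Pool.Agent.Shared.Matching.Alg

open Finset Function

variable {N B : ℕ} {w : ℕ → ℕ → ℕ} {s : St}

/-- The inner vertex `a` has exactly one of `u`, `v` below it. -/
def St.sep (s : St) (u v a : ℕ) : Bool := (s.lab a == 2) && !(s.S a u == s.S a v)

theorem sep_iff {u v a : ℕ} : s.sep u v a = true ↔ s.lab a = 2 ∧ s.S a u ≠ s.S a v := by
  simp [St.sep]

/-- All inner vertices separating `u` from `v` become outer. -/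
def St.blos (s : St) (u v : ℕ) : St :=
  { s with
    T := fun x t => cond (s.sep u v x)
      (cond (s.S x u) (link (p3 (sm s.Z x) (s.S x) (s.T x) (s.T u) (s.T v)) u v t)
        (link (p3 (sm s.Z x) (s.S x) (s.T x) (s.T v) (s.T u)) v u t)) (s.T x t)
    lab := fun x => cond (s.sep u v x) 1 (s.lab x) }

/-- The properties required of the matching stored for a new outer vertex `x`. -/
def NewT (w : ℕ → ℕ → ℕ) (s : St) (u v x : ℕ) (m : ℕ → ℕ) : Prop :=
  Involutive m ∧ m x = x ∧ GoodOn w s.y s.Z (fun _ => True) m ∧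
    (∀ t, s.lab t = 0 → m t = s.M t) ∧ (∀ t, s.lab t ≠ 0 → m t = t → t = x) ∧
    ∀ a, s.lab a = 2 → s.S a u = s.S a v →
      (s.S a x = true → ∀ t, s.S a t = true → s.S a (m t) = true) ∧
      (¬ s.S a x = true → ∀ t, s.P a t → s.P a (m t))

theorem blos_key (hw : ∀ u v, w u v = w v u) (h : Base N B w s) (hs : Srch w s) {u v x : ℕ}
    (hu : s.lab u = 1) (hv : s.lab v = 1) (hx : s.lab x = 2) (hxu : s.S x u = true)
    (hxv : ¬ s.S x v = true) (ht : Tight w s.y s.Z u v) :
    NewT w s u v x (link (p3 (sm s.Z x) (s.S x) (s.T x) (s.T u) (s.T v)) u v) := by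
  have hd := h.dual
  have labA : ∀ t, sm s.Z x t = true → s.lab t = 2 := fun t k => by rw [← hs.labcl _ _ k, hx]
  have nAu : ¬ sm s.Z x u = true := fun k => by have := labA u k; omega
  have nAv : ¬ sm s.Z x v = true := fun k => by have := labA v k; omega
  have huv : u ≠ v := by rintro rfl; exact hxv hxu
  have e1 : p3 (sm s.Z x) (s.S x) (s.T x) (s.T u) (s.T v) u = u := by
    rw [p3_B nAu hxu, h.Tfix]
  have e2 : p3 (sm s.Z x) (s.S x) (s.T x) (s.T u) (s.T v) v = v := by
    rw [p3_C nAv hxv, h.Tfix]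
  obtain ⟨m, hm⟩ : ∃ m, m = link (p3 (sm s.Z x) (s.S x) (s.T x) (s.T u) (s.T v)) u v := ⟨_, rfl⟩
  have vu : m u = v := by rw [hm, link_p]
  have vv : m v = u := by rw [hm, link_q]
  have vA : ∀ t, sm s.Z x t = true → m t = s.T x t := by
    intro t k
    rw [hm, link_other _ (show t ≠ u from fun e => nAu (e ▸ k))
      (show t ≠ v from fun e => nAv (e ▸ k)), p3_A k]
  have vB : ∀ t, s.S x t = true → t ≠ u → m t = s.T u t := by
    intro t k hne
    rw [hm, link_other _ hne (show t ≠ v from fun e => hxv (e ▸ k)), p3_B (hs.Sdis h hx k) k]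
  have vC : ∀ t, ¬ s.P x t → t ≠ v → m t = s.T v t := by
    intro t k hne
    rw [hm, link_other _ (show t ≠ u from fun e => k (Or.inl (e ▸ hxu))) hne,
      p3_C (fun j => k (Or.inr j)) (fun j => k (Or.inl j))]
  refine ⟨link_inv ?_ e1 e2, ?_, link_good hd hw ?_ e1 e2 ht, ?_⟩
  · exact p3_inv (h.Tinv x) (h.Tinv u) (h.Tinv v) (fun t k => h.Tcl k)
      (fun t k => hs.Oin u x t hu hx hxu k) (fun t k => hs.Sdis h hx k)
      fun t k => (hs.Oout v x t hv hx hxv k.symm).symm
  · rw [← hm, vA x (sm_refl _ _), h.Tfix]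
  · exact p3_good hd (fun _ _ => hd.sm_trans) (fun t t' => hs.Scl x t t' hx) (h.Tgood x)
      ((hs.Ogood u hu).mono fun _ _ => trivial) (hs.Ogood v hv)
  rw [← hm]
  refine ⟨fun t k => ?_, fun t k e => ?_, fun a ha hau => ?_⟩
  · rw [vC t (fun j => hs.Plab hx j k) (by rintro rfl; omega), hs.Ooff v t hv k]
  · by_cases h1 : t = u
    · rw [h1, vu] at e; exact absurd e.symm huv
    by_cases h2 : t = v
    · rw [h2, vv] at e; exact absurd e huv
    by_cases h3 : sm s.Z x t = true
    · rw [vA t h3] at e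
      by_contra h4
      exact h.Tne h3 h4 e
    by_cases h4 : s.S x t = true
    · rw [vB t h4 h1] at e; exact absurd (hs.Ofix u t hu k e) h1
    rw [vC t (fun j => j.elim h4 h3) h2] at e
    exact absurd (hs.Ofix v t hv k e) h2
  · have hxa : ¬ sm s.Z x a = true := by
      intro k
      rw [← hs.Sat x a hx k, hxu] at hau
      exact hxv hau.symm
    have Pxx : s.P x x := Or.inr (sm_refl _ _)
    rcases hs.lam x a hx ha hxa with j | j | j
    · have k1 : s.S a u = true := j u (Or.inl hxu)
      have k2 : s.S a v = true := by rw [← hau, k1]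
      refine ⟨fun _ t k => ?_, fun k => absurd (j x Pxx) k⟩
      by_cases h1 : t = u
      · rw [h1, vu]; exact k2
      by_cases h2 : t = v
      · rw [h2, vv]; exact k1
      by_cases h3 : sm s.Z x t = true
      · rw [vA t h3]; exact j _ (Or.inr (h.Tcl h3))
      by_cases h4 : s.S x t = true
      · rw [vB t h4 h1]; exact j _ (Or.inl (hs.Oin u x t hu hx hxu h4))
      rw [vC t (fun j => j.elim h4 h3) h2]
      exact hs.Oin v a t hv ha k2 k
    · have k2 : ¬ s.S a v = true := fun k => hxv (j v (Or.inl k))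
      have k1 : ¬ s.S a u = true := by rwa [hau]
      refine ⟨fun k => absurd (j x (Or.inl k)) (hs.Sirr x hx), fun _ t k => ?_⟩
      rw [vB t (j t k) (by rintro rfl; exact k1 (hs.P_outer ha hu k))]
      exact hs.Oout u a t hu ha k1 k
    · have k1 : ¬ s.S a u = true := fun k => j u (Or.inl hxu) (Or.inl k)
      have k2 : ¬ s.S a v = true := by rwa [← hau]
      refine ⟨fun k => absurd (Or.inl k) (j x Pxx), fun _ t k => ?_⟩
      rw [vC t (fun i => j t i k) (by rintro rfl; exact k2 (hs.P_outer ha hv k))]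
      exact hs.Oout v a t hv ha k2 k

theorem blos_ok (hw : ∀ u v, w u v = w v u) (h : Base N B w s) (hs : Srch w s) {u v a0 : ℕ}
    (hu : s.lab u = 1) (hv : s.lab v = 1) (ht : Tight w s.y s.Z u v)
    (ha0 : s.sep u v a0 = true) :
    Base N B w (s.blos u v) ∧ Srch w (s.blos u v) ∧ cnt N s.lab < cnt N (s.blos u v).lab := by
  have hd := h.dual
  have hlab : ∀ x, (s.blos u v).lab x = if s.sep u v x = true then 1 else s.lab x := by
    intro x; simp only [St.blos, Bool.cond_eq_ite]
  have hT0 : ∀ x, ¬ s.sep u v x = true → (s.blos u v).T x = s.T x := by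
    intro x hx; funext t; simp [St.blos, hx]
  have key : ∀ x, s.sep u v x = true → NewT w s u v x ((s.blos u v).T x) := by
    intro x hx
    obtain ⟨h1, h2⟩ := sep_iff.1 hx
    by_cases h3 : s.S x u = true
    · have : (s.blos u v).T x = link (p3 (sm s.Z x) (s.S x) (s.T x) (s.T u) (s.T v)) u v := by
        funext t; simp [St.blos, hx, h3]
      rw [this]
      exact blos_key hw h hs hu hv h1 h3 (fun k => h2 (by rw [h3, k])) ht
    · have : (s.blos u v).T x = link (p3 (sm s.Z x) (s.S x) (s.T x) (s.T v) (s.T u)) v u := by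
        funext t; simp [St.blos, hx, h3]
      rw [this]
      have ht' : Tight w s.y s.Z v u := by
        unfold Tight at ht ⊢
        rw [hd.symm v u, hw v u]
        omega
      obtain ⟨k1, k2, k3, k4, k5, k6⟩ :=
        blos_key hw h hs hv hu h1 (by revert h2 h3; cases s.S x u <;> cases s.S x v <;> simp) h3 ht'
      exact ⟨k1, k2, k3, k4, k5, fun a ha e => k6 a ha e.symm⟩
  have l2 : ∀ x, (s.blos u v).lab x = 2 → s.lab x = 2 ∧ s.S x u = s.S x v := by
    intro x hx; rw [hlab] at hx; split_ifs at hx with h1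
    · omega
    · rw [sep_iff] at h1; exact ⟨hx, by tauto⟩
  have l1 : ∀ x, (s.blos u v).lab x = 1 → s.sep u v x = true ∨
      (¬ s.sep u v x = true ∧ s.lab x = 1) := by
    intro x hx; rw [hlab] at hx; split_ifs at hx with h1
    · exact Or.inl h1
    · exact Or.inr ⟨h1, hx⟩
  have l0 : ∀ x, (s.blos u v).lab x = 0 ↔ s.lab x = 0 := by
    intro x; rw [hlab]; split_ifs with h1
    · simp [(sep_iff.1 h1).1]
    · rfl
  have lold : ∀ x, s.lab x = 1 → ¬ s.sep u v x = true := by
    intro x hx k; have := (sep_iff.1 k).1; omega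
  refine ⟨?_, ?_, ?_⟩
  · refine upd_base h (T' := (s.blos u v).T) (lab' := (s.blos u v).lab) (S' := s.S)
      (fun x => ?_) (fun x hx => (l0 x).2 (h.supplab x hx)) h.suppS1 h.suppS2 (fun x => ?_) h.rle
    · by_cases hx : s.sep u v x = true
      · obtain ⟨k1, k2, k3, k4, -⟩ := key x hx
        refine Or.inr ⟨h.lab_lt (by have := (sep_iff.1 hx).1; omega), k1, k2, k3, fun t k => ?_⟩
        rw [k4 t (h.supplab t k), h.suppM t k]
      · exact Or.inl (hT0 x hx)
    · rw [hlab]; have := h.lab2 x; split_ifs <;> omega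
  · refine
      { labr := by
          change (s.blos u v).lab s.r = 1
          rw [hlab, if_neg (lold _ hs.labr), hs.labr]
        Tr := by
          change (s.blos u v).T s.r = s.M
          rw [hT0 _ (lold _ hs.labr), hs.Tr]
        yr := hs.yr
        labcl := fun x x' k => ?_
        Scl := fun a x x' ha => hs.Scl a x x' (l2 a ha).1
        Slab := fun a x ha k => by rw [Ne, l0]; exact hs.Slab a x (l2 a ha).1 k
        Sirr := fun a ha => hs.Sirr a (l2 a ha).1
        Sr := fun a ha => hs.Sr a (l2 a ha).1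
        Sat := fun a a' ha => hs.Sat a a' (l2 a ha).1
        Ogood := fun x hx => ?_
        Ofix := fun x t hx k e => ?_
        Ooff := fun x t hx k => ?_
        Mtree := fun x hx => (l0 _).2 (hs.Mtree x ((l0 x).1 hx))
        Oin := fun x a t hx ha k k' => ?_
        Oout := fun x a t hx ha k k' => ?_
        lam := fun a a' ha ha' => hs.lam a a' (l2 a ha).1 (l2 a' ha').1
        par := fun x hx => hs.par x (by rwa [Ne, l0] at hx) }
    · change sm s.Z x x' = true at k
      have e1 := hs.labcl _ _ k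
      have e2 : s.sep u v x = true ↔ s.sep u v x' = true := by
        rw [sep_iff, sep_iff, ← e1]
        exact and_congr_right fun j => by rw [hs.Sat x x' j k]
      rw [hlab, hlab, e1]
      simp only [e2]
    · rcases l1 x hx with h1 | ⟨h1, h2⟩
      · exact (key x h1).2.2.1
      · rw [hT0 x h1]; exact hs.Ogood x h2
    · rw [Ne, l0] at k
      rcases l1 x hx with h1 | ⟨h1, h2⟩
      · exact (key x h1).2.2.2.2.1 t k e
      · rw [hT0 x h1] at e; exact hs.Ofix x t h2 k e
    · rw [l0] at k
      rcases l1 x hx with h1 | ⟨h1, h2⟩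
      · exact (key x h1).2.2.2.1 t k
      · rw [hT0 x h1]; exact hs.Ooff x t h2 k
    · rcases l1 x hx with h1 | ⟨h1, h2⟩
      · exact ((key x h1).2.2.2.2.2 a (l2 a ha).1 (l2 a ha).2).1 k t k'
      · rw [hT0 x h1]; exact hs.Oin x a t h2 (l2 a ha).1 k k'
    · rcases l1 x hx with h1 | ⟨h1, h2⟩
      · exact ((key x h1).2.2.2.2.2 a (l2 a ha).1 (l2 a ha).2).2 k t k'
      · rw [hT0 x h1]; exact hs.Oout x a t h2 (l2 a ha).1 k k'
  · have := (sep_iff.1 ha0).1
    exact cnt_lt (fun x hx => by rw [hlab, if_neg (lold x hx), hx]) (h.lab_lt (x := a0) (by omega))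
      (by omega) (by rw [hlab, if_pos ha0])

end Pool.Agent.Shared.Matching.Alg
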