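import Mathlib
import Pool.Agent.Shared.Matching.Blossom

/-!
The dual adjustment preserves the invariants.
-/

set_option autoImplicit false

namespace Pool.Agent.Shared.Matching.Alg

open Finset Function

variable {N B : ℕ} {w : ℕ → ℕ → ℕ} {s : St}

/-- Some inner vertex separates `u` from `v`. -/
def St.anySep (N : ℕ) (s : St) (u v : ℕ) : Bool := (List.range N).any fun a => s.sep u v a

/-- The dual adjustment. -/
def St.dual (N : ℕ) (s : St) : St :=
  { s with
    y := fun x => cond (s.lab x == 1) (s.y x - 1) (cond (s.lab x == 2) (s.y x + 1) (s.y x))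
    Z := fun u v => cond (!(u == v) && (s.lab u == 1) && (s.lab v == 1) && !(s.anySep N u v))
      (s.Z u v + 1) (cond (s.lab u == 2) (s.Z u v - 1) (s.Z u v))
    lab := fun _ => 0 }

/-- `u` and `v` are outer and in the same node of the tree. -/
def St.Nd (s : St) (u v : ℕ) : Prop :=
  s.lab u = 1 ∧ s.lab v = 1 ∧ ∀ a, s.lab a = 2 → s.S a u = s.S a v

theorem St.Nd.symm {u v : ℕ} (h : s.Nd u v) : s.Nd v u :=
  ⟨h.2.1, h.1, fun a ha => (h.2.2 a ha).symm⟩

theorem St.Nd.trans {u v x : ℕ} (h : s.Nd u v) (h' : s.Nd v x) : s.Nd u x :=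
  ⟨h.1, h'.2.1, fun a ha => (h.2.2 a ha).trans (h'.2.2 a ha)⟩

theorem anySep_iff (h : Base N B w s) {u v : ℕ} :
    s.anySep N u v = false ↔ ∀ a, s.lab a = 2 → s.S a u = s.S a v := by
  rw [Bool.eq_false_iff]
  simp only [St.anySep, Ne, List.any_eq_true, List.mem_range, sep_iff, not_exists, not_and,
    not_not]
  exact ⟨fun k a ha => k a (h.lab_lt (by omega)) ha, fun k a _ ha => k a ha⟩

theorem dual_ok (hw : ∀ u v, w u v = w v u) (hw0 : ∀ u v, N ≤ v → w u v = 0)
    (h : Base N B w s) (hs : Srch w s) (E1 : ∀ u, s.lab u = 1 → 1 ≤ s.y u)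
    (E2 : ∀ u v, s.lab u = 1 → s.lab v = 0 → v < N → ¬ Tight w s.y s.Z u v)
    (E3 : ∀ u v, s.lab u = 1 → s.lab v = 1 → Tight w s.y s.Z u v → s.anySep N u v = false) :
    Base N B w (s.dual N) ∧ Phi N (s.dual N).y s.M < Phi N s.y s.M := by
  classical
  have hd := h.dual
  obtain ⟨y', hy'⟩ : ∃ y', y' = (s.dual N).y := ⟨_, rfl⟩
  obtain ⟨Z', hZ'⟩ : ∃ Z', Z' = (s.dual N).Z := ⟨_, rfl⟩
  have y1 : ∀ x, s.lab x = 1 → y' x + 1 = s.y x := by
    intro x hx; have := E1 x hx; simp [hy', St.dual, hx]; omega
  have y2 : ∀ x, s.lab x = 2 → y' x = s.y x + 1 := by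
    intro x hx; simp [hy', St.dual, hx]
  have y0 : ∀ x, s.lab x = 0 → y' x = s.y x := by
    intro x hx; simp [hy', St.dual, hx]
  have hZ : ∀ u v, Z' u v = if u ≠ v ∧ s.Nd u v then s.Z u v + 1 else
      if s.lab u = 2 then s.Z u v - 1 else s.Z u v := by
    intro u v
    simp only [hZ', St.dual, Bool.cond_eq_ite, Bool.and_eq_true, Bool.not_eq_true', beq_iff_eq,
      anySep_iff h, St.Nd, beq_eq_false_iff_ne, and_assoc]
    congr
  have lab3 : ∀ x, s.lab x = 0 ∨ s.lab x = 1 ∨ s.lab x = 2 := fun x => by
    have := h.lab2 x; omega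
  have labZ : ∀ u v, 1 ≤ s.Z u v → s.lab u = s.lab v :=
    fun u v k => hs.labcl u v (sm_iff.2 (Or.inr k))
  have atomNd : ∀ u v, s.lab u = 1 → sm s.Z u v = true → s.Nd u v := by
    intro u v hu k
    refine ⟨hu, by rw [← hs.labcl _ _ k, hu], fun a ha => ?_⟩
    rw [Bool.eq_iff_iff]
    exact ⟨fun j => hs.Scl a u v ha j k, fun j => hs.Scl a v u ha j (hd.sm_symm k)⟩
  have zN : ∀ u v, u ≠ v → s.Nd u v → Z' u v = s.Z u v + 1 := by
    intro u v k j; rw [hZ, if_pos ⟨k, j⟩]
  have zI : ∀ u v, s.lab u = 2 → Z' u v = s.Z u v - 1 := by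
    intro u v k; rw [hZ, if_neg (fun j => by have := j.2.1; omega), if_pos k]
  have zO : ∀ u v, s.lab u = 0 → Z' u v = s.Z u v := by
    intro u v k; rw [hZ, if_neg (fun j => by have := j.2.1; omega), if_neg (by omega)]
  have zX : ∀ u v, s.lab u = 1 → 1 ≤ Z' u v → u ≠ v ∧ s.Nd u v := by
    intro u v k j
    by_contra hc
    rw [hZ, if_neg hc, if_neg (by omega)] at j
    exact hc ⟨by rintro rfl; rw [hd.diag] at j; omega, atomNd u v k (sm_iff.2 (Or.inr j))⟩
  have hd' : Dual w y' Z' := by
    refine ⟨fun u v => ?_, fun u => ?_, fun u v x hux => ?_, fun u v huv => ?_, fun u v k => ?_⟩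
    · by_cases k : u ≠ v ∧ s.Nd u v
      · rw [zN u v k.1 k.2, zN v u k.1.symm k.2.symm, hd.symm]
      · have k' : ¬ (v ≠ u ∧ s.Nd v u) := fun j => k ⟨j.1.symm, j.2.symm⟩
        rw [hZ, hZ, if_neg k, if_neg k', hd.symm v u]
        have := labZ u v
        split_ifs <;> omega
    · rw [hZ, if_neg (by simp), hd.diag]; simp
    · have hu := hd.ultra u v x hux
      rcases Nat.eq_zero_or_pos (Z' u v) with k1 | k1
      · omega
      rcases Nat.eq_zero_or_pos (Z' v x) with k2 | k2
      · omega
      have := labZ u v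
      rcases lab3 u with l | l | l
      · rw [zO u v l] at k1 ⊢
        rw [zO u x l, zO v x (by omega)]; exact hu
      · obtain ⟨j1, j2⟩ := zX u v l k1
        obtain ⟨j3, j4⟩ := zX v x j2.2.1 k2
        rw [zN u v j1 j2, zN v x j3 j4, zN u x hux (j2.trans j4)]; omega
      · rw [zI u v l] at k1 ⊢
        rw [zI u x l, zI v x (by omega)]; omega
    · have f := hd.feas u v huv
      have e1 := labZ u v
      have e2 := hd.symm u v
      have e3 := hw u v
      rcases lab3 u with l | l | l <;> rcases lab3 v with l' | l' | l'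
      · rw [zO u v l, y0 u l, y0 v l']; exact f
      · have := y1 v l'
        rw [zO u v l, y0 u l]
        by_cases huN : u < N
        · have := E2 v u l' l huN
          unfold Tight at this
          omega
        · have := hw0 v u (by omega); omega
      · rw [zO u v l, y0 u l, y2 v l']; omega
      · have := y1 u l
        rw [y0 v l']
        by_cases hvN : v < N
        · have := E2 u v l l' hvN
          unfold Tight at this
          omega
        · have := hw0 u v (by omega); omega
      · have k1 := y1 u l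
        have k2 := y1 v l'
        by_cases k : s.Nd u v
        · rw [zN u v huv k]; omega
        · have k3 : ¬ Tight w s.y s.Z u v :=
            fun j => k ⟨l, l', (anySep_iff h).1 (E3 u v l l' j)⟩
          have k4 : s.Z u v = 0 := by
            by_contra j
            exact k (atomNd u v l (sm_iff.2 (Or.inr (by omega))))
          have p1 := hs.par u (by omega)
          have p2 := hs.par v (by omega)
          unfold Tight at k3
          omega
      · have := y1 u l
        rw [y2 v l']; omega
      · rw [zI u v l, y2 u l, y0 v l']; omega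
      · have := y1 v l'
        rw [y2 u l]; omega
      · rw [zI u v l, y2 u l, y2 v l']; omega
    · have e1 := labZ u v
      have e2 := hd.par u v
      rcases lab3 u with l | l | l
      · rw [zO u v l] at k
        rw [y0 u l, y0 v (by omega)]; exact e2 k
      · have j := (zX u v l k).2.2.1
        have k1 := y1 u l
        have k2 := y1 v j
        have p1 := hs.par u (by omega)
        have p2 := hs.par v (by omega)
        omega
      · rw [zI u v l] at k
        rw [y2 u l, y2 v (by omega)]; omega
  have hr := hs.labr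
  have MP : ∀ a x, s.lab a = 2 → s.P a x → s.P a (s.M x) := by
    intro a x ha k
    rw [← hs.Tr]
    exact hs.Oout _ a x hr ha (hs.Sr a ha) k
  have MP' : ∀ a x, s.lab a = 2 → s.P a (s.M x) → s.P a x := by
    intro a x ha k
    have := MP a _ ha k
    rwa [h.Minv] at this
  have Mlab : ∀ x, s.lab x ≠ 0 → s.lab (s.M x) ≠ 0 := by
    intro x hx k
    have := hs.Mtree _ k
    rw [h.Minv] at this
    exact hx this
  have Mfix : ∀ x, s.lab x ≠ 0 → s.M x = x → x = s.r := by
    intro x hx e
    rw [← hs.Tr] at e
    exact hs.Ofix _ x hr hx e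
  have M11 : ∀ x, s.lab x = 1 → s.lab (s.M x) = 1 → s.Nd x (s.M x) := by
    intro x k k'
    refine ⟨k, k', fun a ha => ?_⟩
    rw [Bool.eq_iff_iff]
    exact ⟨fun j => hs.P_outer ha k' (MP a x ha (Or.inl j)),
      fun j => hs.P_outer ha k (MP' a x ha (Or.inl j))⟩
  have M22 : ∀ x, s.lab x = 2 → s.lab (s.M x) = 2 → 1 ≤ s.Z x (s.M x) := by
    intro x k k'
    have hne : x ≠ s.M x := fun e => by have := Mfix x (by omega) e.symm; rw [this] at k; omega
    by_contra hc
    have h1 : ¬ sm s.Z x (s.M x) = true := by rw [sm_iff]; omega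
    have h2 : s.P x (s.M x) := MP x x k (Or.inr (sm_refl _ _))
    have h3 : s.P (s.M x) x := MP' _ x k' (Or.inr (sm_refl _ _))
    rcases hs.lam x (s.M x) k k' h1 with j | j | j
    · exact hs.Sirr _ k' (j _ h2)
    · exact hs.Sirr _ k (j _ h3)
    · exact j _ h2 (Or.inr (sm_refl _ _))
  have M12 : ∀ x, s.lab x = 1 → s.lab (s.M x) = 2 → s.S (s.M x) x = true :=
    fun x k k' => hs.P_outer k' k (MP' _ x k' (Or.inr (sm_refl _ _)))
  have Mone : ∀ x x', x ≠ x' → s.Nd x x' → (s.M x = x ∨ s.lab (s.M x) = 2) →
      (s.M x' = x' ∨ s.lab (s.M x') = 2) → False := by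
    intro x x' hne hn k k'
    have l := hn.1
    have l' := hn.2.1
    have aux : ∀ x x', s.Nd x x' → s.M x = x → s.lab (s.M x') = 2 → False := by
      intro x x' hn e k
      have h1 := M12 x' hn.2.1 k
      rw [← hn.2.2 _ k, Mfix x (by have := hn.1; omega) e] at h1
      exact hs.Sr _ k h1
    have aux2 : ∀ x x', s.Nd x x' → s.lab (s.M x) = 2 → s.lab (s.M x') = 2 →
        (∀ t, s.P (s.M x) t → s.S (s.M x') t = true) → False := by
      intro x x' hn k k' j
      have h1 := M12 x hn.1 k
      rw [hn.2.2 _ k] at h1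
      exact hs.Sirr _ k' (j _ (MP _ x' k (Or.inl h1)))
    rcases k with k | k <;> rcases k' with k' | k'
    · exact hne ((Mfix x (by omega) k).trans (Mfix x' (by omega) k').symm)
    · exact aux x x' hn k k'
    · exact aux x' x hn.symm k' k
    · by_cases j : sm s.Z (s.M x) (s.M x') = true
      · have h1 : s.M x ≠ s.M x' := fun e => hne (h.Minv.injective e)
        have h2 := h.Mgood.2 _ _ trivial trivial h1
        rw [h.Minv, h.Minv] at h2
        have h3 := labZ (s.M x) x
        have h4 := labZ (s.M x') x'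
        rw [sm_iff] at j
        omega
      · rcases hs.lam _ _ k k' j with i | i | i
        · exact aux2 x x' hn k k' i
        · exact aux2 x' x hn.symm k' k i
        · have h1 := M12 x' l' k'
          rw [← hn.2.2 _ k'] at h1
          exact i x (Or.inl (M12 x l k)) (Or.inl h1)
  have Mg : GoodOn w y' Z' (fun _ => True) s.M := by
    constructor
    · intro x _ hne
      have t := h.Mgood.1 x trivial hne
      have e1 := labZ x (s.M x)
      unfold Tight at t ⊢
      rcases lab3 x with l | l | l
      · rw [zO _ _ l, y0 _ l, y0 _ (hs.Mtree x l)]; exact t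
      · have k1 := y1 x l
        rcases lab3 (s.M x) with l' | l' | l'
        · exact absurd l' (Mlab x (by omega))
        · have k2 := y1 _ l'
          rw [zN _ _ hne.symm (M11 x l l')]; omega
        · have k2 := zX x (s.M x) l
          have k3 : Z' x (s.M x) = 0 := by
            by_contra j
            have := (k2 (by omega)).2.2.1
            omega
          rw [y2 _ l', k3]; omega
      · rw [zI _ _ l, y2 _ l]
        rcases lab3 (s.M x) with l' | l' | l'
        · exact absurd l' (Mlab x (by omega))
        · have k2 := y1 _ l'; omega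
        · have := M22 x l l'
          rw [y2 _ l']; omega
    · intro x x' _ _ hne
      have g := h.Mgood.2 x x' trivial trivial hne
      rcases Nat.eq_zero_or_pos (Z' x x') with k1 | k1
      · omega
      have e1 := labZ x x'
      rcases lab3 x with l | l | l
      · rw [zO _ _ l] at k1
        rw [zO _ _ l, zO _ _ l, zO x' _ (by omega)]; exact g
      · obtain ⟨-, hn⟩ := zX x x' l k1
        have ins : ∀ t, s.lab t = 1 → (Z' t (s.M t) = s.Z t (s.M t) + 1) ∨
            ((s.M t = t ∨ s.lab (s.M t) = 2) ∧ s.Z t (s.M t) = 0) := by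
          intro t lt
          by_cases e : s.M t = t
          · exact Or.inr ⟨Or.inl e, by rw [e, hd.diag]⟩
          rcases lab3 (s.M t) with l' | l' | l'
          · exact absurd l' (Mlab t (by omega))
          · exact Or.inl (zN _ _ (Ne.symm e) (M11 t lt l'))
          · have := labZ t (s.M t)
            exact Or.inr ⟨Or.inr l', by omega⟩
        rw [zN x x' hne hn]
        rcases ins x l with i | i <;> rcases ins x' hn.2.1 with i' | i'
        · omega
        · omega
        · omega
        · exact (Mone x x' hne hn i.1 i'.1).elim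
      · rw [zI _ _ l] at k1
        rw [zI _ _ l, zI _ _ l, zI x' _ (by omega)]; omega
  have F2 : ∀ v x, s.Nd v x → s.Nd v (s.T v x) := by
    intro v x hn
    have hv := hn.1
    have hx := hn.2.1
    have k0 := hs.Otree h hv (x := x) (by omega)
    have k1 : ∀ a, s.lab a = 2 → ¬ s.S a v = true → ¬ s.P a (s.T v x) := by
      intro a ha j i
      have := hs.Oout v a _ hv ha j i
      rw [h.Tinv] at this
      exact j (by rw [hn.2.2 a ha]; exact hs.P_outer ha hx this)
    have k2 : ∀ a, s.lab a = 2 → s.S a v = true → s.S a (s.T v x) = true :=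
      fun a ha j => hs.Oin v a x hv ha j (by rw [← hn.2.2 a ha]; exact j)
    refine ⟨hv, ?_, fun a ha => ?_⟩
    · rcases lab3 (s.T v x) with l | l | l
      · exact absurd l k0
      · exact l
      · by_cases j : s.S (s.T v x) v = true
        · exact absurd (k2 _ l j) (hs.Sirr _ l)
        · exact absurd (Or.inr (sm_refl _ _)) (k1 _ l j)
    · by_cases j : s.S a v = true
      · rw [j, k2 a ha j]
      · have i : ¬ s.S a (s.T v x) = true := fun i => k1 a ha j (Or.inl i)
        rw [Bool.not_eq_true] at i j
        rw [i, j]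
  have Tg : ∀ v, GoodOn w y' Z' (fun x => sm Z' v x = true) (s.T v) := by
    intro v
    rcases lab3 v with l | l | l
    · have e : ∀ x, sm Z' v x = true → sm s.Z v x = true ∧ s.lab x = 0 := by
        intro x k
        rw [sm_iff, zO _ _ l, ← sm_iff] at k
        exact ⟨k, by rw [← hs.labcl _ _ k, l]⟩
      constructor
      · intro x k hne
        obtain ⟨k1, k2⟩ := e x k
        have t := (h.Tgood v).1 x k1 hne
        unfold Tight at t ⊢
        rw [zO _ _ k2, y0 _ k2, y0 _ (by rw [← hs.labcl _ _ (h.Tcl k1), l])]; exact t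
      · intro x x' k k' hne
        rw [zO _ _ (e x k).2, zO _ _ (e x k).2, zO _ _ (e x' k').2]
        exact (h.Tgood v).2 x x' (e x k).1 (e x' k').1 hne
    · have e : ∀ x, sm Z' v x = true → s.Nd v x := by
        intro x k
        rcases sm_iff.1 k with rfl | k
        · exact ⟨l, l, fun _ _ => rfl⟩
        · exact (zX v x l k).2
      have e2 : ∀ x, s.Nd v x → x ≠ v → Z' x (s.T v x) = s.Z x (s.T v x) + 1 := by
        intro x k hne
        refine zN _ _ (fun j => hne ?_) (k.symm.trans (F2 v x k))
        exact hs.Ofix v x l (by have := k.2.1; omega) j.symm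
      constructor
      · intro x k hne
        have t := (hs.Ogood v l).1 x trivial hne
        have k1 := y1 x (e x k).2.1
        have k2 := y1 _ (F2 v x (e x k)).2.1
        unfold Tight at t ⊢
        rw [e2 x (e x k) (by rintro rfl; exact hne (h.Tfix _))]; omega
      · intro x x' k k' hne
        have g := (hs.Ogood v l).2 x x' trivial trivial hne
        rw [zN x x' hne ((e x k).symm.trans (e x' k'))]
        by_cases j : x = v
        · rw [e2 x' (e x' k') (fun i => hne (j.trans i.symm))]
          rw [j, h.Tfix, hd.diag] at g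
          rw [j]; omega
        by_cases j' : x' = v
        · rw [e2 x (e x k) j]
          rw [j', h.Tfix, hd.diag] at g
          rw [j']; omega
        rw [e2 x (e x k) j, e2 x' (e x' k') j']; omega
    · have e : ∀ x, sm Z' v x = true → sm s.Z v x = true ∧ s.lab x = 2 := by
        intro x k
        have k' : sm s.Z v x = true := by
          rw [sm_iff, zI _ _ l] at k
          rw [sm_iff]; omega
        exact ⟨k', by rw [← hs.labcl _ _ k', l]⟩
      constructor
      · intro x k hne
        obtain ⟨k1, k2⟩ := e x k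
        have t := (h.Tgood v).1 x k1 hne
        have k3 := h.Tins k1 (by rintro rfl; exact hne (h.Tfix _))
        unfold Tight at t ⊢
        rw [zI _ _ k2, y2 _ k2, y2 _ (by rw [← hs.labcl _ _ (h.Tcl k1), l])]; omega
      · intro x x' k k' hne
        have := (h.Tgood v).2 x x' (e x k).1 (e x' k').1 hne
        rw [zI _ _ (e x k).2, zI _ _ (e x k).2, zI _ _ (e x' k').2]; omega
  have hlt : Phi N y' s.M < Phi N s.y s.M := by
    have k := y1 _ hr
    refine phi_lt (r := s.r) (fun x e => Or.inl ⟨e, ?_⟩) (fun _ => by omega) (hs.Mr h) hs.yr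
      (h.lab_lt (by omega))
    by_cases l : s.lab x = 0
    · rw [y0 x l]
    · rw [Mfix x l e]; omega
  have yle : ∀ x, y' x ≤ s.y x + 1 := by
    intro x
    rcases lab3 x with l | l | l
    · rw [y0 x l]; omega
    · have := y1 x l; omega
    · rw [y2 x l]
  have Zle : ∀ u v, Z' u v ≤ s.Z u v + 1 := by
    intro u v; rw [hZ]; split_ifs <;> omega
  have sy : ∀ x, N ≤ x → y' x = 0 := fun x hx => by rw [y0 x (h.supplab x hx), h.suppy x hx]
  have sZ : ∀ u v, N ≤ u → Z' u v = 0 :=
    fun u v hu => by rw [zO u v (h.supplab u hu), h.suppZ u v hu]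
  have by' : ∀ x, y' x + Phi N y' s.M ≤ B := fun x => by
    have := h.bdy x; have := yle x; omega
  have bZ' : ∀ u v, Z' u v + Phi N y' s.M ≤ B := fun u v => by
    have := h.bdZ u v; have := Zle u v; omega
  subst hy' hZ'
  exact ⟨{ h with
    dual := hd'
    Mgood := Mg
    Tgood := Tg
    suppy := sy
    suppZ := sZ
    supplab := fun _ _ => rfl
    lab2 := fun _ => Nat.zero_le _
    bdy := by'
    bdZ := bZ' }, hlt⟩

end Pool.Agent.Shared.Matching.Alg
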