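import Mathlib
import Pool.Agent.Shared.Matching.DualStep

/-!
One step of the matching algorithm, and termination.
-/

set_option autoImplicit false

namespace Pool.Agent.Shared.Matching.Alg

open Finset Function

/-- First index below `N` satisfying `p`. -/
def pick1 (N : ℕ) (p : ℕ → Bool) : ℕ := ((List.range N).filter p).headD 0

/-- All pairs of indices below `N`. -/
def prs (N : ℕ) : List (ℕ × ℕ) := (List.range N).flatMap fun u => (List.range N).map fun v => (u, v)

/-- First pair of indices below `N` satisfying `p`. -/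
def pick2 (N : ℕ) (p : ℕ × ℕ → Bool) : ℕ × ℕ := ((prs N).filter p).headD (0, 0)

theorem headD_filter {α : Type} (l : List α) (p : α → Bool) (d : α) (h : l.any p = true) :
    (l.filter p).headD d ∈ l ∧ p ((l.filter p).headD d) = true := by
  rw [← List.mem_filter]
  obtain ⟨x, hx, hp⟩ := List.any_eq_true.1 h
  have : x ∈ l.filter p := List.mem_filter.2 ⟨hx, hp⟩
  revert this
  cases l.filter p <;> simp

theorem mem_prs {N : ℕ} {q : ℕ × ℕ} : q ∈ prs N ↔ q.1 < N ∧ q.2 < N := by
  obtain ⟨u, v⟩ := q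
  simp [prs]

theorem pick1_spec {N : ℕ} {p : ℕ → Bool} (h : (List.range N).any p = true) :
    pick1 N p < N ∧ p (pick1 N p) = true :=
  ⟨List.mem_range.1 (headD_filter _ p 0 h).1, (headD_filter _ p 0 h).2⟩

theorem pick2_spec {N : ℕ} {p : ℕ × ℕ → Bool} (h : (prs N).any p = true) :
    (pick2 N p).2 < N ∧ p (pick2 N p) = true :=
  ⟨(mem_prs.1 (headD_filter _ p _ h).1).2, (headD_filter _ p _ h).2⟩

/-- Tightness test. -/
def St.tb (s : St) (w : ℕ → ℕ → ℕ) (u v : ℕ) : Bool :=
  s.y u + s.y v + 2 * s.Z u v == 2 * w u v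

/-- Unmatched vertex with positive dual. -/
def St.e0 (s : St) (x : ℕ) : Bool := (s.M x == x) && Nat.ble 1 (s.y x)

/-- Outer vertex with zero dual. -/
def St.e1 (s : St) (u : ℕ) : Bool := (s.lab u == 1) && (s.y u == 0)

/-- Tight edge from an outer to an unlabelled vertex. -/
def St.e2 (s : St) (w : ℕ → ℕ → ℕ) (q : ℕ × ℕ) : Bool :=
  (s.lab q.1 == 1) && (s.lab q.2 == 0) && s.tb w q.1 q.2

/-- Tight edge between two different outer nodes. -/
def St.e3 (N : ℕ) (s : St) (w : ℕ → ℕ → ℕ) (q : ℕ × ℕ) : Bool :=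
  (s.lab q.1 == 1) && (s.lab q.2 == 1) && s.tb w q.1 q.2 && s.anySep N q.1 q.2

/-- Vertex of the blossom of `v` matched outside of it. -/
def St.eb (s : St) (v x : ℕ) : Bool := sm s.Z v x && !(sm s.Z v (s.M x))

/-- One step. -/
def step (N : ℕ) (w : ℕ → ℕ → ℕ) (s : St) : St :=
  cond (s.lab s.r == 1)
    (cond ((List.range N).any s.e1) (s.fin (s.T (pick1 N s.e1)))
      (cond ((prs N).any (s.e2 w))
        (cond ((List.range N).any (s.eb (pick2 N (s.e2 w)).2))
          (s.grow (pick2 N (s.e2 w)).1 (pick2 N (s.e2 w)).2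
            (pick1 N (s.eb (pick2 N (s.e2 w)).2)))
          (s.fin (s.augM (pick2 N (s.e2 w)).1 (pick2 N (s.e2 w)).2)))
        (cond ((prs N).any (s.e3 N w))
          (s.blos (pick2 N (s.e3 N w)).1 (pick2 N (s.e3 N w)).2) (s.dual N))))
    (cond ((List.range N).any s.e0) (s.init (pick1 N s.e0)) s)

/-- The invariant. -/
def Invar (N B : ℕ) (w : ℕ → ℕ → ℕ) (s : St) : Prop := Base N B w s ∧ (s.lab s.r = 1 → Srch w s)

/-- The potential. -/
def Psi (N : ℕ) (s : St) : ℕ :=
  Phi N s.y s.M * (N + 2) + if s.lab s.r = 1 then N - cnt N s.lab else N + 1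

/-- Final states. -/
def Done (N : ℕ) (w : ℕ → ℕ → ℕ) (s : St) : Prop :=
  step N w s = s ∧ ∀ x < N, s.M x = x → s.y x = 0

variable {N B : ℕ} {w : ℕ → ℕ → ℕ} {s : St}

theorem psi_fin {s' : St} (h0 : s'.lab s'.r = 0) (h1 : Phi N s'.y s'.M < Phi N s.y s.M) :
    Psi N s' < Psi N s := by
  unfold Psi
  rw [if_neg (by omega)]
  have := Nat.mul_le_mul_right (N + 2) (Nat.succ_le_of_lt h1)
  rw [Nat.succ_mul] at this
  omega

theorem psi_cnt {s' : St} (hl : s.lab s.r = 1) (hl' : s'.lab s'.r = 1) (h1 : s'.y = s.y)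
    (h2 : s'.M = s.M) (h3 : cnt N s.lab < cnt N s'.lab) : Psi N s' < Psi N s := by
  unfold Psi
  rw [if_pos hl, if_pos hl', h1, h2]
  have := cnt_le N s'.lab
  omega

theorem step_ok (hw : ∀ u v, w u v = w v u) (hw0 : ∀ u v, N ≤ v → w u v = 0)
    (hi : Invar N B w s) : Invar N B w (step N w s) ∧ (Done N w s ∨ Psi N (step N w s) < Psi N s) := by
  obtain ⟨h, hs⟩ := hi
  have tb_iff : ∀ u v, s.tb w u v = true ↔ Tight w s.y s.Z u v := by
    intro u v; simp [St.tb, Tight]
  by_cases hl : s.lab s.r = 1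
  · have hs := hs hl
    by_cases c1 : (List.range N).any s.e1 = true
    · have e : step N w s = s.fin (s.T (pick1 N s.e1)) := by simp only [step, hl, c1]; rfl
      have k := (pick1_spec c1).2
      simp only [St.e1, Bool.and_eq_true, beq_iff_eq] at k
      obtain ⟨k1, k2⟩ := improve h hs k.1 k.2
      rw [e]
      exact ⟨⟨k1, fun j => absurd j (by simp [St.fin])⟩, Or.inr (psi_fin rfl k2)⟩
    rw [Bool.not_eq_true] at c1
    by_cases c2 : (prs N).any (s.e2 w) = true
    · obtain ⟨kN, k⟩ := pick2_spec c2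
      obtain ⟨q, hq⟩ : ∃ q, q = pick2 N (s.e2 w) := ⟨_, rfl⟩
      rw [← hq] at kN k
      simp only [St.e2, Bool.and_eq_true, beq_iff_eq, tb_iff] at k
      by_cases c3 : (List.range N).any (s.eb q.2) = true
      · have e : step N w s = s.grow q.1 q.2 (pick1 N (s.eb q.2)) := by
          simp only [step, hl, c1, c2, ← hq, c3]; rfl
        have j := (pick1_spec c3).2
        simp only [St.eb, Bool.and_eq_true, Bool.not_eq_true'] at j
        obtain ⟨k1, k2, k3⟩ := grow_ok hw h hs k.1.1 k.1.2 kN k.2 j.1 (by simp [j.2])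
        rw [e]
        exact ⟨⟨k1, fun _ => k2⟩, Or.inr (psi_cnt hl k2.labr rfl rfl k3)⟩
      · rw [Bool.not_eq_true] at c3
        have e : step N w s = s.fin (s.augM q.1 q.2) := by
          simp only [step, hl, c1, c2, ← hq, c3]; rfl
        obtain ⟨k1, k2⟩ := augment hw h hs k.1.1 k.1.2 kN k.2 (fun x hx => by
          have := List.any_eq_false.1 c3 x (List.mem_range.2 (h.sm_lt kN hx))
          simpa [St.eb, hx] using this)
        rw [e]
        exact ⟨⟨k1, fun j => absurd j (by simp [St.fin])⟩, Or.inr (psi_fin rfl k2)⟩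
    rw [Bool.not_eq_true] at c2
    by_cases c3 : (prs N).any (s.e3 N w) = true
    · have k := (pick2_spec c3).2
      obtain ⟨q, hq⟩ : ∃ q, q = pick2 N (s.e3 N w) := ⟨_, rfl⟩
      rw [← hq] at k
      simp only [St.e3, Bool.and_eq_true, beq_iff_eq, tb_iff, St.anySep, List.any_eq_true] at k
      obtain ⟨⟨⟨j1, j2⟩, j3⟩, a, -, j4⟩ := k
      have e : step N w s = s.blos q.1 q.2 := by
        simp only [step, hl, c1, c2, ← hq, c3]; rfl
      obtain ⟨k1, k2, k3⟩ := blos_ok hw h hs j1 j2 j3 j4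
      rw [e]
      exact ⟨⟨k1, fun _ => k2⟩, Or.inr (psi_cnt hl k2.labr rfl rfl k3)⟩
    rw [Bool.not_eq_true] at c3
    have e : step N w s = s.dual N := by simp only [step, hl, c1, c2, c3]; rfl
    obtain ⟨k1, k2⟩ := dual_ok hw hw0 h hs
      (fun u hu => by
        have := List.any_eq_false.1 c1 u (List.mem_range.2 (h.lab_lt (by omega)))
        simp [St.e1, hu] at this
        omega)
      (fun u v hu hv hvN ht => by
        have := List.any_eq_false.1 c2 (u, v) (mem_prs.2 ⟨h.lab_lt (x := u) (by omega), hvN⟩)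
        simp [St.e2, hu, hv, tb_iff, ht] at this)
      (fun u v hu hv ht => by
        have := List.any_eq_false.1 c3 (u, v)
          (mem_prs.2 ⟨h.lab_lt (x := u) (by omega), h.lab_lt (x := v) (by omega)⟩)
        simpa [St.e3, hu, hv, tb_iff, ht] using this)
    rw [e]
    exact ⟨⟨k1, fun j => absurd j (by simp [St.dual])⟩, Or.inr (psi_fin rfl k2)⟩
  · by_cases c0 : (List.range N).any s.e0 = true
    · have e : step N w s = s.init (pick1 N s.e0) := by
        simp only [step, beq_false_of_ne hl, c0]; rfl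
      obtain ⟨kN, k⟩ := pick1_spec c0
      simp only [St.e0, Bool.and_eq_true, beq_iff_eq, Nat.ble_eq] at k
      obtain ⟨k1, k2⟩ := init_ok h kN k.1 k.2
      rw [e]
      refine ⟨⟨k1, fun _ => k2⟩, Or.inr ?_⟩
      unfold Psi
      rw [if_pos k2.labr, if_neg hl]
      change Phi N s.y s.M * (N + 2) + _ < _
      omega
    · rw [Bool.not_eq_true] at c0
      have e : step N w s = s := by simp only [step, beq_false_of_ne hl, c0]; rfl
      refine ⟨by rw [e]; exact ⟨h, hs⟩, Or.inl ⟨e, fun x hx k => ?_⟩⟩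
      have := List.any_eq_false.1 c0 x (List.mem_range.2 hx)
      simp [St.e0, k] at this
      omega

theorem iter_ok (hw : ∀ u v, w u v = w v u) (hw0 : ∀ u v, N ≤ v → w u v = 0)
    (hi : Invar N B w s) (k : ℕ) : Invar N B w ((step N w)^[k] s) ∧
      (Done N w ((step N w)^[k] s) ∨ Psi N ((step N w)^[k] s) + k ≤ Psi N s) := by
  induction k with
  | zero => exact ⟨hi, Or.inr le_rfl⟩
  | succ k ih =>
    obtain ⟨h1, h2⟩ := step_ok hw hw0 ih.1
    rw [iterate_succ_apply']
    refine ⟨h1, ?_⟩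
    rcases ih.2 with h3 | h3
    · rw [h3.1]; exact Or.inl h3
    rcases h2 with h2 | h2
    · rw [h2.1]; exact Or.inl h2
    · exact Or.inr (by omega)

end Pool.Agent.Shared.Matching.Alg
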