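import Mathlib
import Pool.Agent.Shared.PolyTime.Typed
import Pool.Agent.Shared.Matching.Step

/-!
Maximum weight matching in general graphs (weights in unary) is polynomial-time computable.
-/

set_option autoImplicit false

namespace Pool.Agent.Shared.Matching.Alg

open Finset Function Pool.Agent.Shared.PolyTime Enc

/-- Concrete states. -/
abbrev CSt : Type :=
  List ℕ × List (List ℕ) × List ℕ × List (List ℕ) × List ℕ × List (List Bool) × ℕ

/-- Table of a function. -/
def tab {β : Type} (N : ℕ) (f : ℕ → β) : List β := (List.range N).map fun i => f i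

/-- Table of a function of two arguments. -/
def tab2 {β : Type} (N : ℕ) (f : ℕ → ℕ → β) : List (List β) :=
  (List.range N).map fun i => (List.range N).map fun j => f i j

/-- The state described by a concrete state. -/
def toSt (c : CSt) : St where
  y := fun x => c.1.getD x 0
  Z := fun u v => (c.2.1.getD u []).getD v 0
  M := fun x => c.2.2.1.getD x x
  T := fun v x => (c.2.2.2.1.getD v []).getD x x
  lab := fun x => c.2.2.2.2.1.getD x 0
  S := fun a x => (c.2.2.2.2.2.1.getD a []).getD x false
  r := c.2.2.2.2.2.2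

/-- The concrete state describing a state. -/
def rf (N : ℕ) (s : St) : CSt :=
  (tab N s.y, tab2 N s.Z, tab N s.M, tab2 N s.T, tab N s.lab, tab2 N s.S, s.r)

theorem tab_getD {β : Type} (N : ℕ) (f : ℕ → β) (i : ℕ) (d : β) (h : N ≤ i → f i = d) :
    (tab N f).getD i d = f i := by
  by_cases hi : i < N
  · simp [tab, List.getD_eq_getElem?_getD, hi]
  · rw [h (by omega)]; simp [tab, List.getD_eq_getElem?_getD, hi]

theorem tab2_getD {β : Type} (N : ℕ) (f : ℕ → ℕ → β) (i j : ℕ) (d : β)
    (h : N ≤ i → f i j = d) (h' : N ≤ j → f i j = d) :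
    ((tab2 N f).getD i []).getD j d = f i j := by
  by_cases hi : i < N
  · have : (tab2 N f).getD i [] = tab N (f i) := by
      simp [tab, tab2, List.getD_eq_getElem?_getD, hi]
    rw [this, tab_getD N (f i) j d h']
  · rw [h (by omega)]; simp [tab2, List.getD_eq_getElem?_getD, hi]

theorem abs_rf {N B : ℕ} {w : ℕ → ℕ → ℕ} {s : St} (h : Base N B w s) : toSt (rf N s) = s := by
  obtain ⟨y, Z, M, T, lab, S, r⟩ := s
  simp only [toSt, rf, St.mk.injEq, and_true]
  refine ⟨?_, ?_, ?_, ?_, ?_, ?_⟩
  · funext x; exact tab_getD N y x 0 (h.suppy x)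
  · funext u v
    exact tab2_getD N Z u v 0 (h.suppZ u v) fun k => (h.dual.symm u v).trans (h.suppZ v u k)
  · funext x; exact tab_getD N M x x (h.suppM x)
  · funext v x; exact tab2_getD N T v x x (h.suppT1 v x) (h.suppT2 v x)
  · funext x; exact tab_getD N lab x 0 (h.supplab x)
  · funext a x; exact tab2_getD N S a x false (h.suppS1 a x) (h.suppS2 a x)

theorem len_tab {β : Type} [Enc β] (N D : ℕ) (f : ℕ → β)
    (h : ∀ i < N, (enc (f i)).length ≤ D) : (enc (tab N f)).length ≤ N * (2 * D + 1) := by
  have := len_le_mul (tab N f) D fun a ha => by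
    obtain ⟨i, hi, rfl⟩ := List.mem_map.1 ha
    exact h i (List.mem_range.1 hi)
  simpa [tab] using this

theorem len_tab2 {β : Type} [Enc β] (N D : ℕ) (f : ℕ → ℕ → β)
    (h : ∀ i < N, ∀ j < N, (enc (f i j)).length ≤ D) :
    (enc (tab2 N f)).length ≤ N * (2 * (N * (2 * D + 1)) + 1) :=
  len_tab N _ (fun i => tab N (f i)) fun i hi => len_tab N D (f i) (h i hi)

theorem len_rf {N B : ℕ} {w : ℕ → ℕ → ℕ} {s : St} (h : Base N B w s) {D : ℕ}
    (h1 : B ≤ D) (h2 : N + 2 ≤ D) :
    (enc (rf N s)).length ≤ 6 * (D * (2 * D + 1)) + 6 * (D * (2 * (D * (2 * D + 1)) + 1)) +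
      D + 6 := by
  have a1 := len_tab N D s.y fun i _ => by have := h.bdy i; simp; omega
  have a2 := len_tab2 N D s.Z fun i _ j _ => by have := h.bdZ i j; simp; omega
  have a3 := len_tab N D s.M fun i hi => by have := h.M_lt hi; simp; omega
  have a4 := len_tab2 N D s.T fun i _ j hj => by have := h.T_lt i hj; simp; omega
  have a5 := len_tab N D s.lab fun i _ => by have := h.lab2 i; simp; omega
  have a6 := len_tab2 N D s.S fun i _ j _ => by simp; omega
  have a7 := h.rle
  have b1 : N * (2 * D + 1) ≤ D * (2 * D + 1) := Nat.mul_le_mul_right _ (by omega)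
  have b2 : N * (2 * (N * (2 * D + 1)) + 1) ≤ D * (2 * (D * (2 * D + 1)) + 1) :=
    Nat.mul_le_mul (by omega) (by omega)
  simp only [rf, len_prod, len_nat]
  omega

/-- Symmetrized weights. -/
def sw (W : List (List ℕ)) (i j : ℕ) : ℕ := min (wt W i j) (wt W j i)

section
variable {α : Type} [Enc α]

theorem pf_rf_id : PF fun a : ℕ × CSt => rf a.1 (toSt a.2) := by
  simp only [rf, toSt, tab, tab2]; fun_prop

theorem pf_improve : PF fun a : ℕ × CSt × ℕ =>
    rf a.1 ((toSt a.2.1).fin ((toSt a.2.1).T a.2.2)) := by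
  simp only [rf, toSt, tab, tab2, St.fin]; fun_prop

theorem pf_aug : PF fun a : ℕ × CSt × ℕ × ℕ =>
    rf a.1 ((toSt a.2.1).fin ((toSt a.2.1).augM a.2.2.1 a.2.2.2)) := by
  simp only [rf, toSt, tab, tab2, St.fin, St.augM, link, p3, sm]; fun_prop

theorem pf_init : PF fun a : ℕ × CSt × ℕ => rf a.1 ((toSt a.2.1).init a.2.2) := by
  simp only [rf, toSt, tab, tab2, St.init, p3, sm]; fun_prop

theorem pf_grow : PF fun a : ℕ × CSt × ℕ × ℕ × ℕ =>
    rf a.1 ((toSt a.2.1).grow a.2.2.1 a.2.2.2.1 a.2.2.2.2) := by
  simp only [rf, toSt, tab, tab2, St.grow, link, p3, sm]; fun_prop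

theorem pf_blos : PF fun a : ℕ × CSt × ℕ × ℕ =>
    rf a.1 ((toSt a.2.1).blos a.2.2.1 a.2.2.2) := by
  simp only [rf, toSt, tab, tab2, St.blos, St.sep, link, p3, sm]; fun_prop

theorem pf_dual : PF fun a : ℕ × CSt => rf a.1 ((toSt a.2).dual a.1) := by
  simp only [rf, toSt, tab, tab2, St.dual, St.anySep, St.sep]; fun_prop

theorem pf_prs {N : α → ℕ} (hN : PF N) : PF fun a => prs (N a) := by
  unfold prs; fun_prop

theorem pf_pick1 {N : α → ℕ} {p : α → ℕ → Bool} (hN : PF N)
    (hp : PF fun q : α × ℕ => p q.1 q.2) : PF fun a => pick1 (N a) (p a) :=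
  PF.headD (PF.filter hN.range hp) (PF.const 0)

theorem pf_pick2 {N : α → ℕ} {p : α → ℕ × ℕ → Bool} (hN : PF N)
    (hp : PF fun q : α × ℕ × ℕ => p q.1 q.2) : PF fun a => pick2 (N a) (p a) :=
  PF.headD (PF.filter (pf_prs hN) hp) (PF.const _)

end

/-- One step on concrete states. -/
def cstep (W : List (List ℕ)) (c : CSt) : CSt := rf W.length (step W.length (sw W) (toSt c))

theorem pf_cstep : PF fun a : List (List ℕ) × CSt => cstep a.1 a.2 := by
  have hN : PF fun a : List (List ℕ) × CSt => a.1.length := by fun_prop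
  have h0 : PF fun q : (List (List ℕ) × CSt) × ℕ => (toSt q.1.2).e0 q.2 := by
    simp only [toSt, St.e0]; fun_prop
  have h1 : PF fun q : (List (List ℕ) × CSt) × ℕ => (toSt q.1.2).e1 q.2 := by
    simp only [toSt, St.e1]; fun_prop
  have h2 : PF fun q : (List (List ℕ) × CSt) × ℕ × ℕ => (toSt q.1.2).e2 (sw q.1.1) q.2 := by
    simp only [toSt, St.e2, St.tb, sw, wt]; fun_prop
  have h3 : PF fun q : (List (List ℕ) × CSt) × ℕ × ℕ =>
      (toSt q.1.2).e3 q.1.1.length (sw q.1.1) q.2 := by
    simp only [toSt, St.e3, St.tb, St.anySep, St.sep, sw, wt]; fun_prop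
  have hb0 : PF fun q : CSt × ℕ × ℕ => (toSt q.1).eb q.2.1 q.2.2 := by
    simp only [toSt, St.eb, sm]; fun_prop
  have hl : PF fun a : List (List ℕ) × CSt => (toSt a.2).lab (toSt a.2).r == 1 := by
    simp only [toSt]; fun_prop
  have p0 := pf_pick1 (p := fun a : List (List ℕ) × CSt => (toSt a.2).e0) hN h0
  have p1 := pf_pick1 (p := fun a : List (List ℕ) × CSt => (toSt a.2).e1) hN h1
  have p2 := pf_pick2 (p := fun a : List (List ℕ) × CSt => (toSt a.2).e2 (sw a.1)) hN h2
  have p3 := pf_pick2 (p := fun a : List (List ℕ) × CSt => (toSt a.2).e3 a.1.length (sw a.1)) hN h3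
  have hc : PF fun a : List (List ℕ) × CSt => a.2 := by fun_prop
  have hb : PF fun q : (List (List ℕ) × CSt) × ℕ =>
      (toSt q.1.2).eb (pick2 q.1.1.length ((toSt q.1.2).e2 (sw q.1.1))).2 q.2 :=
    hb0.comp ((hc.comp PF.id'.fst).pair ((p2.snd.comp PF.id'.fst).pair PF.id'.snd))
  have pb := pf_pick1 (p := fun a : List (List ℕ) × CSt =>
    (toSt a.2).eb (pick2 a.1.length ((toSt a.2).e2 (sw a.1))).2) hN hb
  have main := PF.cond' hl
    (PF.cond' (PF.any (f := fun a : List (List ℕ) × CSt => (toSt a.2).e1) hN.range h1)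
      (pf_improve.comp (hN.pair (hc.pair p1)))
      (PF.cond' (PF.any (f := fun a : List (List ℕ) × CSt => (toSt a.2).e2 (sw a.1)) (pf_prs hN) h2)
        (PF.cond' (PF.any (f := fun a : List (List ℕ) × CSt =>
            (toSt a.2).eb (pick2 a.1.length ((toSt a.2).e2 (sw a.1))).2) hN.range hb)
          (pf_grow.comp (hN.pair (hc.pair (p2.fst.pair (p2.snd.pair pb)))))
          (pf_aug.comp (hN.pair (hc.pair p2))))
        (PF.cond' (PF.any (f := fun a : List (List ℕ) × CSt =>
            (toSt a.2).e3 a.1.length (sw a.1)) (pf_prs hN) h3)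
          (pf_blos.comp (hN.pair (hc.pair p3))) (pf_dual.comp (hN.pair hc)))))
    (PF.cond' (PF.any (f := fun a : List (List ℕ) × CSt => (toSt a.2).e0) hN.range h0)
      (pf_init.comp (hN.pair (hc.pair p0))) (pf_rf_id.comp (hN.pair hc)))
  refine main.of_eq fun a => ?_
  simp only [cstep, step, Bool.apply_cond (rf a.1.length)]

/-- The initial state. -/
def st0 (N n : ℕ) : St where
  y := fun x => cond (Nat.blt x N) n 0
  Z := fun _ _ => 0
  M := fun x => x
  T := fun _ x => x
  lab := fun _ => 0
  S := fun _ _ => false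
  r := 0

theorem wt_le (W : List (List ℕ)) (i j : ℕ) : wt W i j ≤ (enc W).length := by
  unfold wt
  by_cases hi : i < W.length
  · have h1 : W.getD i [] ∈ W := by simp [List.getD_eq_getElem?_getD, hi]
    by_cases hj : j < (W.getD i []).length
    · have h2 : (W.getD i []).getD j 0 ∈ W.getD i [] := by
        rw [List.getD_eq_getElem _ _ hj]; exact List.getElem_mem _
      have := (len_le_of_mem h2).trans (len_le_of_mem h1)
      rwa [len_nat] at this
    · rw [List.getD_eq_default _ _ (by omega)]; omega
  · rw [List.getD_eq_default W _ (by omega)]; simp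

theorem sw_symm (W : List (List ℕ)) (u v : ℕ) : sw W u v = sw W v u := min_comm _ _

theorem sw_zero (W : List (List ℕ)) (u v : ℕ) (h : W.length ≤ v) : sw W u v = 0 := by
  have : wt W v u = 0 := by unfold wt; rw [List.getD_eq_default W _ h]; simp
  unfold sw; omega

theorem phi0 (N n : ℕ) : Phi N (st0 N n).y (st0 N n).M ≤ N * n := by
  have := sum_le_card_nsmul (range N) (fun x => if (st0 N n).M x = x then (st0 N n).y x else 0) n
    fun x _ => by simp only [st0]; cases Nat.blt x N <;> simp
  simpa [Phi] using this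

theorem inv0 (W : List (List ℕ)) : Invar W.length ((enc W).length + W.length * (enc W).length) (sw W)
    (st0 W.length (enc W).length) := by
  have hp := phi0 W.length (enc W).length
  have hy : ∀ x, (st0 W.length (enc W).length).y x =
      if x < W.length then (enc W).length else 0 := by
    intro x; simp only [st0, Bool.cond_eq_ite, Nat.blt_eq]
  have hg : ∀ A : ℕ → Prop, GoodOn (sw W) (st0 W.length (enc W).length).y
      (st0 W.length (enc W).length).Z A (fun x => x) :=
    fun A => ⟨fun x _ k => absurd rfl k, fun _ _ _ _ _ => Nat.zero_le _⟩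
  refine ⟨?_, fun k => absurd k (by simp [st0])⟩
  exact
    { dual := ⟨fun _ _ => rfl, fun _ => rfl, fun _ _ _ _ => le_rfl, fun u v _ => by
        rw [hy, hy]
        have h1 := sw_zero W u v
        have h2 := sw_zero W v u
        have h3 := sw_symm W u v
        have h4 : sw W u v ≤ (enc W).length := (min_le_left _ _).trans (wt_le W u v)
        split_ifs <;> omega, fun _ _ k => absurd k (by simp [st0])⟩
      Minv := fun _ => rfl
      Mgood := hg _
      Tinv := fun _ _ => rfl
      Tfix := fun _ => rfl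
      Tgood := fun _ => hg _
      suppy := fun x hx => by rw [hy, if_neg (by omega)]
      suppZ := fun _ _ _ => rfl
      suppM := fun _ _ => rfl
      suppT1 := fun _ _ _ => rfl
      suppT2 := fun _ _ _ => rfl
      supplab := fun _ _ => rfl
      suppS1 := fun _ _ _ => rfl
      suppS2 := fun _ _ _ => rfl
      lab2 := fun _ => Nat.zero_le _
      rle := Nat.zero_le _
      bdy := fun x => by rw [hy]; split_ifs <;> omega
      bdZ := fun _ _ => by change 0 + _ ≤ _; omega }

theorem iter_cstep (W : List (List ℕ)) (k : ℕ) :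
    (cstep W)^[k] (rf W.length (st0 W.length (enc W).length)) =
      rf W.length ((step W.length (sw W))^[k] (st0 W.length (enc W).length)) := by
  induction k with
  | zero => rfl
  | succ k ih =>
    rw [iterate_succ_apply', ih, iterate_succ_apply', cstep,
      abs_rf (iter_ok (sw_symm W) (sw_zero W) (inv0 W) k).1.1]

end Pool.Agent.Shared.Matching.Alg

namespace Pool.Agent.Shared.Matching

open Finset Function Pool.Agent.Shared.PolyTime Enc Alg

/-- Maximum weight matching in general graphs, weights in unary, is polynomial. -/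
theorem exists_maxWeightMatching : ∃ F : List (List ℕ) → List ℕ, PF F ∧
    ∀ W : List (List ℕ), (∀ i j, wt W i j = wt W j i) →
      IsMate W.length (fun i => (F W).getD i i) ∧
      ∀ m : ℕ → ℕ, IsMate W.length m →
        mateWt W.length W m ≤ mateWt W.length W (fun i => (F W).getD i i) := by
  have hn : PF fun W : List (List ℕ) => (enc W).length := PF.id'.encLen
  have hi0 : PF fun a : ℕ × ℕ => rf a.1 (st0 a.1 a.2) := by
    simp only [rf, st0, tab, tab2]; fun_prop
  have hF := PF.iterate (k := fun W : List (List ℕ) =>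
      W.length * (enc W).length * (W.length + 2) + W.length + 2)
    (i := fun W => rf W.length (st0 W.length (enc W).length)) (st := cstep) (by fun_prop)
    (hi0.comp (PF.id'.length.pair hn)) pf_cstep (by
      obtain ⟨D, hD⟩ : ∃ D : Polynomial ℕ, D = Polynomial.X + Polynomial.X * Polynomial.X + 2 :=
        ⟨_, rfl⟩
      refine ⟨6 * (D * (2 * D + 1)) + 6 * (D * (2 * (D * (2 * D + 1)) + 1)) + D + 6,
        fun W j _ => ?_⟩
      have h1 := length_le_len W
      have h2 := Nat.mul_le_mul_right (enc W).length h1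
      have h3 : D.eval (enc W).length = (enc W).length + (enc W).length * (enc W).length + 2 := by
        simp [hD]
      have := len_rf (iter_ok (sw_symm W) (sw_zero W) (inv0 W) j).1.1
        (D := D.eval (enc W).length) (by omega) (by omega)
      rw [iter_cstep]
      simpa using this)
  refine ⟨_, hF.snd.snd.fst, fun W hW => ?_⟩
  obtain ⟨⟨hb, -⟩, hd⟩ := iter_ok (sw_symm W) (sw_zero W) (inv0 W)
    (W.length * (enc W).length * (W.length + 2) + W.length + 2)
  rw [iter_cstep]
  obtain ⟨s, hs⟩ : ∃ s, s = (step W.length (sw W))^[W.length * (enc W).length * (W.length + 2) +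
    W.length + 2] (st0 W.length (enc W).length) := ⟨_, rfl⟩
  rw [← hs] at hb hd ⊢
  have hM : (fun i => (rf W.length s).2.2.1.getD i i) = s.M :=
    funext fun i => tab_getD _ _ i i (hb.suppM i)
  rw [hM]
  have hm : IsMate W.length s.M := fun i hi => ⟨hb.M_lt hi, hb.Minv i⟩
  have hsw : sw W = wt W := by funext i j; rw [sw, ← hW i j, min_self]
  have hdone : Done W.length (sw W) s := by
    refine hd.resolve_right fun k => ?_
    have h1 := Nat.mul_le_mul_right (W.length + 2) (phi0 W.length (enc W).length)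
    have h2 : Psi W.length (st0 W.length (enc W).length) =
        Phi W.length (st0 W.length (enc W).length).y (st0 W.length (enc W).length).M *
          (W.length + 2) + (W.length + 1) := by
      unfold Psi; rw [if_neg (by simp [st0])]
    omega
  refine ⟨hm, fun m hm' => ?_⟩
  have h1 := hb.dual
  have h2 := hb.Mgood
  rw [hsw] at h1 h2
  exact optimal h1 hm hm' h2 hdone.2

end Pool.Agent.Shared.Matching
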