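import Mathlib

/-!
The combinatorial core of exact matching: permutations of sets of slots, skips, and small moves.
-/

set_option autoImplicit false

namespace Pool.Agent.Shared.Matching.Exact

open Finset Function

/-- `σ` and `τ` are inverse bijections of `S`. -/
structure Pm (S : Finset ℕ) (σ τ : ℕ → ℕ) : Prop where
  m1 : ∀ r ∈ S, σ r ∈ S
  m2 : ∀ r ∈ S, τ r ∈ S
  li : ∀ r ∈ S, τ (σ r) = r
  ri : ∀ r ∈ S, σ (τ r) = r

variable (M : ℕ → ℕ → ℤ) (ρ : ℕ → ℤ)

/-- Change of the number of blue edges. -/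
def gain (S : Finset ℕ) (σ : ℕ → ℕ) : ℤ := ∑ r ∈ S, (M r (σ r) - ρ r)

/-- Effect of skipping `s`. -/
def eff (σ τ : ℕ → ℕ) (s : ℕ) : ℤ := M (τ s) (σ s) - M (τ s) s - M s (σ s) + ρ s

theorem skip {S : Finset ℕ} {σ τ : ℕ → ℕ} (h : Pm S σ τ) {s : ℕ} (hs : s ∈ S) :
    ∃ σ' τ', Pm (S.erase s) σ' τ' ∧ gain M ρ (S.erase s) σ' = gain M ρ S σ + eff M ρ σ τ s ∧
      ∀ t, t ≠ σ s → t ≠ τ s → eff M ρ σ' τ' t = eff M ρ σ τ t := by
  have inj1 : ∀ a ∈ S, ∀ b ∈ S, σ a = σ b → a = b := fun a ha b hb e => by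
    rw [← h.li a ha, e, h.li b hb]
  have inj2 : ∀ a ∈ S, ∀ b ∈ S, τ a = τ b → a = b := fun a ha b hb e => by
    rw [← h.ri a ha, e, h.ri b hb]
  refine ⟨update σ (τ s) (σ s), update τ (σ s) (τ s), ⟨?_, ?_, ?_, ?_⟩, ?_, ?_⟩
  · intro r hr
    obtain ⟨h1, h2⟩ := mem_erase.1 hr
    by_cases e : r = τ s
    · subst e
      rw [update_self]
      refine mem_erase.2 ⟨fun k => h1 ?_, h.m1 s hs⟩
      rw [← k, h.li s hs, k]
    · rw [update_of_ne e]
      refine mem_erase.2 ⟨fun k => e ?_, h.m1 r h2⟩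
      rw [← k, h.li r h2]
  · intro r hr
    obtain ⟨h1, h2⟩ := mem_erase.1 hr
    by_cases e : r = σ s
    · subst e
      rw [update_self]
      refine mem_erase.2 ⟨fun k => h1 ?_, h.m2 s hs⟩
      rw [← k, h.ri s hs, k]
    · rw [update_of_ne e]
      refine mem_erase.2 ⟨fun k => e ?_, h.m2 r h2⟩
      rw [← k, h.ri r h2]
  · intro r hr
    obtain ⟨h1, h2⟩ := mem_erase.1 hr
    by_cases e : r = τ s
    · subst e
      rw [update_self, update_self]
    · rw [update_of_ne e, update_of_ne fun k => h1 (inj1 r h2 s hs k), h.li r h2]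
  · intro r hr
    obtain ⟨h1, h2⟩ := mem_erase.1 hr
    by_cases e : r = σ s
    · subst e
      rw [update_self, update_self]
    · rw [update_of_ne e, update_of_ne fun k => h1 (inj2 r h2 s hs k), h.ri r h2]
  · unfold gain eff
    rw [← add_sum_erase S _ hs]
    by_cases e : τ s = s
    · rw [e, sum_congr rfl fun r hr => by rw [update_of_ne (mem_erase.1 hr).1]]
      have : σ s = s := by rw [← e, h.ri s hs, e]
      rw [this]; ring
    · have hm : τ s ∈ S.erase s := mem_erase.2 ⟨e, h.m2 s hs⟩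
      rw [← add_sum_erase _ _ hm, ← add_sum_erase _ _ hm, update_self, h.ri s hs,
        sum_congr rfl fun r hr => by rw [update_of_ne (mem_erase.1 hr).1]]
      ring
  · intro t h1 h2
    unfold eff
    rw [update_of_ne h1, update_of_ne h2]

theorem skips (L : List ℤ) : ∀ {S : Finset ℕ} {σ τ : ℕ → ℕ}, Pm S σ τ →
    (∀ v ∈ L, 3 * L.length < #{t ∈ S | eff M ρ σ τ t = v}) →
    ∃ S' σ' τ', Pm S' σ' τ' ∧ S' ⊆ S ∧ #S' + L.length = #S ∧
      gain M ρ S' σ' = gain M ρ S σ + L.sum := by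
  induction L with
  | nil => intro S σ τ h _; exact ⟨S, σ, τ, h, Subset.rfl, rfl, by simp⟩
  | cons v L ih =>
    intro S σ τ h hL
    obtain ⟨s, hs⟩ := card_pos.1 ((Nat.zero_le _).trans_lt (hL v (by simp)))
    obtain ⟨hs1, hs2⟩ := mem_filter.1 hs
    obtain ⟨σ1, τ1, h1, h2, h3⟩ := skip M ρ h hs1
    obtain ⟨S', σ', τ', k1, k2, k3, k4⟩ := ih h1 fun w hw => by
      have a1 := hL w (by simp [hw])
      have a2 : ({t ∈ S | eff M ρ σ τ t = w} : Finset ℕ) ⊆
          {t ∈ S.erase s | eff M ρ σ1 τ1 t = w} ∪ {s, σ s, τ s} := by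
        intro t ht
        obtain ⟨t1, t2⟩ := mem_filter.1 ht
        by_cases e : t ∈ ({s, σ s, τ s} : Finset ℕ)
        · exact mem_union_right _ e
        · simp only [mem_insert, mem_singleton, not_or] at e
          exact mem_union_left _ (mem_filter.2 ⟨mem_erase.2 ⟨e.1, t1⟩,
            by rw [h3 t e.2.1 e.2.2, t2]⟩)
      have a3 := (card_le_card a2).trans (card_union_le _ _)
      have a4 : #({s, σ s, τ s} : Finset ℕ) ≤ 3 := card_le_three
      simp only [List.length_cons] at a1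
      omega
    refine ⟨S', σ', τ', k1, k2.trans (erase_subset _ _), ?_, ?_⟩
    · have := card_erase_add_one hs1
      simp only [List.length_cons]; omega
    · rw [k4, h2, hs2, List.sum_cons]; ring

theorem sum_ind {f : ℕ → ℤ} (hf : ∀ r, f r = 0 ∨ f r = 1) (S : Finset ℕ) :
    ∑ r ∈ S, f r = #{r ∈ S | f r = 1} ∧ #{r ∈ S | f r = 0} + #{r ∈ S | f r = 1} = #S := by
  constructor
  · rw [card_filter]; push_cast
    exact sum_congr rfl fun r _ => by rcases hf r with h | h <;> simp [h]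
  · rw [← card_filter_add_card_filter_not (s := S) (fun r => f r = 0)]
    congr 2
    exact filter_congr fun r _ => by rcases hf r with h | h <;> simp [h]

variable {M ρ}

theorem small_of_min (hM : ∀ r s, M r s = 0 ∨ M r s = 1) (hρ : ∀ r, ρ r = 0 ∨ ρ r = 1)
    {S : Finset ℕ} {σ τ : ℕ → ℕ} (h : Pm S σ τ) {g : ℤ} (h1 : 1 ≤ gain M ρ S σ)
    (h2 : gain M ρ S σ ≤ g)
    (hmin : ∀ S' σ' τ', Pm S' σ' τ' → S' ⊆ S → #S' < #S → 1 ≤ gain M ρ S' σ' →
      g < gain M ρ S' σ') :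
    ∃ c : ℤ, (c = 0 ∨ c = 1) ∧ #{r ∈ S | ρ r = c} + #{r ∈ S | M r (σ r) = c} ≤ 110 := by
  have one : ∀ s ∈ S, 1 ≤ gain M ρ S σ + eff M ρ σ τ s → g < gain M ρ S σ + eff M ρ σ τ s := by
    intro s hs k
    obtain ⟨σ1, τ1, a1, a2, -⟩ := skip M ρ h hs
    rw [← a2] at k ⊢
    exact hmin _ _ _ a1 (erase_subset _ _) (card_erase_lt_of_mem hs) k
  have nz : ∀ s ∈ S, eff M ρ σ τ s ≠ 0 := fun s hs k => by
    have := one s hs (by omega); omega
  obtain ⟨o1, o2⟩ := sum_ind (f := fun r => M r (σ r)) (fun r => hM _ _) S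
  obtain ⟨r1, r2⟩ := sum_ind hρ S
  have hg : gain M ρ S σ = #{r ∈ S | M r (σ r) = 1} - (#{r ∈ S | ρ r = 1} : ℤ) := by
    rw [gain, sum_sub_distrib, o1, r1]
  have hin : ∀ c, #{r ∈ S | M r (σ r) = c} ≤ #{r ∈ S | M (τ r) r = c} := fun c =>
    card_le_card_of_injOn σ (fun r hr => by
      simp only [coe_filter, Set.mem_ofPred_eq] at hr ⊢
      exact ⟨h.m1 r hr.1, by rw [h.li r hr.1]; exact hr.2⟩) fun a ha b hb e => by
      simp only [coe_filter, Set.mem_ofPred_eq] at ha hb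
      rw [← h.li a ha.1, e, h.li b hb.1]
  set P := {r ∈ S | ρ r = 0 ∧ M r (σ r) = 1} with hP
  set Q := {r ∈ S | ρ r = 1 ∧ M r (σ r) = 0} with hQ
  set Pos := {r ∈ S | 0 < eff M ρ σ τ r} with hPos
  set Neg := {r ∈ S | eff M ρ σ τ r < 0} with hNeg
  have hPQ : gain M ρ S σ = #P - (#Q : ℤ) := by
    rw [hP, hQ, card_filter, card_filter, gain]; push_cast
    rw [← sum_sub_distrib]
    exact sum_congr rfl fun r _ => by
      rcases hρ r with a | a <;> rcases hM r (σ r) with b | b <;> simp [a, b]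
  have hPN : P ⊆ Neg := fun r hr => by
    obtain ⟨a, b, c⟩ := mem_filter.1 hr
    refine mem_filter.2 ⟨a, lt_of_le_of_ne ?_ (nz r a)⟩
    have := hM (τ r) (σ r); have := hM (τ r) r
    unfold eff; omega
  have hQP : Q ⊆ Pos := fun r hr => by
    obtain ⟨a, b, c⟩ := mem_filter.1 hr
    refine mem_filter.2 ⟨a, lt_of_le_of_ne ?_ (nz r a).symm⟩
    have := hM (τ r) (σ r); have := hM (τ r) r
    unfold eff; omega
  have hrange : ∀ r, -2 ≤ eff M ρ σ τ r ∧ eff M ρ σ τ r ≤ 2 := fun r => by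
    have := hM (τ r) (σ r); have := hM (τ r) r; have := hM r (σ r); have := hρ r
    unfold eff; omega
  have hG2 : gain M ρ S σ ≤ 2 := by
    obtain ⟨s, hs⟩ : P.Nonempty := card_pos.1 (by omega)
    obtain ⟨a, b⟩ := mem_filter.1 (hPN hs)
    have := one s a
    have := hrange s
    omega
  have hA0 : ({r ∈ S | M (τ r) r = 0} : Finset ℕ) ⊆ Pos ∪ P := fun r hr => by
    obtain ⟨a, b⟩ := mem_filter.1 hr
    have := nz r a
    have := hM (τ r) (σ r); have := hM r (σ r); have := hρ r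
    simp only [hPos, hP, mem_union, mem_filter, a, true_and]
    unfold eff at *; omega
  have hA1 : ({r ∈ S | M (τ r) r = 1} : Finset ℕ) ⊆ Neg ∪ Q := fun r hr => by
    obtain ⟨a, b⟩ := mem_filter.1 hr
    have := nz r a
    have := hM (τ r) (σ r); have := hM r (σ r); have := hρ r
    simp only [hNeg, hQ, mem_union, mem_filter, a, true_and]
    unfold eff at *; omega
  have b0 := (hin 0).trans ((card_le_card hA0).trans (card_union_le _ _))
  have b1 := (hin 1).trans ((card_le_card hA1).trans (card_union_le _ _))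
  have b2 := card_le_card hPN
  have b3 := card_le_card hQP
  by_cases c0 : #Pos ≤ 24
  · exact ⟨0, Or.inl rfl, by omega⟩
  by_cases c1 : #Neg ≤ 24
  · exact ⟨1, Or.inr rfl, by omega⟩
  exfalso
  have e0 : Pos ⊆ {t ∈ S | eff M ρ σ τ t = 1} ∪ {t ∈ S | eff M ρ σ τ t = 2} := fun r hr => by
    obtain ⟨a, b⟩ := mem_filter.1 hr
    have := hrange r
    simp only [mem_union, mem_filter, a, true_and]; omega
  have e1 : Neg ⊆ {t ∈ S | eff M ρ σ τ t = -1} ∪ {t ∈ S | eff M ρ σ τ t = -2} := fun r hr => by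
    obtain ⟨a, b⟩ := mem_filter.1 hr
    have := hrange r
    simp only [mem_union, mem_filter, a, true_and]; omega
  have f0 := (card_le_card e0).trans (card_union_le _ _)
  have f1 := (card_le_card e1).trans (card_union_le _ _)
  have fin : ∀ L : List ℤ, 0 < L.length → L.sum = 0 →
      ¬ ∀ v ∈ L, 3 * L.length < #{t ∈ S | eff M ρ σ τ t = v} := fun L l1 l2 l3 => by
    obtain ⟨S', σ', τ', k1, k2, k3, k4⟩ := skips M ρ L h l3
    have := hmin S' σ' τ' k1 k2 (by omega) (by omega)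
    omega
  have g1 := fin [1, -1] (by simp) (by simp)
  have g2 := fin [2, -2] (by simp) (by simp)
  have g3 := fin [1, 1, -2] (by simp) (by simp)
  have g4 := fin [2, -1, -1] (by simp) (by simp)
  simp only [List.mem_cons, List.not_mem_nil, or_false, forall_eq_or_imp, forall_eq,
    List.length_cons, List.length_nil] at g1 g2 g3 g4
  omega

theorem exists_small (hM : ∀ r s, M r s = 0 ∨ M r s = 1) (hρ : ∀ r, ρ r = 0 ∨ ρ r = 1) (g : ℤ)
    (n : ℕ) : ∀ {I : Finset ℕ} {σ0 τ0 : ℕ → ℕ}, #I = n → Pm I σ0 τ0 → 1 ≤ gain M ρ I σ0 →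
      gain M ρ I σ0 ≤ g → ∃ S σ τ, S ⊆ I ∧ Pm S σ τ ∧ 1 ≤ gain M ρ S σ ∧ gain M ρ S σ ≤ g ∧
        ∃ c : ℤ, (c = 0 ∨ c = 1) ∧ #{r ∈ S | ρ r = c} + #{r ∈ S | M r (σ r) = c} ≤ 110 := by
  induction n using Nat.strong_induction_on with
  | _ n ih =>
    intro I σ0 τ0 hn h h1 h2
    by_cases hmin : ∀ S' σ' τ', Pm S' σ' τ' → S' ⊆ I → #S' < #I → 1 ≤ gain M ρ S' σ' →
      g < gain M ρ S' σ'
    · exact ⟨I, σ0, τ0, Subset.rfl, h, h1, h2, small_of_min hM hρ h h1 h2 hmin⟩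
    · push Not at hmin
      obtain ⟨S', σ', τ', a1, a2, a3, a4, a5⟩ := hmin
      obtain ⟨S, σ, τ, b1, b2⟩ := ih _ (hn ▸ a3) rfl a1 a4 a5
      exact ⟨S, σ, τ, b1.trans a2, b2⟩

end Pool.Agent.Shared.Matching.Exact
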