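import Mathlib
import Pool.Agent.Shared.Matching.Defs

set_option autoImplicit false

namespace Pool.Agent.Shared.Matching

/-- Node classes: 0 = L1, 1 = R1, 2 = F, 3 = L2, 4 = R2. Entry 0 = no edge, 2 = blue edge,
other = ordinary (red or uncoloured) edge. Edges only L1-R1, L1-F, L2-F, L2-R2; blue edges only
L1-F; a node of L1 with a neighbour in F is adjacent to all of F. -/
def ExactHyp (N : ℕ) (cls : ℕ → ℕ) (W : List (List ℕ)) : Prop :=
  (∀ i j, wt W i j = wt W j i) ∧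
  (∀ i < N, ∀ j < N, wt W i j ≠ 0 → cls i ≤ cls j →
    (cls i = 0 ∧ cls j = 1) ∨ (cls i = 0 ∧ cls j = 2) ∨ (cls i = 2 ∧ cls j = 3) ∨
      (cls i = 3 ∧ cls j = 4)) ∧
  (∀ i < N, ∀ j < N, wt W i j = 2 → cls i ≤ cls j → cls i = 0 ∧ cls j = 2) ∧
  (∀ i < N, ∀ j < N, ∀ j' < N, cls i = 0 → cls j = 2 → cls j' = 2 → wt W i j ≠ 0 → wt W i j' ≠ 0)

/-- Perfect matching along nonzero entries. -/
def IsPM (N : ℕ) (W : List (List ℕ)) (m : ℕ → ℕ) : Prop :=
  IsMate N m ∧ ∀ i < N, m i ≠ i ∧ wt W i (m i) ≠ 0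

/-- Number of blue edges of `m`. -/
def blueCount (N : ℕ) (cls : ℕ → ℕ) (W : List (List ℕ)) (m : ℕ → ℕ) : ℕ :=
  ((Finset.range N).filter fun i => cls i = 0 ∧ wt W i (m i) = 2).card

end Pool.Agent.Shared.Matching
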