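import Mathlib
import Pool.Agent.Shared.Matching.ExactDefs
import Pool.Agent.Shared.Matching.ExactComb

/-!
Alternating paths between two perfect matchings, slots, and existence of a small improving move.
-/

set_option autoImplicit false

namespace Pool.Agent.Shared.Matching.Exact

open Finset Function

theorem paths (U A : Finset ℕ) (f : ℕ → ℕ) (B : ℕ → Prop) (hf : ∀ x ∈ U, f x ∈ U)
    (hfix : ∀ x, ¬ B x → f x = x) (hinj : ∀ x ∈ U, ∀ y ∈ U, B x → B y → f x = f y → x = y)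
    (hA : A ⊆ U) (hA' : ∀ x ∈ U, B x → f x ∉ A) :
    ∃ φ : ℕ → ℕ, (∀ a ∈ A, ¬ B (φ a) ∧ ∃ k, f^[k] a = φ a) ∧ Set.InjOn φ A ∧
      ∀ T ⊆ A, ∃ K : ℕ → Prop, (∀ x, K x ↔ K (f x)) ∧ (∀ a ∈ A, K a ↔ a ∈ T) ∧
        ∀ x, ¬ B x → (K x ↔ ∃ t ∈ T, φ t = x) := by
  classical
  have hU : ∀ k, ∀ x ∈ U, f^[k] x ∈ U := fun k x hx => by
    induction k with
    | zero => exact hx
    | succ k ih => rw [iterate_succ_apply']; exact hf _ ih
  have can : ∀ k, ∀ x ∈ U, ∀ y ∈ U, (∀ i < k, B (f^[i] x)) → (∀ i < k, B (f^[i] y)) →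
      f^[k] x = f^[k] y → x = y := by
    intro k
    induction k with
    | zero => intro x _ y _ _ _ e; exact e
    | succ k ih =>
      intro x hx y hy h1 h2 e
      rw [iterate_succ_apply', iterate_succ_apply'] at e
      exact ih x hx y hy (fun i hi => h1 i (by omega)) (fun i hi => h2 i (by omega))
        (hinj _ (hU k x hx) _ (hU k y hy) (h1 k (by omega)) (h2 k (by omega)) e)
  have key : ∀ a ∈ A, ∀ x ∈ U, ∀ i j, i ≤ j → (∀ l < i, B (f^[l] a)) → (∀ l < j, B (f^[l] x)) →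
      f^[i] a = f^[j] x → i = j ∧ a = x := by
    intro a ha x hx i j hij h1 h2 e
    obtain ⟨d, rfl⟩ := Nat.exists_eq_add_of_le hij
    rw [iterate_add_apply] at e
    have := can i a (hA ha) _ (hU d x hx) h1
      (fun l hl => by rw [← iterate_add_apply]; exact h2 _ (by omega)) e
    rcases d with _ | d
    · exact ⟨rfl, this⟩
    · rw [iterate_succ_apply'] at this
      exact absurd (this ▸ ha) (hA' _ (hU d x hx) (h2 d (by omega)))
  have ex : ∀ a ∈ A, ∃ k, ¬ B (f^[k] a) := by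
    intro a ha
    by_contra k
    push Not at k
    obtain ⟨i, -, j, -, hij, e⟩ := exists_ne_map_eq_of_card_lt_of_maps_to
      (s := range (#U + 1)) (t := U) (by simp) (f := fun i => f^[i] a) fun i _ => hU i a (hA ha)
    rcases le_total i j with h | h
    · exact hij (key a ha a (hA ha) i j h (fun _ _ => k _) (fun _ _ => k _) e).1
    · exact hij (key a ha a (hA ha) j i h (fun _ _ => k _) (fun _ _ => k _) e.symm).1.symm
  have fx : ∀ x, ¬ B x → ∀ k, f^[k] x = x := fun x hx k => iterate_fixed (hfix x hx) k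
  obtain ⟨φ, hφ⟩ : ∃ φ : ℕ → ℕ, ∀ a ∈ A, ∃ k, f^[k] a = φ a ∧ ¬ B (φ a) ∧ ∀ l < k, B (f^[l] a) := by
    refine ⟨fun a => if h : a ∈ A then f^[Nat.find (ex a h)] a else a, fun a ha => ?_⟩
    refine ⟨Nat.find (ex a ha), by simp only [dif_pos ha], ?_, fun l hl => ?_⟩
    · simp only [dif_pos ha]; exact Nat.find_spec (ex a ha)
    · exact not_not.1 (Nat.find_min (ex a ha) hl)
  have inj : Set.InjOn φ A := by
    intro a ha b hb e
    obtain ⟨i, a1, -, a3⟩ := hφ a ha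
    obtain ⟨j, b1, -, b3⟩ := hφ b hb
    rcases le_total i j with h | h
    · exact (key a ha b (hA hb) i j h a3 b3 (by rw [a1, b1, e])).2
    · exact (key b hb a (hA ha) j i h b3 a3 (by rw [a1, b1, e])).2.symm
  refine ⟨φ, fun a ha => ?_, inj, fun T hT => ⟨fun x => ∃ t ∈ T, ∃ k, f^[k] x = φ t,
    fun x => ⟨?_, ?_⟩, fun a ha => ⟨?_, fun h => ?_⟩, fun x hx => ⟨?_, ?_⟩⟩⟩
  · obtain ⟨k, a1, a2, -⟩ := hφ a ha
    exact ⟨a2, k, a1⟩
  · rintro ⟨t, ht, k, e⟩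
    obtain ⟨-, -, a2, -⟩ := hφ t (hT ht)
    exact ⟨t, ht, k, by rw [← iterate_succ_apply, iterate_succ_apply', e, hfix _ a2]⟩
  · rintro ⟨t, ht, k, e⟩
    exact ⟨t, ht, k + 1, e⟩
  · rintro ⟨t, ht, k, e⟩
    obtain ⟨-, -, a2, -⟩ := hφ t (hT ht)
    obtain ⟨j, b1, b2, -⟩ := hφ a ha
    have e1 : f^[j + k] a = φ t := by rw [iterate_add_apply, e, fx _ a2]
    have e2 : f^[j + k] a = φ a := by rw [add_comm, iterate_add_apply, b1, fx _ b2]
    rw [inj ha (hT ht) (e2.symm.trans e1)]; exact ht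
  · obtain ⟨j, b1, -⟩ := hφ a ha
    exact ⟨a, h, j, b1⟩
  · rintro ⟨t, ht, k, e⟩
    exact ⟨t, ht, by rw [← e, fx x hx]⟩
  · rintro ⟨t, ht, e⟩
    exact ⟨t, ht, 0, e.symm⟩

variable {N : ℕ} {cls : ℕ → ℕ} {W : List (List ℕ)}

theorem cls_edge (h : ExactHyp N cls W) {i j : ℕ} (hi : i < N) (hj : j < N) (hw : wt W i j ≠ 0) :
    (cls i = 0 ∧ (cls j = 1 ∨ cls j = 2)) ∨ (cls j = 0 ∧ (cls i = 1 ∨ cls i = 2)) ∨
      (cls i = 3 ∧ (cls j = 2 ∨ cls j = 4)) ∨ (cls j = 3 ∧ (cls i = 2 ∨ cls i = 4)) := by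
  rcases le_total (cls i) (cls j) with k | k
  · have := h.2.1 i hi j hj hw k; omega
  · have := h.2.1 j hj i hi (by rwa [← h.1]) k; omega

theorem cls_pm (h : ExactHyp N cls W) {m : ℕ → ℕ} (hm : IsPM N W m) {i : ℕ} (hi : i < N) :
    (cls i = 0 ∧ (cls (m i) = 1 ∨ cls (m i) = 2)) ∨ (cls (m i) = 0 ∧ (cls i = 1 ∨ cls i = 2)) ∨
      (cls i = 3 ∧ (cls (m i) = 2 ∨ cls (m i) = 4)) ∨ (cls (m i) = 3 ∧ (cls i = 2 ∨ cls i = 4)) :=
  cls_edge h hi (hm.1 i hi).1 (hm.2 i hi).2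

/-- Rows matched by coloured edges. -/
def Rows (N : ℕ) (cls : ℕ → ℕ) (m : ℕ → ℕ) : Finset ℕ :=
  {i ∈ range N | cls i = 0 ∧ cls (m i) = 2}

theorem mem_Rows {m : ℕ → ℕ} {i : ℕ} : i ∈ Rows N cls m ↔ i < N ∧ cls i = 0 ∧ cls (m i) = 2 := by
  simp [Rows]

theorem card_swap {m : ℕ → ℕ} (hm : IsMate N m) (p : ℕ → ℕ → Prop) [DecidableRel p] :
    #{i ∈ range N | p i (m i)} = #{i ∈ range N | p (m i) i} := by
  refine card_bij' (fun i _ => m i) (fun i _ => m i) (fun i hi => ?_) (fun i hi => ?_)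
    (fun i hi => ?_) fun i hi => ?_
  all_goals simp only [mem_filter, mem_range] at hi ⊢
  · exact ⟨(hm i hi.1).1, by rw [(hm i hi.1).2]; exact hi.2⟩
  · exact ⟨(hm i hi.1).1, by rw [(hm i hi.1).2]; exact hi.2⟩
  · exact (hm i hi.1).2
  · exact (hm i hi.1).2

theorem card_Rows (h : ExactHyp N cls W) {m : ℕ → ℕ} (hm : IsPM N W m) :
    #(Rows N cls m) + #{i ∈ range N | cls i = 1} = #{i ∈ range N | cls i = 0} := by
  rw [← card_filter_add_card_filter_not (s := {i ∈ range N | cls i = 0}) (fun i => cls (m i) = 2),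
    filter_filter, filter_filter, card_swap hm.1 (fun i _ => cls i = 1)]
  congr 2
  refine filter_congr fun i hi => ?_
  have := cls_pm h hm (mem_range.1 hi)
  omega

/-- `ν` is obtained from `mu` by switching the slots in `S` and linking them along `σ`. -/
structure Sw (N : ℕ) (cls : ℕ → ℕ) (mu φ : ℕ → ℕ) (S : Finset ℕ) (σ ν : ℕ → ℕ) : Prop where
  a : ∀ r ∈ S, ν (φ r) = φ (mu (σ r))
  b : ∀ r ∈ Rows N cls mu \ S, ν r = mu r
  c : ∀ i ∈ Rows N cls ν, i ∈ Rows N cls mu \ S ∨ ∃ r ∈ S, φ r = i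
  d : ∀ r ∈ S, φ r ∉ Rows N cls mu \ S

theorem slots (h : ExactHyp N cls W) {mu mu' : ℕ → ℕ} (hm : IsPM N W mu) (hm' : IsPM N W mu') :
    ∃ φ : ℕ → ℕ, Set.InjOn φ (Rows N cls mu) ∧
      (∀ r ∈ Rows N cls mu, φ r < N ∧ cls (φ r) = 0 ∧ cls (φ (mu r)) = 2) ∧
      (∃ σ τ, Pm (Rows N cls mu) σ τ ∧ Sw N cls mu φ (Rows N cls mu) σ mu') ∧
      ∀ S ⊆ Rows N cls mu, ∀ σ τ, Pm S σ τ → ∃ ν, IsPM N W ν ∧ Sw N cls mu φ S σ ν := by
  classical
  set Y : ℕ → Prop := fun x => cls x = 1 ∨ cls x = 3 with hY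
  set U := {x ∈ range N | ¬ Y x} with hU
  set A := {x ∈ U | ¬ Y (mu x)} with hA
  set A' := {x ∈ U | ¬ Y (mu' x)} with hA'
  set f : ℕ → ℕ := fun x => if Y (mu' x) then mu (mu' x) else x with hf
  have mU : ∀ x, x ∈ U ↔ x < N ∧ ¬ Y x := fun x => by simp only [hU, mem_filter, mem_range]
  have mA : ∀ x, x ∈ A ↔ (x < N ∧ ¬ Y x) ∧ ¬ Y (mu x) := fun x => by rw [hA, mem_filter, mU]
  have mA' : ∀ x, x ∈ A' ↔ (x < N ∧ ¬ Y x) ∧ ¬ Y (mu' x) := fun x => by rw [hA', mem_filter, mU]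
  have c1 := fun i hi => cls_pm h hm (i := i) hi
  have c2 := fun i hi => cls_pm h hm' (i := i) hi
  have l1 := fun i hi => (hm.1 i hi).1
  have l2 := fun i hi => (hm'.1 i hi).1
  have i1 := fun i hi => (hm.1 i hi).2
  have i2 := fun i hi => (hm'.1 i hi).2
  have hfU : ∀ x ∈ U, f x ∈ U ∧ (cls (f x) = 0 ↔ cls x = 0) := by
    intro x hx
    obtain ⟨x1, x2⟩ := (mU x).1 hx
    by_cases e : Y (mu' x)
    · have := c1 _ (l2 x x1); have := c2 x x1
      simp only [hf, if_pos e, mU]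
      refine ⟨⟨l1 _ (l2 x x1), ?_⟩, ?_⟩ <;> simp only [hY] at * <;> omega
    · simp only [hf, if_neg e, hx, and_self]
  obtain ⟨φ, p1, p2, p3⟩ := paths U A f (fun x => Y (mu' x)) (fun x hx => (hfU x hx).1)
    (fun x hx => by simp only [hf, if_neg hx]) (fun x hx y hy a b e => by
      simp only [hf, if_pos a, if_pos b] at e
      have x1 := ((mU x).1 hx).1
      have y1 := ((mU y).1 hy).1
      rw [← i2 x x1, ← i1 _ (l2 x x1), e, i1 _ (l2 y y1), i2 y y1]) (filter_subset _ _)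
    (fun x hx a k => by
      have x1 := ((mU x).1 hx).1
      have := ((mA _).1 k).2
      simp only [hf, if_pos a] at this
      rw [i1 _ (l2 x x1)] at this
      exact this a)
  have q1 : ∀ a ∈ A, φ a ∈ A' ∧ (cls (φ a) = 0 ↔ cls a = 0) := by
    intro a ha
    obtain ⟨a1, k, a2⟩ := p1 a ha
    have : ∀ k, f^[k] a ∈ U ∧ (cls (f^[k] a) = 0 ↔ cls a = 0) := fun k => by
      induction k with
      | zero => exact ⟨filter_subset _ _ ha, Iff.rfl⟩
      | succ k ih =>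
        rw [iterate_succ_apply']
        exact ⟨(hfU _ ih.1).1, (hfU _ ih.1).2.trans ih.2⟩
    rw [← a2] at a1 ⊢
    exact ⟨mem_filter.2 ⟨(this k).1, a1⟩, (this k).2⟩
  have RA : ∀ x, x ∈ Rows N cls mu ↔ x ∈ A ∧ cls x = 0 := fun x => by
    rw [mem_Rows, mA]
    by_cases e : x < N
    · have := c1 x e
      simp only [hY, e, true_and]; omega
    · simp [e]
  have RA' : ∀ x, x ∈ Rows N cls mu' ↔ x ∈ A' ∧ cls x = 0 := fun x => by
    rw [mem_Rows, mA']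
    by_cases e : x < N
    · have := c2 x e
      simp only [hY, e, true_and]; omega
    · simp [e]
  have Am : ∀ x ∈ A, mu x ∈ A ∧ (cls (mu x) = 0 ↔ ¬ cls x = 0) := fun x hx => by
    obtain ⟨⟨a, b⟩, c⟩ := (mA x).1 hx
    have := c1 x a
    refine ⟨(mA _).2 ⟨⟨l1 x a, c⟩, by rwa [i1 x a]⟩, ?_⟩
    simp only [hY] at b c; omega
  have Am' : ∀ x ∈ A', mu' x ∈ A' ∧ (cls (mu' x) = 0 ↔ ¬ cls x = 0) ∧ (cls x = 0 ∨ cls x = 2) :=
    fun x hx => by
    obtain ⟨⟨a, b⟩, c⟩ := (mA' x).1 hx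
    have := c2 x a
    refine ⟨(mA' _).2 ⟨⟨l2 x a, c⟩, by rwa [i2 x a]⟩, ?_⟩
    simp only [hY] at b c; omega
  have lA : ∀ x ∈ A, x < N := fun x hx => ((mA x).1 hx).1.1
  have lA' : ∀ x ∈ A', x < N := fun x hx => ((mA' x).1 hx).1.1
  have cA : ∀ m, IsPM N W m → #{x ∈ U | ¬ Y (m x)} = 2 * #(Rows N cls m) := fun m k => by
    rw [← card_filter_add_card_filter_not (s := {x ∈ U | ¬ Y (m x)}) (fun i => cls i = 0), two_mul]
    congr 1
    · congr 1
      ext x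
      simp only [mem_filter, mU, mem_Rows]
      by_cases e : x < N
      · have := cls_pm h k e
        simp only [hY, e, true_and]; omega
      · simp [e]
    · rw [Rows, card_swap k.1 (fun i j => cls i = 0 ∧ cls j = 2)]
      congr 1
      ext x
      simp only [mem_filter, mU, mem_range]
      by_cases e : x < N
      · have := cls_pm h k e
        simp only [hY, e, true_and]; omega
      · simp [e]
  have surj : Set.SurjOn φ A A' := by
    refine surjOn_of_injOn_of_card_le φ (fun a ha => (q1 a ha).1) p2 ?_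
    have a1 := cA mu hm
    have a2 := cA mu' hm'
    have a3 := card_Rows h hm
    have a4 := card_Rows h hm'
    rw [← hA] at a1; rw [← hA'] at a2
    omega
  obtain ⟨ψ, s1, s2⟩ : ∃ ψ : ℕ → ℕ, (∀ a ∈ A, ψ (φ a) = a) ∧ ∀ x ∈ A', ψ x ∈ A ∧ φ (ψ x) = x :=
    ⟨invFunOn φ A, fun a ha => p2.leftInvOn_invFunOn ha, fun x hx =>
      ⟨invFunOn_mem (surj hx), invFunOn_eq (surj hx)⟩⟩
  have hR : ∀ r ∈ Rows N cls mu, φ r < N ∧ cls (φ r) = 0 ∧ cls (φ (mu r)) = 2 := fun r hr => by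
    obtain ⟨a, b⟩ := (RA r).1 hr
    have a1 := q1 r a
    have a2 := Am r a
    have a3 := q1 _ a2.1
    have a4 := (Am' _ a3.1).2.2
    exact ⟨lA' _ a1.1, a1.2.2 b, by omega⟩
  refine ⟨φ, fun a ha b hb => p2 ((RA a).1 ha).1 ((RA b).1 hb).1, hR,
    ⟨fun r => mu (ψ (mu' (φ r))), fun s => ψ (mu' (φ (mu s))), ⟨?_, ?_, ?_, ?_⟩, ?_, ?_, ?_, ?_⟩, ?_⟩
  · intro r hr
    obtain ⟨a, b⟩ := (RA r).1 hr
    have a1 := q1 r a
    have a2 := Am' _ a1.1
    have a3 := s2 _ a2.1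
    have a4 := Am _ a3.1
    have a5 := q1 _ a3.1
    rw [a3.2] at a5
    exact (RA _).2 ⟨a4.1, by tauto⟩
  · intro r hr
    obtain ⟨a, b⟩ := (RA r).1 hr
    have a0 := Am r a
    have a1 := q1 _ a0.1
    have a2 := Am' _ a1.1
    have a3 := s2 _ a2.1
    have a5 := q1 _ a3.1
    rw [a3.2] at a5
    exact (RA _).2 ⟨a3.1, by tauto⟩
  · intro r hr
    obtain ⟨a, b⟩ := (RA r).1 hr
    have a1 := q1 r a
    have a3 := s2 _ (Am' _ a1.1).1
    rw [i1 _ (lA _ a3.1), a3.2, i2 _ (lA' _ a1.1), s1 r a]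
  · intro r hr
    obtain ⟨a, b⟩ := (RA r).1 hr
    have a0 := Am r a
    have a1 := q1 _ a0.1
    have a3 := s2 _ (Am' _ a1.1).1
    rw [a3.2, i2 _ (lA' _ a1.1), s1 _ a0.1, i1 r (lA r a)]
  · intro r hr
    obtain ⟨a, b⟩ := (RA r).1 hr
    have a3 := s2 _ (Am' _ (q1 r a).1).1
    rw [i1 _ (lA _ a3.1), a3.2]
  · simp
  · intro i hi
    obtain ⟨a, b⟩ := (RA' i).1 hi
    have a3 := s2 i a
    have a5 := q1 _ a3.1
    rw [a3.2] at a5
    exact Or.inr ⟨ψ i, (RA _).2 ⟨a3.1, a5.2.1 b⟩, a3.2⟩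
  · simp
  intro S hS σ τ hP
  have SA : ∀ r ∈ S, r ∈ A ∧ cls r = 0 := fun r hr => (RA r).1 (hS hr)
  obtain ⟨K, k1, k2, k3⟩ := p3 (S ∪ S.image mu) (union_subset (fun r hr => (SA r hr).1) fun x hx => by
    obtain ⟨r, hr, rfl⟩ := mem_image.1 hx
    exact (Am r (SA r hr).1).1)
  set β : ℕ → ℕ := fun x => if cls x = 0 then φ (mu (σ (ψ x))) else φ (τ (mu (ψ x))) with hβ
  set ν : ℕ → ℕ := fun x => if Y x then (if K (mu' x) then mu' x else mu x) else
    if K x then (if Y (mu' x) then mu' x else β x) else mu x with hν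
  have n0 : ∀ t ∈ S ∪ S.image mu, t ∈ A → K (φ t) ∧ ν (φ t) = β (φ t) := fun t ht a => by
    obtain ⟨⟨-, b⟩, c⟩ := (mA' _).1 (q1 t a).1
    have := (k3 _ c).2 ⟨t, ht, rfl⟩
    exact ⟨this, by simp only [hν, if_neg b, if_pos this, if_neg c]⟩
  have n1 : ∀ r ∈ S, ν (φ r) = φ (mu (σ r)) := fun r hr => by
    obtain ⟨a, b⟩ := SA r hr
    rw [(n0 r (mem_union_left _ hr) a).2]
    simp only [hβ, if_pos ((q1 r a).2.2 b), s1 r a]
  have n2 : ∀ r ∈ S, ν (φ (mu r)) = φ (τ r) := fun r hr => by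
    obtain ⟨a, b⟩ := SA r hr
    have a0 := Am r a
    rw [(n0 _ (mem_union_right _ (mem_image_of_mem mu hr)) a0.1).2]
    have : ¬ cls (φ (mu r)) = 0 := by rw [(hR r (hS hr)).2.2]; omega
    simp only [hβ, if_neg this, s1 _ a0.1, i1 r (lA r a)]
  have n3 : ∀ r ∈ S, ∀ s ∈ S, φ (mu s) ≠ φ r ∧ wt W (φ r) (φ (mu s)) ≠ 0 := fun r hr s hs => by
    obtain ⟨a1, a2, -⟩ := hR r (hS hr)
    obtain ⟨-, -, a3⟩ := hR s (hS hs)
    refine ⟨fun e => by rw [e] at a3; omega, ?_⟩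
    have a4 := Am' _ (q1 r (SA r hr).1).1
    have a5 := (Am' _ a4.1).2.2
    exact h.2.2.2 _ a1 _ (l2 _ a1) _ (lA' _ (q1 _ (Am s (SA s hs).1).1).1) a2 (by omega) a3
      (hm'.2 _ a1).2
  have kf : ∀ y < N, Y y → (K (mu' y) ↔ K (mu y)) := fun y a b => by
    rw [k1]
    simp only [hf, i2 y a, if_pos b]
  have YX : ∀ y < N, Y y → ¬ Y (mu y) ∧ ¬ Y (mu' y) := fun y a b => by
    have := c1 y a; have := c2 y a
    simp only [hY] at *; omega
  have nK : ∀ r ∈ Rows N cls mu \ S, ¬ K r := fun r hr k => by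
    obtain ⟨a, b⟩ := mem_sdiff.1 hr
    obtain ⟨c, d⟩ := (RA r).1 a
    rcases mem_union.1 ((k2 r c).1 k) with e | e
    · exact b e
    · obtain ⟨s, hs, rfl⟩ := mem_image.1 e
      exact (Am s (SA s hs).1).2.1 d (SA s hs).2
  have main : ∀ x < N, (ν x < N ∧ ν (ν x) = x) ∧ ν x ≠ x ∧ wt W x (ν x) ≠ 0 := by
    intro x hx
    have u1 : ν x = mu x → ν (mu x) = mu (mu x) →
        (ν x < N ∧ ν (ν x) = x) ∧ ν x ≠ x ∧ wt W x (ν x) ≠ 0 := fun a b => by
      rw [a, b]; exact ⟨hm.1 x hx, hm.2 x hx⟩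
    have u2 : ν x = mu' x → ν (mu' x) = mu' (mu' x) →
        (ν x < N ∧ ν (ν x) = x) ∧ ν x ≠ x ∧ wt W x (ν x) ≠ 0 := fun a b => by
      rw [a, b]; exact ⟨hm'.1 x hx, hm'.2 x hx⟩
    by_cases e : Y x
    · obtain ⟨y1, y2⟩ := YX x hx e
      by_cases k : K (mu' x)
      · exact u2 (by simp only [hν, if_pos e, if_pos k])
          (by simp only [hν, if_neg y2, if_pos k, i2 x hx, if_pos e])
      · exact u1 (by simp only [hν, if_pos e, if_neg k])
          (by simp only [hν, if_neg y1, if_neg (mt (kf x hx e).2 k)])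
    by_cases k : K x
    · by_cases y : Y (mu' x)
      · exact u2 (by simp only [hν, if_neg e, if_pos k, if_pos y])
          (by simp only [hν, if_pos y, i2 x hx, if_pos k])
      · obtain ⟨t, ht, rfl⟩ := (k3 x y).1 k
        rcases mem_union.1 ht with hr | hr
        · have a := hP.m1 t hr
          rw [n1 t hr, n2 _ a, hP.li t hr]
          exact ⟨⟨lA' _ (q1 _ (Am _ (SA _ a).1).1).1, rfl⟩, n3 t hr _ a⟩
        · obtain ⟨s, hs, rfl⟩ := mem_image.1 hr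
          have a := hP.m2 s hs
          rw [n2 s hs, n1 _ a, hP.ri s hs, h.1]
          exact ⟨⟨(hR _ (hS a)).1, rfl⟩, (n3 _ a s hs).1.symm, (n3 _ a s hs).2⟩
    · refine u1 (by simp only [hν, if_neg e, if_neg k]) ?_
      by_cases y : Y (mu x)
      · have : ¬ K (mu' (mu x)) := by rw [kf _ (l1 x hx) y, i1 x hx]; exact k
        simp only [hν, if_pos y, if_neg this]
      · have a : x ∈ A := (mA x).2 ⟨⟨hx, e⟩, y⟩
        have : ¬ K (mu x) := fun k' => by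
          refine k ((k2 x a).2 ?_)
          rcases mem_union.1 ((k2 _ (Am x a).1).1 k') with b | b
          · exact mem_union_right _ (mem_image.2 ⟨_, b, i1 x hx⟩)
          · obtain ⟨s, hs, b⟩ := mem_image.1 b
            rw [← i1 x hx, ← b, i1 s (lA s (SA s hs).1)]
            exact mem_union_left _ hs
        simp only [hν, if_neg y, if_neg this]
  refine ⟨ν, ⟨fun x hx => (main x hx).1, fun x hx => (main x hx).2⟩, n1, fun r hr => ?_,
    fun i hi => ?_, fun r hr k => nK _ k (n0 r (mem_union_left _ hr) (SA r hr).1).1⟩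
  · have := ((mA r).1 ((RA r).1 (mem_sdiff.1 hr).1).1).1.2
    simp only [hν, if_neg this, if_neg (nK r hr)]
  · obtain ⟨a, b, c⟩ := mem_Rows.1 hi
    have e : ¬ Y i := by simp only [hY]; omega
    by_cases k : K i
    · by_cases y : Y (mu' i)
      · simp only [hν, if_neg e, if_pos k, if_pos y] at c
        simp only [hY] at y; omega
      · obtain ⟨t, ht, rfl⟩ := (k3 i y).1 k
        rcases mem_union.1 ht with hr | hr
        · exact Or.inr ⟨t, hr, rfl⟩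
        · obtain ⟨s, hs, rfl⟩ := mem_image.1 hr
          have := (hR s (hS hs)).2.2
          omega
    · simp only [hν, if_neg e, if_neg k] at c
      have a1 := mem_Rows.2 ⟨a, b, c⟩
      exact Or.inl (mem_sdiff.2 ⟨a1, fun hs => k ((k2 i ((RA i).1 a1).1).2 (mem_union_left _ hs))⟩)

end Pool.Agent.Shared.Matching.Exact
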