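import Mathlib
import Pool.Agent.Shared.Matching.ExactPath

/-!
Existence of an improving move that changes few edges of one colour.
-/

set_option autoImplicit false

namespace Pool.Agent.Shared.Matching.Exact

open Finset Function

/-- `(i, j)` is a coloured pair of colour `col` (true = blue). -/
def colB (cls : ℕ → ℕ) (W : List (List ℕ)) (col : Bool) (i j : ℕ) : Bool :=
  cls i == 0 && cls j == 2 && ((wt W i j == 2) == col)

/-- Number of edges of colour `col`. -/
def colCount (N : ℕ) (cls : ℕ → ℕ) (W : List (List ℕ)) (col : Bool) (m : ℕ → ℕ) : ℕ :=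
  #{i ∈ range N | colB cls W col i (m i) = true}

variable {N : ℕ} {cls : ℕ → ℕ} {W : List (List ℕ)}

theorem colB_iff {col : Bool} {i j : ℕ} :
    colB cls W col i j = true ↔ cls i = 0 ∧ cls j = 2 ∧ (wt W i j = 2 ↔ col = true) := by
  cases col <;> simp [colB, and_assoc]

theorem blue_cls (h : ExactHyp N cls W) {i j : ℕ} (hi : i < N) (hj : j < N) (a : cls i = 0)
    (b : wt W i j = 2) : cls j = 2 := (h.2.2.1 i hi j hj b (by omega)).2

theorem colCount_true (h : ExactHyp N cls W) {m : ℕ → ℕ} (hm : IsPM N W m) :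
    colCount N cls W true m = blueCount N cls W m := by
  unfold colCount blueCount
  congr 1
  refine filter_congr fun i hi => ?_
  have hi := mem_range.1 hi
  have := blue_cls h hi (hm.1 i hi).1
  rw [colB_iff]; tauto

theorem colCount_add (m : ℕ → ℕ) :
    colCount N cls W true m + colCount N cls W false m = #(Rows N cls m) := by
  rw [← card_filter_add_card_filter_not (s := Rows N cls m) (fun i => wt W i (m i) = 2), Rows,
    filter_filter, filter_filter]
  unfold colCount
  congr 2 <;> exact filter_congr fun i _ => by rw [colB_iff]; simp [and_assoc]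

theorem blue_eq (h : ExactHyp N cls W) {m m' : ℕ → ℕ} (hm : IsPM N W m) (hm' : IsPM N W m')
    (col : Bool) : (blueCount N cls W m : ℤ) - blueCount N cls W m' =
      (cond col 1 (-1)) * ((colCount N cls W col m : ℤ) - colCount N cls W col m') := by
  have a1 := colCount_true h hm
  have a2 := colCount_true h hm'
  have a3 := colCount_add (N := N) (cls := cls) (W := W) m
  have a4 := colCount_add (N := N) (cls := cls) (W := W) m'
  have a5 := card_Rows h hm
  have a6 := card_Rows h hm'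
  cases col <;> simp only [cond] <;> omega

theorem blue_sw (h : ExactHyp N cls W) {mu ν φ σ : ℕ → ℕ} (hm : IsPM N W mu) (hν : IsPM N W ν)
    (inj : Set.InjOn φ (Rows N cls mu)) (hR : ∀ r ∈ Rows N cls mu, φ r < N ∧ cls (φ r) = 0)
    {S : Finset ℕ} (hS : S ⊆ Rows N cls mu) (sw : Sw N cls mu φ S σ ν) :
    (blueCount N cls W ν : ℤ) = blueCount N cls W mu +
      gain (fun r s => if wt W (φ r) (φ (mu s)) = 2 then 1 else 0)
        (fun r => if wt W r (mu r) = 2 then 1 else 0) S σ := by
  have e1 : ∀ m, IsPM N W m → blueCount N cls W m = #{i ∈ Rows N cls m | wt W i (m i) = 2} := by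
    intro m k
    rw [blueCount, Rows, filter_filter]
    congr 1
    refine filter_congr fun i hi => ?_
    have hi := mem_range.1 hi
    have := blue_cls h hi (k.1 i hi).1
    tauto
  have e2 : ({i ∈ Rows N cls ν | wt W i (ν i) = 2} : Finset ℕ) =
      {i ∈ Rows N cls mu \ S | wt W i (mu i) = 2} ∪
        ({r ∈ S | wt W (φ r) (φ (mu (σ r))) = 2} : Finset ℕ).image φ := by
    ext i
    simp only [mem_union, mem_filter, mem_image]
    constructor
    · rintro ⟨a, b⟩
      rcases sw.c i a with c | ⟨r, c, rfl⟩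
      · exact Or.inl ⟨c, by rwa [← sw.b i c]⟩
      · exact Or.inr ⟨r, ⟨c, by rwa [← sw.a r c]⟩, rfl⟩
    · rintro (⟨a, b⟩ | ⟨r, ⟨a, b⟩, rfl⟩)
      · rw [← sw.b i a] at b
        obtain ⟨c, d, -⟩ := mem_Rows.1 (mem_sdiff.1 a).1
        exact ⟨mem_Rows.2 ⟨c, d, blue_cls h c (hν.1 i c).1 d b⟩, b⟩
      · rw [← sw.a r a] at b
        obtain ⟨c, d⟩ := hR r (hS a)
        exact ⟨mem_Rows.2 ⟨c, d, blue_cls h c (hν.1 _ c).1 d b⟩, b⟩
  have e3 : #{i ∈ Rows N cls mu | wt W i (mu i) = 2} =
      #{i ∈ Rows N cls mu \ S | wt W i (mu i) = 2} + #{i ∈ S | wt W i (mu i) = 2} := by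
    rw [← card_union_of_disjoint (disjoint_filter_filter sdiff_disjoint), ← filter_union,
      sdiff_union_of_subset hS]
  rw [e1 ν hν, e1 mu hm, e2, e3, card_union_of_disjoint, card_image_of_injOn, gain,
    sum_sub_distrib, sum_boole, sum_boole]
  · push_cast; ring
  · exact fun a ha b hb => inj (hS (filter_subset _ _ ha)) (hS (filter_subset _ _ hb))
  · refine disjoint_left.2 fun i a b => ?_
    obtain ⟨r, c, rfl⟩ := mem_image.1 b
    exact sw.d r (filter_subset _ _ c) (filter_subset _ _ a)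

/-- Rows whose edge of colour `col` changes. -/
def Chg (N : ℕ) (cls : ℕ → ℕ) (W : List (List ℕ)) (col : Bool) (mu ν : ℕ → ℕ) : Finset ℕ :=
  {i ∈ range N | ν i ≠ mu i ∧ (colB cls W col i (ν i) = true ∨ colB cls W col i (mu i) = true)}

theorem move (h : ExactHyp N cls W) {mu mu' : ℕ → ℕ} (hm : IsPM N W mu) (hm' : IsPM N W mu')
    (hlt : blueCount N cls W mu < blueCount N cls W mu') :
    ∃ ν, IsPM N W ν ∧ blueCount N cls W mu < blueCount N cls W ν ∧
      blueCount N cls W ν ≤ blueCount N cls W mu' ∧ ∃ col, #(Chg N cls W col mu ν) ≤ 110 := by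
  obtain ⟨φ, inj, hR, ⟨σ0, τ0, p0, s0⟩, hall⟩ := slots h hm hm'
  have hR' : ∀ r ∈ Rows N cls mu, φ r < N ∧ cls (φ r) = 0 := fun r hr =>
    ⟨(hR r hr).1, (hR r hr).2.1⟩
  have g0 := blue_sw h hm hm' inj hR' Subset.rfl s0
  obtain ⟨S, σ, τ, a1, a2, a3, a4, c, a5, a6⟩ := exists_small
    (M := fun r s => if wt W (φ r) (φ (mu s)) = 2 then 1 else 0)
    (ρ := fun r => if wt W r (mu r) = 2 then 1 else 0) (fun _ _ => by split_ifs <;> simp)
    (fun _ => by split_ifs <;> simp) _ _ rfl p0 (by omega) le_rfl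
  obtain ⟨ν, b1, b2⟩ := hall S a1 σ τ a2
  have g1 := blue_sw h hm b1 inj hR' a1 b2
  refine ⟨ν, b1, by omega, by omega, decide (c = 1), le_trans ?_ a6⟩
  refine le_trans (card_le_card (t := _ ∪ image φ _) fun i hi => ?_)
    ((card_union_le _ _).trans (Nat.add_le_add_left card_image_le _))
  obtain ⟨i1, i2, i3⟩ := mem_filter.1 hi
  have i1 := mem_range.1 i1
  simp only [colB_iff, decide_eq_true_eq] at i3
  rcases i3 with ⟨c1, c2, c3⟩ | ⟨c1, c2, c3⟩
  · rcases b2.c i (mem_Rows.2 ⟨i1, c1, c2⟩) with k | ⟨r, k, rfl⟩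
    · exact absurd (b2.b i k) i2
    · refine mem_union_right _ (mem_image_of_mem φ (mem_filter.2 ⟨k, ?_⟩))
      rw [← b2.a r k]
      split_ifs with e
      · exact (c3.1 e).symm
      · have := mt c3.2 e; omega
  · have k := mem_Rows.2 ⟨i1, c1, c2⟩
    refine mem_union_left _ (mem_filter.2 ⟨?_, ?_⟩)
    · by_contra k'
      exact i2 (b2.b i (mem_sdiff.2 ⟨k, k'⟩))
    · split_ifs with e
      · exact (c3.1 e).symm
      · have := mt c3.2 e; omega

end Pool.Agent.Shared.Matching.Exact
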