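import Mathlib
import Pool.Agent.Shared.Matching.Main
import Pool.Agent.Shared.Matching.ExactMove

/-!
Exact perfect matching on graphs with a complete coloured core is polynomial.
-/

set_option autoImplicit false

namespace Pool.Agent.Shared.Matching.Exact

open Finset Function Pool.Agent.Shared.PolyTime Enc Alg

/-- Weights for the oracle: edges of colour `col` are kept (with a bonus) only if allowed. -/
def wgt (cls : ℕ → ℕ) (W : List (List ℕ)) (col : Bool) (al : ℕ → ℕ → Bool) (i j : ℕ) : ℕ :=
  cond (sw W i j == 0) 0 (cond (colB cls W col i j || colB cls W col j i)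
    (cond ((colB cls W col i j && al i j) || (colB cls W col j i && al j i)) (W.length + 2) 0)
    (W.length + 1))

/-- One oracle call. -/
def orc (F : List (List ℕ) → List ℕ) (cls : ℕ → ℕ) (W : List (List ℕ)) (col : Bool)
    (al : ℕ → ℕ → Bool) : List ℕ :=
  tab W.length fun i => (F (tab2 W.length (wgt cls W col al))).getD i i

/-- The map described by a list. -/
def fn (m : List ℕ) (i : ℕ) : ℕ := m.getD i i

/-- Specification of the weighted matching oracle. -/
def Orc (F : List (List ℕ) → List ℕ) : Prop :=
  ∀ W : List (List ℕ), (∀ i j, wt W i j = wt W j i) →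
    IsMate W.length (fun i => (F W).getD i i) ∧ ∀ m : ℕ → ℕ, IsMate W.length m →
      mateWt W.length W m ≤ mateWt W.length W (fun i => (F W).getD i i)

/-- Tables of matchings. -/
def Good (N : ℕ) (m : List ℕ) : Prop := IsMate N (fn m) ∧ (enc m).length ≤ N * (2 * N + 1)

theorem wt_tab2 (N : ℕ) (w : ℕ → ℕ → ℕ) (i j : ℕ) :
    wt (tab2 N w) i j = if i < N ∧ j < N then w i j else 0 := by
  unfold wt
  by_cases hi : i < N <;> by_cases hj : j < N <;>
    simp [tab2, List.getD_eq_getElem?_getD, hi, hj]

theorem fn_tab (N : ℕ) (f : ℕ → ℕ) {i : ℕ} (hi : i < N) : fn (tab N f) i = f i :=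
  tab_getD N f i i fun h => absurd hi (by omega)

variable {F : List (List ℕ) → List ℕ} {cls : ℕ → ℕ} {W : List (List ℕ)} {col : Bool}
  {al : ℕ → ℕ → Bool}

theorem wgt_symm (i j : ℕ) : wgt cls W col al i j = wgt cls W col al j i := by
  unfold wgt
  rw [sw_symm W i j, Bool.or_comm (colB cls W col i j), Bool.or_comm (colB cls W col i j && _)]

theorem orc_opt (hF : Orc F) : Good W.length (orc F cls W col al) ∧
    ∀ m, IsMate W.length m → ∑ i ∈ range W.length, (if m i = i then 0 else wgt cls W col al i (m i)) ≤
      ∑ i ∈ range W.length, if fn (orc F cls W col al) i = i then 0 else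
        wgt cls W col al i (fn (orc F cls W col al) i) := by
  obtain ⟨h1, h2⟩ := hF (tab2 W.length (wgt cls W col al)) fun i j => by
    simp only [wt_tab2, and_comm, wgt_symm i j]
  have hl : (tab2 W.length (wgt cls W col al)).length = W.length := by simp [tab2]
  rw [hl] at h1 h2
  have e : ∀ m, IsMate W.length m → mateWt W.length (tab2 W.length (wgt cls W col al)) m =
      ∑ i ∈ range W.length, (if m i = i then 0 else wgt cls W col al i (m i)) := fun m hm =>
    sum_congr rfl fun i hi => by
      rw [wt_tab2, if_pos (c := _ ∧ _) ⟨mem_range.1 hi, (hm i (mem_range.1 hi)).1⟩]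
  refine ⟨⟨fun i hi => ?_, len_tab _ _ _ fun i hi => by simpa using (h1 i hi).1.le⟩,
    fun m hm => ?_⟩
  · unfold orc
    rw [fn_tab _ _ hi, fn_tab _ _ (h1 i hi).1]
    exact h1 i hi
  · refine (e m hm).symm.trans_le ((h2 m hm).trans_eq ((e _ h1).trans ?_))
    exact sum_congr rfl fun i hi => by unfold orc; rw [fn_tab _ _ (mem_range.1 hi)]

theorem wgt_ne (h : ExactHyp W.length cls W) (i j : ℕ) : wgt cls W col al i j ≠ 0 ↔
    wt W i j ≠ 0 ∧ (colB cls W col i j = true → al i j = true) ∧
      (colB cls W col j i = true → al j i = true) := by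
  have e : sw W i j = wt W i j := by rw [sw, ← h.1 i j, min_self]
  have x : ¬ (colB cls W col i j = true ∧ colB cls W col j i = true) := by
    simp only [colB_iff]; omega
  unfold wgt
  rw [e]
  by_cases a : wt W i j = 0
  · simp [a]
  · have : (wt W i j == 0) = false := by simpa using a
    rw [this]
    revert x
    cases colB cls W col i j <;> cases colB cls W col j i <;> cases al i j <;> cases al j i <;>
      simp [a]

theorem wgt_val {i j : ℕ} (h : wgt cls W col al i j ≠ 0) : wgt cls W col al i j =
    W.length + 1 + (if colB cls W col i j = true then 1 else 0) +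
      if colB cls W col j i = true then 1 else 0 := by
  have x : ¬ (colB cls W col i j = true ∧ colB cls W col j i = true) := by
    simp only [colB_iff]; omega
  unfold wgt at *
  revert x h
  cases sw W i j == 0 <;> cases colB cls W col i j <;> cases colB cls W col j i <;>
    cases al i j <;> cases al j i <;> simp

theorem wgt_le (i j : ℕ) : wgt cls W col al i j ≤ W.length + 2 := by
  unfold wgt
  cases sw W i j == 0 <;> cases colB cls W col i j || colB cls W col j i <;>
    cases (colB cls W col i j && al i j) || (colB cls W col j i && al j i) <;> simp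

theorem sum_wgt {m : ℕ → ℕ} (hm : IsMate W.length m)
    (h : ∀ i < W.length, m i ≠ i ∧ wgt cls W col al i (m i) ≠ 0) :
    ∑ i ∈ range W.length, (if m i = i then 0 else wgt cls W col al i (m i)) =
      W.length * (W.length + 1) + 2 * colCount W.length cls W col m := by
  rw [sum_congr rfl fun i hi => by
    rw [if_neg (h i (mem_range.1 hi)).1, wgt_val (h i (mem_range.1 hi)).2],
    sum_add_distrib, sum_add_distrib, ← card_filter, ← card_filter,
    ← card_swap hm (fun i j => colB cls W col i j = true)]
  simp only [colCount, sum_const, card_range, smul_eq_mul]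
  ring

theorem orc_spec (hF : Orc F) (h : ExactHyp W.length cls W) {ν : ℕ → ℕ} (hν : IsPM W.length W ν)
    (ha : ∀ i < W.length, colB cls W col i (ν i) = true → al i (ν i) = true) :
    IsPM W.length W (fn (orc F cls W col al)) ∧
      (∀ i < W.length, colB cls W col i (fn (orc F cls W col al) i) = true →
        al i (fn (orc F cls W col al) i) = true) ∧
      colCount W.length cls W col ν ≤ colCount W.length cls W col (fn (orc F cls W col al)) := by
  obtain ⟨⟨h1, -⟩, h2⟩ := orc_opt (cls := cls) (W := W) (col := col) (al := al) hF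
  set m := fn (orc F cls W col al)
  have h3 := h2 ν hν.1
  rw [sum_wgt hν.1 fun i hi => ⟨(hν.2 i hi).1, (wgt_ne h _ _).2 ⟨(hν.2 i hi).2, ha i hi, by
    have := ha _ (hν.1 i hi).1
    rwa [(hν.1 i hi).2] at this⟩⟩] at h3
  have h4 : ∀ i < W.length, m i ≠ i ∧ wgt cls W col al i (m i) ≠ 0 := by
    intro i hi
    by_contra k
    have k0 : (if m i = i then 0 else wgt cls W col al i (m i)) = 0 := by
      split_ifs with e
      · rfl
      · by_contra k'; exact k ⟨e, k'⟩
    rw [← add_sum_erase _ _ (mem_range.2 hi), k0] at h3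
    have := sum_le_card_nsmul ((range W.length).erase i)
      (fun i => if m i = i then 0 else wgt cls W col al i (m i)) (W.length + 2) fun x _ => by
        split_ifs
        · omega
        · exact wgt_le _ _
    rw [card_erase_of_mem (mem_range.2 hi), card_range, smul_eq_mul] at this
    obtain ⟨n, hn⟩ : ∃ n, W.length = n + 1 := ⟨W.length - 1, by omega⟩
    rw [zero_add] at h3
    have h5 := h3.trans this
    rw [hn, Nat.add_sub_cancel] at h5
    nlinarith
  rw [sum_wgt h1 h4] at h3
  exact ⟨⟨h1, fun i hi => ⟨(h4 i hi).1, ((wgt_ne h _ _).1 (h4 i hi).2).1⟩⟩,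
    fun i hi => ((wgt_ne h _ _).1 (h4 i hi).2).2.1, by omega⟩

/-- All lists of at most `c` pairs. -/
def tup (N : ℕ) : ℕ → List (List (ℕ × ℕ))
  | 0 => [[]]
  | c + 1 => [] :: (prs N).flatMap fun x => (tup N c).map fun t => x :: t

theorem mem_tup (N c : ℕ) : ∀ D : List (ℕ × ℕ), D.length ≤ c → (∀ x ∈ D, x ∈ prs N) →
    D ∈ tup N c := by
  induction c with
  | zero => intro D h _; simp [tup, List.length_eq_zero_iff.1 (Nat.le_zero.1 h)]
  | succ c ih =>
    rintro (_ | ⟨x, D⟩) h h'
    · simp [tup]
    · refine List.mem_cons_of_mem _ (List.mem_flatMap.2 ⟨x, h' x (by simp), List.mem_map.2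
        ⟨D, ih D (by simpa using h) fun y hy => h' y (by simp [hy]), rfl⟩⟩)

theorem pf_tup (c : ℕ) : PF fun N => tup N c := by
  induction c with
  | zero => exact PF.const _
  | succ c ih =>
    exact PF.cons (PF.const _) (PF.flatMap (f := fun N x => (tup N c).map fun t => x :: t)
      (pf_prs PF.id') (PF.map (f := fun (q : ℕ × ℕ × ℕ) t => q.2 :: t) (ih.comp PF.id'.fst)
        (by fun_prop)))

/-- Allowed edges: those of `m`, modified by the list `D`. -/
def alD (m : List ℕ) (D : List (ℕ × ℕ)) (i j : ℕ) : Bool :=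
  cond (D.any fun p => p.1 == i) (D.any fun p => p.1 == i && p.2 == j) (m.getD i i == j)

/-- Number of blue edges. -/
def blueB (cls : ℕ → ℕ) (W : List (List ℕ)) (m : List ℕ) : ℕ :=
  (List.range W.length).countP fun i => cls i == 0 && wt W i (m.getD i i) == 2

/-- Perfectness test. -/
def pmB (W : List (List ℕ)) (m : List ℕ) : Bool :=
  (List.range W.length).all fun i => !(m.getD i i == i) && !(wt W i (m.getD i i) == 0)

/-- Candidate moves. -/
def cands (F : List (List ℕ) → List ℕ) (cls : ℕ → ℕ) (W : List (List ℕ)) (m : List ℕ) :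
    List (List ℕ) :=
  (tup W.length 110).flatMap fun D => [orc F cls W true (alD m D), orc F cls W false (alD m D)]

/-- Test for a move. -/
def okB (cls : ℕ → ℕ) (W : List (List ℕ)) (b : ℕ) (m m' : List ℕ) : Bool :=
  pmB W m' && (Nat.blt (blueB cls W m) (blueB cls W m') && Nat.ble (blueB cls W m') b)

/-- One step of the local search. -/
def stp (F : List (List ℕ) → List ℕ) (cls : ℕ → ℕ) (W : List (List ℕ)) (b : ℕ) (m : List ℕ) :
    List ℕ := ((cands F cls W m).filter (okB cls W b m)).headD m

theorem blueB_eq (m : List ℕ) : blueB cls W m = blueCount W.length cls W (fn m) := by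
  rw [blueB, blueCount, List.countP_eq_length_filter, ← List.toFinset_card_of_nodup
    (List.nodup_range.filter _)]
  congr 1
  ext i
  simp [fn]

theorem pmB_iff {m : List ℕ} (hm : IsMate W.length (fn m)) :
    pmB W m = true ↔ IsPM W.length W (fn m) := by
  simp [pmB, IsPM, hm, fn]

theorem cands_good (hF : Orc F) {m m' : List ℕ} (h : m' ∈ cands F cls W m) : Good W.length m' := by
  obtain ⟨D, -, h⟩ := List.mem_flatMap.1 h
  simp only [List.mem_cons, List.not_mem_nil, or_false] at h
  rcases h with rfl | rfl <;> exact (orc_opt hF).1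

theorem stp_cases (b : ℕ) (m : List ℕ) :
    ((cands F cls W m).any (okB cls W b m) = false ∧ stp F cls W b m = m) ∨
      (stp F cls W b m ∈ cands F cls W m ∧ okB cls W b m (stp F cls W b m) = true) := by
  by_cases h : (cands F cls W m).any (okB cls W b m) = true
  · exact Or.inr (headD_filter _ _ _ h)
  · refine Or.inl ⟨by simpa using h, ?_⟩
    rw [stp, List.filter_eq_nil_iff.2 fun a ha k => h (List.any_eq_true.2 ⟨a, ha, k⟩)]
    rfl

theorem iter_good (hF : Orc F) (b k : ℕ) :
    Good W.length ((stp F cls W b)^[k] (orc F cls W false fun _ _ => true)) := by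
  induction k with
  | zero => exact (orc_opt hF).1
  | succ k ih =>
    rw [iterate_succ_apply']
    rcases stp_cases (F := F) (cls := cls) (W := W) b _ with h | h
    · rw [h.2]; exact ih
    · exact cands_good hF h.1

theorem exists_cand (hF : Orc F) (h : ExactHyp W.length cls W) {m : List ℕ} {mu' : ℕ → ℕ}
    (hm : IsPM W.length W (fn m)) (hm' : IsPM W.length W mu')
    (hlt : blueCount W.length cls W (fn m) < blueCount W.length cls W mu') :
    (cands F cls W m).any (okB cls W (blueCount W.length cls W mu') m) = true := by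
  obtain ⟨ν, a1, a2, a3, col, a4⟩ := move h hm hm' hlt
  set D := (Chg W.length cls W col (fn m) ν).toList.map fun i => (i, ν i) with hD
  have hal : ∀ i j, alD m D i j = true ↔
      (if i ∈ Chg W.length cls W col (fn m) ν then ν i else fn m i) = j := by
    intro i j
    unfold alD
    by_cases e : i ∈ Chg W.length cls W col (fn m) ν
    · have : (D.any fun p => p.1 == i) = true := by simpa [hD] using e
      rw [this, if_pos e]
      simp [hD, e]
    · have : (D.any fun p => p.1 == i) = false := by
        simp only [hD, List.any_map, List.any_eq_false, mem_toList, comp, beq_iff_eq]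
        rintro x hx rfl
        exact e hx
      rw [this, if_neg e]
      simp [fn]
  obtain ⟨b1, b2, b3⟩ := orc_spec (col := col) (al := alD m D) hF h a1 fun i hi k => by
    rw [hal]
    split_ifs with e
    · rfl
    · by_contra k'
      exact e (mem_filter.2 ⟨mem_range.2 hi, fun x => k' x.symm, Or.inl k⟩)
  have b4 : colCount W.length cls W col (fn (orc F cls W col (alD m D))) ≤
      colCount W.length cls W col ν := card_le_card fun i hi => by
    obtain ⟨i1, i2⟩ := mem_filter.1 hi
    have := (hal _ _).1 (b2 i (mem_range.1 i1) i2)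
    refine mem_filter.2 ⟨i1, ?_⟩
    rw [← this] at i2
    split_ifs at i2 with e
    · exact i2
    · by_contra k'
      exact e (mem_filter.2 ⟨i1, fun x => k' (x ▸ i2), Or.inr i2⟩)
  have b5 := blue_eq h b1 a1 col
  rw [le_antisymm b4 b3, sub_self, mul_zero] at b5
  refine List.any_eq_true.2 ⟨orc F cls W col (alD m D), List.mem_flatMap.2 ⟨D, mem_tup _ _ _
    (by simpa [hD] using a4) fun x hx => ?_, by cases col <;> simp⟩, ?_⟩
  · obtain ⟨i, hi, rfl⟩ := List.mem_map.1 hx
    have := mem_range.1 (filter_subset _ _ (mem_toList.1 hi))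
    exact mem_prs.2 ⟨this, (a1.1 i this).1⟩
  · simp only [okB, Bool.and_eq_true, pmB_iff b1.1, blueB_eq, Nat.blt_eq, Nat.ble_eq]
    exact ⟨b1, by omega, by omega⟩

theorem iter_ok' (hF : Orc F) (h : ExactHyp W.length cls W) {mu' : ℕ → ℕ}
    (hm' : IsPM W.length W mu') (k : ℕ) :
    let m := (stp F cls W (blueCount W.length cls W mu'))^[k] (orc F cls W false fun _ _ => true)
    IsPM W.length W (fn m) ∧ blueCount W.length cls W (fn m) ≤ blueCount W.length cls W mu' ∧
      min k (blueCount W.length cls W mu') ≤ blueCount W.length cls W (fn m) := by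
  induction k with
  | zero =>
    obtain ⟨b1, -, b3⟩ := orc_spec (col := false) (al := fun _ _ => true) hF h hm' fun _ _ _ => rfl
    have := blue_eq h b1 hm' false
    simp only [cond] at this
    exact ⟨b1, by simp only [iterate_zero, id]; omega, by simp⟩
  | succ k ih =>
    obtain ⟨a1, a2, a3⟩ := ih
    simp only [iterate_succ_apply']
    rcases stp_cases (F := F) (cls := cls) (W := W) (blueCount W.length cls W mu') _ with c | c
    · rw [c.2]
      refine ⟨a1, a2, ?_⟩
      by_contra k'
      have := exists_cand hF h a1 hm' (by omega)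
      rw [c.1] at this
      exact Bool.false_ne_true this
    · have c2 := c.2
      simp only [okB, Bool.and_eq_true, pmB_iff (cands_good hF c.1).1, blueB_eq, Nat.blt_eq,
        Nat.ble_eq] at c2
      exact ⟨c2.1, c2.2.2, by omega⟩

section
variable {α : Type} [Enc α] {C : α → List ℕ} {V : α → List (List ℕ)}

theorem pf_orc (hF : PF F) (hC : PF C) (hV : PF V) (col : Bool) {al : α → ℕ → ℕ → Bool}
    (ha : PF fun q : α × ℕ × ℕ => al q.1 q.2.1 q.2.2) :
    PF fun a => orc F (fun i => (C a).getD i 0) (V a) col (al a) := by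
  have h1 : PF fun q : (α × ℕ) × ℕ => al q.1.1 q.1.2 q.2 :=
    ha.comp (g := fun q : (α × ℕ) × ℕ => (q.1.1, q.1.2, q.2)) (by fun_prop)
  have h2 : PF fun q : (α × ℕ) × ℕ => al q.1.1 q.2 q.1.2 :=
    ha.comp (g := fun q : (α × ℕ) × ℕ => (q.1.1, q.2, q.1.2)) (by fun_prop)
  have h3 : PF fun q : (α × ℕ) × ℕ => colB (fun i => (C q.1.1).getD i 0) (V q.1.1) col q.1.2 q.2 := by
    simp only [colB, wt]; fun_prop
  have h4 : PF fun q : (α × ℕ) × ℕ => colB (fun i => (C q.1.1).getD i 0) (V q.1.1) col q.2 q.1.2 := by
    simp only [colB, wt]; fun_prop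
  have h5 : PF fun q : (α × ℕ) × ℕ =>
      wgt (fun i => (C q.1.1).getD i 0) (V q.1.1) col (al q.1.1) q.1.2 q.2 :=
    PF.cond' (by simp only [sw, wt]; fun_prop) (PF.const 0) (PF.cond' (h3.or' h4)
      (PF.cond' ((h3.and' h1).or' (h4.and' h2)) (by fun_prop) (PF.const 0)) (by fun_prop))
  have h6 : PF fun a => tab2 (V a).length (wgt (fun i => (C a).getD i 0) (V a) col (al a)) :=
    PF.map (f := fun a i => (List.range (V a).length).map fun j =>
      wgt (fun i => (C a).getD i 0) (V a) col (al a) i j) hV.length.range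
      (PF.map (f := fun (q : α × ℕ) j =>
        wgt (fun i => (C q.1).getD i 0) (V q.1) col (al q.1) q.2 j) (by fun_prop) h5)
  have h7 := hF.comp h6
  exact PF.map (f := fun a i => (F (tab2 (V a).length
    (wgt (fun i => (C a).getD i 0) (V a) col (al a)))).getD i i) hV.length.range
    (PF.getD (h7.comp PF.id'.fst) PF.id'.snd PF.id'.snd)

theorem pf_blueB {m : α → List ℕ} (hC : PF C) (hV : PF V) (hm : PF m) :
    PF fun a => blueB (fun i => (C a).getD i 0) (V a) (m a) := by
  simp only [blueB, wt]; fun_prop

theorem pf_pmB {m : α → List ℕ} (hV : PF V) (hm : PF m) : PF fun a => pmB (V a) (m a) := by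
  simp only [pmB, wt]; fun_prop

theorem pf_stp {m : α → List ℕ} {b : α → ℕ} (hF : PF F) (hC : PF C) (hV : PF V) (hb : PF b)
    (hm : PF m) : PF fun a => stp F (fun i => (C a).getD i 0) (V a) (b a) (m a) := by
  have h1 : PF fun q : (α × List (ℕ × ℕ)) × ℕ × ℕ => alD (m q.1.1) q.1.2 q.2.1 q.2.2 := by
    simp only [alD]; fun_prop
  have h2 := fun col => pf_orc (C := fun q : α × List (ℕ × ℕ) => C q.1) (V := fun q => V q.1)
    (al := fun q => alD (m q.1) q.2) hF (by fun_prop) (by fun_prop) col h1
  have h3 : PF fun a => cands F (fun i => (C a).getD i 0) (V a) (m a) :=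
    PF.flatMap (f := fun a D => [orc F (fun i => (C a).getD i 0) (V a) true (alD (m a) D),
      orc F (fun i => (C a).getD i 0) (V a) false (alD (m a) D)]) ((pf_tup 110).comp hV.length)
      (PF.cons (h2 true) (PF.cons (h2 false) (PF.const _)))
  have c1 : PF fun q : α × List ℕ => C q.1 := by fun_prop
  have c2 : PF fun q : α × List ℕ => V q.1 := by fun_prop
  have h4 := pf_blueB c1 c2 PF.id'.snd
  exact PF.headD (PF.filter (f := fun a => okB (fun i => (C a).getD i 0) (V a) (b a) (m a)) h3
    ((pf_pmB c2 PF.id'.snd).and' (((pf_blueB c1 c2 (hm.comp PF.id'.fst)).blt h4).and'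
      (h4.ble (hb.comp PF.id'.fst))))) hm

end

end Pool.Agent.Shared.Matching.Exact

namespace Pool.Agent.Shared.Matching

open Finset Function Pool.Agent.Shared.PolyTime Enc Alg Exact

/-- Exact perfect matching on graphs with a complete coloured core is polynomial. -/
theorem exists_exactOracle : ∃ F : List ℕ × List (List ℕ) × ℕ → Bool, PF F ∧
    ∀ (C : List ℕ) (W : List (List ℕ)) (b : ℕ), ExactHyp W.length (fun i => C.getD i 0) W →
      (F (C, W, b) = true ↔
        ∃ m, IsPM W.length W m ∧ blueCount W.length (fun i => C.getD i 0) W m = b) := by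
  obtain ⟨F, hF, hO⟩ := exists_maxWeightMatching
  have c1 : PF fun a : List ℕ × List (List ℕ) × ℕ => a.1 := by fun_prop
  have c2 : PF fun a : List ℕ × List (List ℕ) × ℕ => a.2.1 := by fun_prop
  have hI := PF.iterate (k := fun a : List ℕ × List (List ℕ) × ℕ => a.2.1.length)
    (st := fun a => stp F (fun i => a.1.getD i 0) a.2.1 a.2.2) c2.length
    (pf_orc (al := fun _ _ _ => true) hF c1 c2 false (PF.const _))
    (pf_stp hF (by fun_prop) (by fun_prop) (by fun_prop) (by fun_prop))
    ⟨Polynomial.X * (2 * Polynomial.X + 1), fun a j _ => by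
      obtain ⟨C, W, b⟩ := a
      have h1 := length_le_len W
      refine (iter_good (F := F) hO _ _).2.trans ?_
      simp only [len_prod, Polynomial.eval_mul, Polynomial.eval_add, Polynomial.eval_X,
        Polynomial.eval_ofNat, Polynomial.eval_one]
      exact Nat.mul_le_mul (by omega) (by omega)⟩
  refine ⟨_, (pf_pmB c2 hI).and' ((pf_blueB c1 c2 hI).beq PF.id'.snd.snd), fun C W b h => ?_⟩
  simp only [Bool.and_eq_true, pmB_iff (iter_good (F := F) hO _ _).1, blueB_eq, beq_iff_eq]
  refine ⟨fun k => ⟨_, k⟩, ?_⟩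
  rintro ⟨m, hm, rfl⟩
  obtain ⟨a1, a2, a3⟩ := iter_ok' (F := F) hO h hm W.length
  have : blueCount W.length (fun i => C.getD i 0) W m ≤ W.length :=
    (card_filter_le _ _).trans (card_range _).le
  exact ⟨a1, by omega⟩

end Pool.Agent.Shared.Matching
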